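import Pool.Agent.Helper78.USlices0
import Pool.Agent.Helper68.U17
import Pool.Agent.Helper43.TTF.G

open scoped InnerProductSpace Topology BoundedContinuousFunction
open ContinuousLinearMap Filter MeasureTheory

namespace Pool.Agent.Helper23

variable {H : Type*} [NormedAddCommGroup H] [InnerProductSpace ℂ H] [CompleteSpace H]
variable {M N : VonNeumannAlgebra H} {ξ : H} {E : (H →L[ℂ] H) → (H →L[ℂ] H)}

/-- U14: the slices of an element of the relative commutant -/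
theorem Setting.slX_shift_all (S : Setting M N E ξ) {X : L2R H →L[ℂ] L2R H} (hX : X ∈ Rk M N ξ)
    (f g : L2R ℂ) {l : ℝ} (hl : 0 < l) {a : ℕ → H →L[ℂ] H} (ha : LamSeq N ξ l a) (η : H) :
    Tendsto (fun n => (a n * slX X f g -
      slX X (tr ℂ (Real.log l) f) (tr ℂ (Real.log l) g) * a n) η) atTop (𝓝 0) := by
  obtain ⟨R, D, Ψ, hΨ, hN⟩ := S.exists_modular
  exact U14.shift_all S hΨ hN (fun u hu h1 h2 => S.fco_mem_GK hΨ hN hu h1 h2) hX f g ha
    (fun f => S.lamSeq_conj hΨ hl ha f) η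

theorem Setting.slX_shift (S : Setting M N E ξ) {X : L2R H →L[ℂ] L2R H} (hX : X ∈ Rk M N ξ)
    (f g : L2R ℂ) {l : ℝ} (hl : 0 < l) {a : ℕ → H →L[ℂ] H} (ha : LamSeq N ξ l a) :
    Tendsto (fun n => (a n * slX X f g -
      slX X (tr ℂ (Real.log l) f) (tr ℂ (Real.log l) g) * a n) ξ) atTop (𝓝 0) :=
  S.slX_shift_all hX f g hl ha ξ

theorem Setting.slX_bicent (S : Setting M N E ξ) {X : L2R H →L[ℂ] L2R H} (hX : X ∈ Rk M N ξ)
    (f g : L2R ℂ) : slX X f g ∈ Bicent M N ξ := by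
  refine ⟨slX_mem hX.1 f g, fun a ha η => ?_⟩
  have h1 := (S.slX_shift_all hX f g one_pos ha η).neg
  rw [neg_zero, Real.log_one, tr_zero] at h1
  refine h1.congr fun n => ?_
  rw [sub_apply, neg_sub]
  rfl

end Pool.Agent.Helper23
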