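import Pool.Agent.Helper78.BernBasic

/-!
# Bridge between complex measures and densities

* `integral_withDensityV`: `∫ᵛ f d(m.withDensityᵥ h) = ∫ f h dm` for bounded strongly measurable `f`;
* `totalVar_withDensityV`, `fourierStieltjes_withDensityV`;
* `exists_density`: every complex measure is `|μ|.withDensityᵥ h`;
* `bernsteinNorm_le_of_density`, `le_bernsteinNorm`.
-/

namespace Pool.Agent.Helper78.Bern

open MeasureTheory Pool.Agent.Helper45.Bern Filter Topology

section General

variable {X : Type*} [MeasurableSpace X]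

lemma finite_variation_withDensityV {m : Measure X} {h : X → ℂ} (hh : Integrable h m) :
    IsFiniteMeasure (m.withDensityᵥ h).variation := by
  rw [Measure.variation_withDensityᵥ hh]
  exact isFiniteMeasure_withDensity (by
    have := hh.2
    rw [HasFiniteIntegral] at this
    exact this.ne)

/-- Integral against `m.withDensityᵥ h`. -/
theorem integral_withDensityV {m : Measure X} {h : X → ℂ} (hh : Integrable h m) {f : X → ℂ}
    (hf : StronglyMeasurable f) {C : ℝ} (hC : ∀ x, ‖f x‖ ≤ C) :
    VectorMeasure.integral (m.withDensityᵥ h) f (ContinuousLinearMap.mul ℝ ℂ) =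
      ∫ x, f x * h x ∂m := by
  have : IsFiniteMeasure (m.withDensityᵥ h).variation := finite_variation_withDensityV hh
  -- simple functions are bounded
  have hbd : ∀ g : SimpleFunc X ℂ, ∃ D : ℝ, ∀ x, ‖g x‖ ≤ D := fun g => g.exists_forall_norm_le
  have hintg : ∀ g : SimpleFunc X ℂ, (m.withDensityᵥ h).Integrable g := by
    intro g
    obtain ⟨D, hD⟩ := hbd g
    exact Integrable.of_bound g.stronglyMeasurable.aestronglyMeasurable D (Eventually.of_forall hD)
  have hintgh : ∀ g : SimpleFunc X ℂ, Integrable (fun x => g x * h x) m := by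
    intro g
    obtain ⟨D, hD⟩ := hbd g
    exact hh.bdd_mul (c := D) g.stronglyMeasurable.aestronglyMeasurable (Eventually.of_forall hD)
  have hsimple : ∀ g : SimpleFunc X ℂ,
      VectorMeasure.integral (m.withDensityᵥ h) g (ContinuousLinearMap.mul ℝ ℂ) =
      ∫ x, g x * h x ∂m := by
    intro g
    induction g using SimpleFunc.induction with
    | const c hs =>
      rename_i s
      have e1 : (⇑(SimpleFunc.piecewise s hs (SimpleFunc.const X c) (SimpleFunc.const X 0)) :
          X → ℂ) = s.indicator (fun _ => c) := by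
        funext x
        simp [SimpleFunc.coe_piecewise, Set.indicator, Set.piecewise]
      rw [e1, VectorMeasure.integral_indicator_const _ hs, withDensityᵥ_apply hh hs]
      have e2 : (fun x => s.indicator (fun _ => c) x * h x) = s.indicator (fun x => c * h x) := by
        funext x
        by_cases hx : x ∈ s <;> simp [hx]
      rw [e2, integral_indicator hs, integral_const_mul]
      rfl
    | add hd h1 h2 =>
      rename_i f g
      have e1 : (⇑(f + g) : X → ℂ) = fun x => f x + g x := rfl
      rw [e1, VectorMeasure.integral_fun_add (hintg f) (hintg g), h1, h2,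
        ← integral_add (hintgh f) (hintgh g)]
      congr 1
      funext x; ring
  -- limit
  set D : ℝ := max C 0 with hD
  have hD0 : 0 ≤ D := le_max_right _ _
  have hlim1 : Tendsto (fun n => VectorMeasure.integral (m.withDensityᵥ h) (hf.approxBounded D n)
      (ContinuousLinearMap.mul ℝ ℂ)) atTop
      (𝓝 (VectorMeasure.integral (m.withDensityᵥ h) f (ContinuousLinearMap.mul ℝ ℂ))) := by
    apply VectorMeasure.tendsto_integral_of_dominated_convergence (fun _ => D)
    · intro n
      exact (hf.approxBounded D n).stronglyMeasurable.aestronglyMeasurable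
    · exact integrable_const D
    · intro n
      exact Eventually.of_forall (fun x => hf.norm_approxBounded_le hD0 n x)
    · exact Eventually.of_forall (fun x => hf.tendsto_approxBounded_of_norm_le
        ((hC x).trans (le_max_left _ _)))
  have hlim2 : Tendsto (fun n => ∫ x, hf.approxBounded D n x * h x ∂m) atTop
      (𝓝 (∫ x, f x * h x ∂m)) := by
    apply tendsto_integral_of_dominated_convergence (fun x => D * ‖h x‖)
    · intro n
      exact (hintgh _).1
    · exact hh.norm.const_mul D
    · intro n
      refine Eventually.of_forall (fun x => ?_)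
      rw [norm_mul]
      exact mul_le_mul_of_nonneg_right (hf.norm_approxBounded_le hD0 n x) (norm_nonneg _)
    · exact Eventually.of_forall (fun x => (hf.tendsto_approxBounded_of_norm_le
        ((hC x).trans (le_max_left _ _))).mul_const _)
  have heq : (fun n => VectorMeasure.integral (m.withDensityᵥ h) (hf.approxBounded D n)
      (ContinuousLinearMap.mul ℝ ℂ)) = fun n => ∫ x, hf.approxBounded D n x * h x ∂m := by
    funext n; exact hsimple _
  rw [heq] at hlim1
  exact tendsto_nhds_unique hlim1 hlim2

end General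

/-- (B1) total variation -/
theorem totalVar_withDensityV {m : Measure ℝ} {h : ℝ → ℂ} (hh : Integrable h m) :
    totalVar (m.withDensityᵥ h) = ∫ x, ‖h x‖ ∂m := by
  unfold totalVar
  rw [Measure.variation_withDensityᵥ hh, withDensity_apply _ MeasurableSet.univ,
    Measure.restrict_univ, integral_norm_eq_lintegral_enorm hh.1]

/-- (B1) Fourier transform -/
theorem fourierStieltjes_withDensityV {m : Measure ℝ} {h : ℝ → ℂ} (hh : Integrable h m) (ξ : ℝ) :
    fourierStieltjes (m.withDensityᵥ h) ξ =
      ∫ x, Complex.exp (-(Complex.I * ((x * ξ : ℝ) : ℂ))) * h x ∂m := by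
  unfold fourierStieltjes
  refine integral_withDensityV hh (C := 1) (by fun_prop : Continuous (fun x : ℝ =>
    Complex.exp (-(Complex.I * ((x * ξ : ℝ) : ℂ))))).stronglyMeasurable ?_
  intro x
  rw [show -(Complex.I * ((x * ξ : ℝ) : ℂ)) = ((-(x * ξ) : ℝ) : ℂ) * Complex.I by push_cast; ring,
    Complex.norm_exp_ofReal_mul_I]

/-- (B2) every complex measure has a density with respect to its variation. -/
theorem exists_density (μ : ComplexMeasure ℝ) :
    ∃ h : ℝ → ℂ, Integrable h μ.variation ∧ μ = μ.variation.withDensityᵥ h ∧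
      ∫ x, ‖h x‖ ∂μ.variation = totalVar μ := by
  set ν := μ.variation with hν
  have hac : ∀ s : SignedMeasure ℝ, (∀ E, ‖s E‖ ≤ ‖μ E‖) →
      s ≪ᵥ ν.toENNRealVectorMeasure := by
    intro s hs
    apply VectorMeasure.AbsolutelyContinuous.mk
    intro E hE h0
    rw [Measure.toENNRealVectorMeasure_apply_measurable hE] at h0
    have h1 : μ E = 0 := by
      have := VectorMeasure.enorm_measure_le_variation μ E
      rw [← hν, h0] at this
      simpa using this
    have := hs E
    rw [h1, norm_zero] at this
    exact norm_le_zero_iff.1 this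
  have hre := hac (ComplexMeasure.re μ) (fun E => Complex.abs_re_le_norm _)
  have him := hac (ComplexMeasure.im μ) (fun E => Complex.abs_im_le_norm _)
  have h1 := SignedMeasure.withDensityᵥ_rnDeriv_eq (ComplexMeasure.re μ) ν hre
  have h2 := SignedMeasure.withDensityᵥ_rnDeriv_eq (ComplexMeasure.im μ) ν him
  have i1 := SignedMeasure.integrable_rnDeriv (ComplexMeasure.re μ) ν
  have i2 := SignedMeasure.integrable_rnDeriv (ComplexMeasure.im μ) ν
  set g1 := (ComplexMeasure.re μ).rnDeriv ν
  set g2 := (ComplexMeasure.im μ).rnDeriv ν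
  set h : ℝ → ℂ := fun x => (g1 x : ℂ) + (g2 x : ℂ) * Complex.I with hh
  have ih : Integrable h ν := i1.ofReal.add (i2.ofReal.mul_const _)
  have hμ : μ = ν.withDensityᵥ h := by
    ext E hE
    rw [withDensityᵥ_apply ih hE]
    simp only [hh]
    have j1 : Integrable (fun x => (g1 x : ℂ)) (ν.restrict E) := i1.ofReal.restrict
    have j2 : Integrable (fun x => (g2 x : ℂ) * Complex.I) (ν.restrict E) :=
      (i2.ofReal.mul_const _).restrict
    rw [integral_add j1 j2, integral_mul_const, integral_complex_ofReal, integral_complex_ofReal]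
    have a1 : ∫ x in E, g1 x ∂ν = (μ E).re := by
      have := congrArg (fun s : SignedMeasure ℝ => s E) h1
      simp only [withDensityᵥ_apply i1 hE] at this
      exact this
    have a2 : ∫ x in E, g2 x ∂ν = (μ E).im := by
      have := congrArg (fun s : SignedMeasure ℝ => s E) h2
      simp only [withDensityᵥ_apply i2 hE] at this
      exact this
    rw [a1, a2, Complex.re_add_im]
  refine ⟨h, ih, hμ, ?_⟩
  rw [← totalVar_withDensityV ih, ← hμ]

/-- (C1) -/
theorem bernsteinNorm_le_of_density {α : ℝ} {m : Measure ℝ} {h : ℝ → ℂ} (hh : Integrable h m)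
    (hrep : ∀ ξ : ℝ, |ξ| ≤ 1 →
      ∫ x, Complex.exp (-(Complex.I * ((x * ξ : ℝ) : ℂ))) * h x ∂m = (((1 - |ξ|) ^ α : ℝ) : ℂ)) :
    bernsteinNorm α ≤ ∫ x, ‖h x‖ ∂m := by
  rw [← totalVar_withDensityV hh]
  apply bernsteinNorm_le
  intro ξ hξ
  rw [fourierStieltjes_withDensityV hh, hrep ξ hξ]

/-- (C2) lower bounds need only be checked for representing pairs `(m, h)` with `m` finite. -/
theorem le_bernsteinNorm {α g : ℝ} (hne : ∃ μ, Admissible α μ)
    (H : ∀ (m : Measure ℝ) (h : ℝ → ℂ), IsFiniteMeasure m → Integrable h m →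
      (∀ ξ : ℝ, |ξ| ≤ 1 →
        ∫ x, Complex.exp (-(Complex.I * ((x * ξ : ℝ) : ℂ))) * h x ∂m =
          (((1 - |ξ|) ^ α : ℝ) : ℂ)) → g ≤ ∫ x, ‖h x‖ ∂m) :
    g ≤ bernsteinNorm α := by
  unfold bernsteinNorm
  apply le_csInf
  · obtain ⟨μ, hμ⟩ := hne
    exact ⟨_, μ, hμ, rfl⟩
  · rintro r ⟨μ, hμ, rfl⟩
    obtain ⟨h, ih, hμh, hn⟩ := exists_density μ
    rw [← hn]
    apply H μ.variation h inferInstance ih
    intro ξ hξ
    rw [← fourierStieltjes_withDensityV ih, ← hμh]
    exact hμ ξ hξ

/-- (C2') test functions. -/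
theorem le_bernsteinNorm_of_test {α g : ℝ} (hne : ∃ μ, Admissible α μ) {f : ℝ → ℂ}
    (hf1 : ∀ x, ‖f x‖ ≤ 1)
    (H : ∀ (m : Measure ℝ) (h : ℝ → ℂ), IsFiniteMeasure m → Integrable h m →
      (∀ ξ : ℝ, |ξ| ≤ 1 →
        ∫ x, Complex.exp (-(Complex.I * ((x * ξ : ℝ) : ℂ))) * h x ∂m =
          (((1 - |ξ|) ^ α : ℝ) : ℂ)) → g ≤ ‖∫ x, f x * h x ∂m‖) :
    g ≤ bernsteinNorm α := by
  apply le_bernsteinNorm hne
  intro m h hm hh hrep
  refine (H m h hm hh hrep).trans ?_
  calc ‖∫ x, f x * h x ∂m‖ ≤ ∫ x, ‖f x * h x‖ ∂m := norm_integral_le_integral_norm _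
    _ ≤ ∫ x, ‖h x‖ ∂m := by
        apply integral_mono_of_nonneg (Eventually.of_forall fun x => norm_nonneg _) hh.norm
        refine Eventually.of_forall fun x => ?_
        simp only [norm_mul]
        exact mul_le_of_le_one_left (norm_nonneg _) (hf1 x)

/-- Discrete version of (C1): if `∑ b n e^{-i e_n ξ} = (1-|ξ|)^α` on `[-1,1]` with `b` absolutely
summable then there is an admissible measure of total variation at most `∑ |b n|`. -/
theorem exists_admissible_of_series {α : ℝ} {b : ℤ → ℂ} {e : ℤ → ℝ} (hb : Summable (fun n => ‖b n‖))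
    (hrep : ∀ ξ : ℝ, |ξ| ≤ 1 →
      HasSum (fun n => Complex.exp (-(Complex.I * ((e n * ξ : ℝ) : ℂ))) * b n)
        (((1 - |ξ|) ^ α : ℝ) : ℂ)) :
    ∃ μ, Admissible α μ ∧ totalVar μ ≤ ∑' n, ‖b n‖ := by
  have hint : Integrable b (Measure.count : Measure ℤ) := by
    refine ⟨(Measurable.of_discrete).aestronglyMeasurable, ?_⟩
    rw [HasFiniteIntegral, lintegral_count]
    have : ∀ n, ‖b n‖ₑ = ENNReal.ofReal ‖b n‖ := fun n => (ofReal_norm _).symm
    simp_rw [this]
    exact hb.tsum_ofReal_lt_top
  set μ0 : VectorMeasure ℤ ℂ := (Measure.count : Measure ℤ).withDensityᵥ b with hμ0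
  have hfin : IsFiniteMeasure μ0.variation := finite_variation_withDensityV hint
  have hem : Measurable e := Measurable.of_discrete
  refine ⟨μ0.map e, ?_, ?_⟩
  · intro ξ hξ
    unfold fourierStieltjes
    have hcont : Continuous (fun x : ℝ => Complex.exp (-(Complex.I * ((x * ξ : ℝ) : ℂ)))) := by
      fun_prop
    have hnorm : ∀ x : ℝ, ‖Complex.exp (-(Complex.I * ((x * ξ : ℝ) : ℂ)))‖ ≤ 1 := by
      intro x
      rw [show -(Complex.I * ((x * ξ : ℝ) : ℂ)) = ((-(x * ξ) : ℝ) : ℂ) * Complex.I by
        push_cast; ring, Complex.norm_exp_ofReal_mul_I]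
    rw [VectorMeasure.integral_map hem hcont.stronglyMeasurable.aestronglyMeasurable
      (Integrable.of_bound (by fun_prop) 1 (Eventually.of_forall fun n => hnorm (e n)))]
    rw [hμ0, integral_withDensityV hint (C := 1)
      (Measurable.of_discrete (f := fun n : ℤ =>
        Complex.exp (-(Complex.I * ((e n * ξ : ℝ) : ℂ))))).stronglyMeasurable
      (fun n => hnorm (e n))]
    rw [integral_countable]
    · simp only [measureReal_def, Measure.count_singleton, ENNReal.toReal_one, one_smul]
      exact (hrep ξ hξ).tsum_eq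
    · refine hint.bdd_mul (c := 1) (Measurable.of_discrete).aestronglyMeasurable
        (Eventually.of_forall fun n => hnorm (e n))
  · unfold totalVar
    have h1 : (μ0.map e).variation Set.univ ≤ μ0.variation Set.univ := by
      refine (VectorMeasure.variation_map_le Set.univ).trans ?_
      rw [Measure.map_apply hem MeasurableSet.univ, Set.preimage_univ]
    have h2 : μ0.variation Set.univ = ENNReal.ofReal (∑' n, ‖b n‖) := by
      rw [hμ0, Measure.variation_withDensityᵥ hint, withDensity_apply _ MeasurableSet.univ,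
        Measure.restrict_univ, lintegral_count, ENNReal.ofReal_tsum_of_nonneg
          (fun n => norm_nonneg _) hb]
      congr 1
      funext n
      exact (ofReal_norm _).symm
    rw [h2] at h1
    calc ((μ0.map e).variation Set.univ).toReal ≤ (ENNReal.ofReal (∑' n, ‖b n‖)).toReal :=
          ENNReal.toReal_mono ENNReal.ofReal_ne_top h1
      _ = ∑' n, ‖b n‖ := ENNReal.toReal_ofReal (tsum_nonneg fun n => norm_nonneg _)

end Pool.Agent.Helper78.Bern
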