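import Pool.Agent.Helper45.BernDefs

namespace Pool.Agent.Helper78.Bern

open MeasureTheory Pool.Agent.Helper45.Bern

lemma variation_le_re_add_im (μ : ComplexMeasure ℝ) :
    μ.variation ≤ (ComplexMeasure.re μ).variation + (ComplexMeasure.im μ).variation := by
  apply VectorMeasure.variation_le_of_forall_enorm_le
  intro E hE
  have h1 := VectorMeasure.enorm_measure_le_variation (ComplexMeasure.re μ) E
  have h2 := VectorMeasure.enorm_measure_le_variation (ComplexMeasure.im μ) E
  have h3 : ‖μ E‖ₑ ≤ ‖(ComplexMeasure.re μ) E‖ₑ + ‖(ComplexMeasure.im μ) E‖ₑ := by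
    have : (μ E : ℂ) = (((ComplexMeasure.re μ) E : ℝ) : ℂ) +
        (((ComplexMeasure.im μ) E : ℝ) : ℂ) * Complex.I := by
      have e1 : (ComplexMeasure.re μ) E = (μ E).re := rfl
      have e2 : (ComplexMeasure.im μ) E = (μ E).im := rfl
      rw [e1, e2, Complex.re_add_im]
    rw [this]
    refine (enorm_add_le _ _).trans ?_
    gcongr
    · simp [← ofReal_norm]
    · rw [← ofReal_norm, ← ofReal_norm]; simp
  calc ‖μ E‖ₑ ≤ _ := h3
    _ ≤ _ := add_le_add h1 h2
    _ = _ := by simp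

lemma signed_variation_lt_top (s : SignedMeasure ℝ) : s.variation Set.univ < ⊤ := by
  rw [← SignedMeasure.totalVariation_eq_variation]
  exact measure_lt_top _ _

instance instFiniteVariation (μ : ComplexMeasure ℝ) : IsFiniteMeasure μ.variation := by
  constructor
  calc μ.variation Set.univ ≤ ((ComplexMeasure.re μ).variation + (ComplexMeasure.im μ).variation) Set.univ :=
        variation_le_re_add_im μ Set.univ
    _ < ⊤ := by
        rw [Measure.add_apply]
        exact ENNReal.add_lt_top.2 ⟨signed_variation_lt_top _, signed_variation_lt_top _⟩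

lemma totalVar_nonneg (μ : ComplexMeasure ℝ) : 0 ≤ totalVar μ := ENNReal.toReal_nonneg

lemma norm_integral_le_tv (μ : ComplexMeasure ℝ) (f : ℝ → ℂ) (C : ℝ) (hC : 0 ≤ C)
    (hf : ∀ x, ‖f x‖ ≤ C) :
    ‖VectorMeasure.integral μ f (ContinuousLinearMap.mul ℝ ℂ)‖ ≤ C * totalVar μ := by
  have h : ‖VectorMeasure.integral μ f (ContinuousLinearMap.mul ℝ ℂ)‖ ≤
      C * ‖ContinuousLinearMap.mul ℝ ℂ‖ * μ.variation.real Set.univ :=
    VectorMeasure.norm_integral_le_of_norm_le_const
    (Filter.Eventually.of_forall hf)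
  refine h.trans ?_
  have h2 : ‖ContinuousLinearMap.mul ℝ ℂ‖ ≤ 1 := ContinuousLinearMap.opNorm_mul_le ℝ ℂ
  have h3 : μ.variation.real Set.univ = totalVar μ := rfl
  rw [h3]
  have := totalVar_nonneg μ
  calc C * ‖ContinuousLinearMap.mul ℝ ℂ‖ * totalVar μ ≤ C * 1 * totalVar μ := by gcongr
    _ = _ := by ring

lemma integrable_of_cont_bdd (μ : ComplexMeasure ℝ) (f : ℝ → ℂ) (hc : Continuous f) (C : ℝ)
    (hf : ∀ x, ‖f x‖ ≤ C) : μ.Integrable f :=
  Integrable.of_bound hc.aestronglyMeasurable C (Filter.Eventually.of_forall hf)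

lemma bernsteinNorm_le {α : ℝ} {μ : ComplexMeasure ℝ} (h : Admissible α μ) :
    bernsteinNorm α ≤ totalVar μ := by
  apply csInf_le
  · exact ⟨0, by rintro r ⟨ν, -, rfl⟩; exact totalVar_nonneg ν⟩
  · exact ⟨μ, h, rfl⟩

/-- integral of `cos (x η)` against a representing measure -/
lemma integral_cos {α : ℝ} {μ : ComplexMeasure ℝ} (h : Admissible α μ) {η : ℝ}
    (hη : |η| ≤ 1) :
    VectorMeasure.integral μ (fun x : ℝ => (Real.cos (x * η) : ℂ)) (ContinuousLinearMap.mul ℝ ℂ)
      = (((1 - |η|) ^ α : ℝ) : ℂ) := by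
  have h1 : fourierStieltjes μ η = (((1 - |η|) ^ α : ℝ) : ℂ) := h η hη
  have h2 : fourierStieltjes μ (-η) = (((1 - |η|) ^ α : ℝ) : ℂ) := by
    have := h (-η) (by rwa [abs_neg])
    rwa [abs_neg] at this
  have key : (fun x : ℝ => (Real.cos (x * η) : ℂ)) =
      (fun x : ℝ => ((1 / 2 : ℝ)) • (Complex.exp (-(Complex.I * ((x * η : ℝ) : ℂ))) +
        Complex.exp (-(Complex.I * ((x * (-η) : ℝ) : ℂ))))) := by
    funext x
    rw [Complex.ofReal_cos, Complex.cos]
    simp only [Complex.real_smul]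
    push_cast
    rw [show (x : ℂ) * (η : ℂ) * Complex.I = -(Complex.I * ((x : ℂ) * (-(η : ℂ)))) by ring,
      show -((x : ℂ) * (η : ℂ)) * Complex.I = -(Complex.I * ((x : ℂ) * (η : ℂ))) by ring]
    ring
  have hint : ∀ ζ : ℝ, μ.Integrable (fun x : ℝ => Complex.exp (-(Complex.I * ((x * ζ : ℝ) : ℂ)))) := by
    intro ζ
    refine integrable_of_cont_bdd μ _ (by fun_prop) 1 ?_
    intro x
    rw [show -(Complex.I * ((x * ζ : ℝ) : ℂ)) = ((-(x * ζ) : ℝ) : ℂ) * Complex.I by push_cast; ring,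
      Complex.norm_exp_ofReal_mul_I]
  rw [key, VectorMeasure.integral_fun_smul, VectorMeasure.integral_fun_add (hint _) (hint _)]
  have e1 : VectorMeasure.integral μ (fun x : ℝ => Complex.exp (-(Complex.I * ((x * η : ℝ) : ℂ))))
    (ContinuousLinearMap.mul ℝ ℂ) = (((1 - |η|) ^ α : ℝ) : ℂ) := h1
  have e2 : VectorMeasure.integral μ (fun x : ℝ => Complex.exp (-(Complex.I * ((x * (-η) : ℝ) : ℂ))))
    (ContinuousLinearMap.mul ℝ ℂ) = (((1 - |η|) ^ α : ℝ) : ℂ) := h2
  rw [e1, e2]
  simp only [Complex.real_smul]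
  push_cast
  ring

/-- The finite test-function lower bound. -/
theorem lower_finite {α : ℝ} {μ : ComplexMeasure ℝ} (h : Admissible α μ)
    {ι : Type*} (s : Finset ι) (t c : ι → ℝ) (ht0 : ∀ i ∈ s, 0 ≤ t i) (ht1 : ∀ i ∈ s, t i ≤ 1 / 2)
    (hc : ∑ i ∈ s, |c i| ≤ 1) :
    1 - ∑ i ∈ s, ∑ j ∈ s, c i * c j * ((1 - |t i - t j|) ^ α + (t i + t j) ^ α) ≤ totalVar μ := by
  classical
  set y : ι → ℝ := fun i => 1 / 2 - t i with hy
  set u : ℝ → ℝ := fun x => ∑ i ∈ s, c i * Real.cos (x * y i) with hu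
  have hu1 : ∀ x, |u x| ≤ 1 := by
    intro x
    calc |u x| ≤ ∑ i ∈ s, |c i * Real.cos (x * y i)| := Finset.abs_sum_le_sum_abs _ _
      _ ≤ ∑ i ∈ s, |c i| := by
          apply Finset.sum_le_sum
          intro i _
          rw [abs_mul]
          exact mul_le_of_le_one_right (abs_nonneg _) (Real.abs_cos_le_one _)
      _ ≤ 1 := hc
  set f : ℝ → ℝ := fun x => 1 - 2 * u x ^ 2 with hf
  have hf1 : ∀ x, |f x| ≤ 1 := by
    intro x
    have h1 := hu1 x
    have h2 : u x ^ 2 ≤ 1 := by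
      rw [← sq_abs]; nlinarith [abs_nonneg (u x)]
    rw [abs_le]; constructor <;> simp only [hf] <;> nlinarith [sq_nonneg (u x)]
  have hfeq : ∀ x, f x = Real.cos (x * 0) - ∑ i ∈ s, ∑ j ∈ s,
      c i * c j * (Real.cos (x * (y i - y j)) + Real.cos (x * (y i + y j))) := by
    intro x
    simp only [hf, hu, mul_zero, Real.cos_zero]
    rw [sq, Finset.sum_mul_sum, Finset.mul_sum]
    congr 1
    apply Finset.sum_congr rfl
    intro i _
    rw [Finset.mul_sum]
    apply Finset.sum_congr rfl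
    intro j _
    have : Real.cos (x * (y i - y j)) + Real.cos (x * (y i + y j)) =
        2 * (Real.cos (x * y i) * Real.cos (x * y j)) := by
      rw [mul_sub, mul_add, Real.cos_sub, Real.cos_add]; ring
    rw [this]; ring
  have hint : ∀ ζ : ℝ, μ.Integrable (fun x : ℝ => (Real.cos (x * ζ) : ℂ)) := by
    intro ζ
    refine integrable_of_cont_bdd μ _ (by fun_prop) 1 ?_
    intro x
    rw [Complex.norm_real]
    exact Real.abs_cos_le_one _
  have hfc : (fun x : ℝ => (f x : ℂ)) = fun x : ℝ => (Real.cos (x * 0) : ℂ) - ∑ i ∈ s, ∑ j ∈ s,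
      (c i * c j) • ((Real.cos (x * (y i - y j)) : ℂ) + (Real.cos (x * (y i + y j)) : ℂ)) := by
    funext x
    rw [hfeq x]
    push_cast
    simp only [Complex.real_smul]
    push_cast
    rfl
  have hint2 : ∀ i j, μ.Integrable (fun x : ℝ => (c i * c j) •
      ((Real.cos (x * (y i - y j)) : ℂ) + (Real.cos (x * (y i + y j)) : ℂ))) := by
    intro i j
    exact ((hint _).add (hint _)).smul (c i * c j)
  have hint3 : ∀ i, μ.Integrable (fun x : ℝ => ∑ j ∈ s, (c i * c j) •
      ((Real.cos (x * (y i - y j)) : ℂ) + (Real.cos (x * (y i + y j)) : ℂ))) := by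
    intro i
    exact integrable_finsetSum _ (fun j _ => hint2 i j)
  have hval : VectorMeasure.integral μ (fun x : ℝ => (f x : ℂ)) (ContinuousLinearMap.mul ℝ ℂ) =
      (((1 : ℝ) - ∑ i ∈ s, ∑ j ∈ s, c i * c j * ((1 - |t i - t j|) ^ α + (t i + t j) ^ α) : ℝ) : ℂ) := by
    rw [hfc, VectorMeasure.integral_fun_sub (hint _) (integrable_finsetSum _ (fun i _ => hint3 i)),
      integral_cos h (by simp)]
    rw [VectorMeasure.integral_finsetSum s (fun i _ => hint3 i)]
    have : ∀ i ∈ s, VectorMeasure.integral μ (fun x : ℝ => ∑ j ∈ s, (c i * c j) •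
      ((Real.cos (x * (y i - y j)) : ℂ) + (Real.cos (x * (y i + y j)) : ℂ)))
        (ContinuousLinearMap.mul ℝ ℂ) =
        ((∑ j ∈ s, c i * c j * ((1 - |t i - t j|) ^ α + (t i + t j) ^ α) : ℝ) : ℂ) := by
      intro i hi
      rw [VectorMeasure.integral_finsetSum s (fun j _ => hint2 i j), Complex.ofReal_sum]
      apply Finset.sum_congr rfl
      intro j hj
      rw [VectorMeasure.integral_fun_smul, VectorMeasure.integral_fun_add (hint _) (hint _)]
      have a1 : |y i - y j| ≤ 1 := by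
        simp only [hy]
        rw [abs_le]
        constructor <;> linarith [ht0 i hi, ht0 j hj, ht1 i hi, ht1 j hj]
      have a2 : |y i + y j| ≤ 1 := by
        simp only [hy]
        rw [abs_le]
        constructor <;> linarith [ht0 i hi, ht0 j hj, ht1 i hi, ht1 j hj]
      rw [integral_cos h a1, integral_cos h a2]
      have b1 : |y i - y j| = |t i - t j| := by
        simp only [hy]
        rw [show (1 / 2 - t i - (1 / 2 - t j) : ℝ) = -(t i - t j) by ring, abs_neg]
      have b2 : |y i + y j| = 1 - (t i + t j) := by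
        simp only [hy]
        rw [abs_of_nonneg]
        · ring
        · linarith [ht1 i hi, ht1 j hj]
      rw [b1, b2, Complex.real_smul]
      push_cast
      rw [show (1 - (1 - (t i + t j)) : ℝ) = t i + t j by ring]
    rw [Finset.sum_congr rfl this]
    push_cast
    simp
  have hn := norm_integral_le_tv μ (fun x : ℝ => (f x : ℂ)) 1 zero_le_one
    (by intro x; rw [Complex.norm_real]; exact hf1 x)
  rw [hval, Complex.norm_real, one_mul] at hn
  exact (le_abs_self _).trans hn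

end Pool.Agent.Helper78.Bern
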