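import Pool.Agent.Helper78.BernLaplace

/-!
# Two-sided control of the cosine coefficients of `(1-x)^α`
-/

namespace Pool.Agent.Helper78.Bern

open Real MeasureTheory Set Filter Topology

/-- `Γ(α) cos(πα/2)` -/
noncomputable def gConst (α : ℝ) : ℝ := Real.Gamma α * cos (π * α / 2)

lemma gConst_pos {α : ℝ} (hα : 0 < α) (hα1 : α < 1) : 0 < gConst α := by
  unfold gConst
  apply mul_pos (Real.Gamma_pos_of_pos hα)
  apply cos_pos_of_mem_Ioo
  constructor <;> nlinarith [pi_pos]

lemma gConst_eq {α : ℝ} (hα : 0 < α) (hα1 : α < 1) :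
    π / (2 * cos (π * (1 - α) / 2)) / Real.Gamma (1 - α) = gConst α := by
  unfold gConst
  have h := Real.Gamma_mul_Gamma_one_sub α
  have hg : 0 < Real.Gamma (1 - α) := Real.Gamma_pos_of_pos (by linarith)
  have hs : 0 < sin (π * α / 2) := sin_pos_of_pos_of_lt_pi (by positivity) (by nlinarith [pi_pos])
  have hc : 0 < cos (π * α / 2) := cos_pos_of_mem_Ioo ⟨by nlinarith [pi_pos], by nlinarith [pi_pos]⟩
  have e1 : cos (π * (1 - α) / 2) = sin (π * α / 2) := by
    rw [show π * (1 - α) / 2 = π / 2 - π * α / 2 by ring, cos_pi_div_two_sub]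
  have e2 : sin (π * α) = 2 * sin (π * α / 2) * cos (π * α / 2) := by
    rw [← sin_two_mul]; ring_nf
  rw [e1]
  rw [e2] at h
  have h2 : Real.Gamma α = π / (2 * sin (π * α / 2) * cos (π * α / 2)) / Real.Gamma (1 - α) := by
    rw [← h]; field_simp
  rw [h2]
  field_simp

lemma scaled_integral {α ω : ℝ} (hα : 0 < α) (hα1 : α < 1) (hω : 0 < ω) :
    ∫ l in Ioi (0 : ℝ), l ^ (1 - α) / (l ^ 2 + ω ^ 2) =
      ω ^ (-α) * (π / (2 * cos (π * (1 - α) / 2))) := by
  have h := integral_comp_mul_left_Ioi (fun l : ℝ => l ^ (1 - α) / (l ^ 2 + ω ^ 2)) 0 hω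
  rw [mul_zero, smul_eq_mul] at h
  have e : ∀ u ∈ Ioi (0 : ℝ), (fun x => (ω * x) ^ (1 - α) / ((ω * x) ^ 2 + ω ^ 2)) u =
      (fun u => ω ^ (-α) * ω⁻¹ * (u ^ (1 - α) / (1 + u ^ 2))) u := by
    intro u hu
    have hu' : 0 < u := hu
    simp only
    rw [mul_rpow hω.le hu'.le]
    have : ω ^ (1 - α) = ω ^ (-α) * ω := by
      rw [show 1 - α = -α + 1 by ring, rpow_add hω, rpow_one]
    rw [this]
    field_simp
    ring
  have h2 := setIntegral_congr_fun (μ := volume) measurableSet_Ioi e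
  rw [h2, integral_const_mul, mellin_one_add_sq (by linarith) (by linarith)] at h
  have : ∫ l in Ioi (0 : ℝ), l ^ (1 - α) / (l ^ 2 + ω ^ 2) =
      ω * (ω⁻¹ * ∫ l in Ioi (0 : ℝ), l ^ (1 - α) / (l ^ 2 + ω ^ 2)) := by
    field_simp
  rw [this, ← h]
  field_simp

lemma integrable_A {α ω : ℝ} (hα : 0 < α) (hα1 : α < 1) (hω : 0 < ω) :
    IntegrableOn (fun l : ℝ => l ^ (1 - α) / (l ^ 2 + ω ^ 2)) (Ioi 0) := by
  by_contra hcon
  have h := scaled_integral hα hα1 hω
  rw [integral_undef hcon] at h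
  have hc : 0 < cos (π * (1 - α) / 2) :=
    cos_pos_of_mem_Ioo ⟨by nlinarith [pi_pos], by nlinarith [pi_pos]⟩
  have : 0 < ω ^ (-α) * (π / (2 * cos (π * (1 - α) / 2))) := by positivity
  linarith

lemma integrable_gam (p : ℝ) (hp : -1 < p) :
    IntegrableOn (fun l : ℝ => l ^ p * exp (-l)) (Ioi 0) := by
  have := Real.GammaIntegral_convergent (s := p + 1) (by linarith)
  refine IntegrableOn.congr_fun this ?_ measurableSet_Ioi
  intro l _
  simp only [add_sub_cancel_right]; ring

lemma integral_gam (p : ℝ) (hp : -1 < p) :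
    ∫ l in Ioi (0 : ℝ), l ^ p * exp (-l) = Real.Gamma (p + 1) := by
  rw [Real.Gamma_eq_integral (by linarith)]
  apply setIntegral_congr_fun measurableSet_Ioi
  intro l _
  simp only [add_sub_cancel_right]; ring

lemma integrable_B {α ω : ℝ} (hα1 : α < 1) (hω : 0 < ω) :
    IntegrableOn (fun l : ℝ => l ^ (-α) * exp (-l) / (l ^ 2 + ω ^ 2)) (Ioi 0) := by
  have h1 := (integrable_gam (-α) (by linarith)).div_const (ω ^ 2)
  refine Integrable.mono h1 ?_ ?_
  · apply Measurable.aestronglyMeasurable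
    fun_prop
  · filter_upwards [ae_restrict_mem measurableSet_Ioi] with l hl
    have hl' : 0 < l := hl
    rw [Real.norm_eq_abs, Real.norm_eq_abs, abs_of_nonneg (by positivity),
      abs_of_nonneg (by positivity)]
    apply div_le_div_of_nonneg_left (by positivity) (by positivity)
    nlinarith [sq_nonneg l]

theorem gcos_key {α ω : ℝ} (hα : 0 < α) (hα1 : α < 1) (hω : 0 < ω) (hcos : cos ω = 0) :
    ∃ b : ℝ, gcos α ω = α / ω * (sin ω * gConst α * ω ^ (-α) + b) ∧
      1 / ω * (1 - (1 - α) * (2 - α) / ω ^ 2) ≤ b ∧ b ≤ 1 / ω := by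
  have hG : 0 < Real.Gamma (1 - α) := Real.Gamma_pos_of_pos (by linarith)
  set Bi : ℝ := ∫ l in Ioi (0 : ℝ), l ^ (-α) * exp (-l) / (l ^ 2 + ω ^ 2) with hBi
  refine ⟨ω * Bi / Real.Gamma (1 - α), ?_, ?_, ?_⟩
  · rw [gcos_parts hα hω hcos]
    have h1 := laplace_main hα hα1 hω hcos
    have h2 : ∫ l in Ioi (0 : ℝ), l ^ (-α) * ((l + ω * sin ω * exp (-l)) / (l ^ 2 + ω ^ 2)) =
        ω ^ (-α) * (π / (2 * cos (π * (1 - α) / 2))) + ω * sin ω * Bi := by
      rw [← scaled_integral hα hα1 hω, hBi, ← integral_const_mul,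
        ← integral_add (integrable_A hα hα1 hω) ((integrable_B hα1 hω).const_mul _)]
      apply setIntegral_congr_fun measurableSet_Ioi
      intro l hl
      have hl' : 0 < l := hl
      simp only
      have : l ^ (1 - α) = l ^ (-α) * l := by
        rw [show 1 - α = -α + 1 by ring, rpow_add hl', rpow_one]
      rw [this]
      ring
    rw [h2] at h1
    have h3 : ∫ s in (0 : ℝ)..1, s ^ (α - 1) * cos (ω * s) =
        (ω ^ (-α) * (π / (2 * cos (π * (1 - α) / 2))) + ω * sin ω * Bi) / Real.Gamma (1 - α) := by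
      rw [← h1]; field_simp
    rw [h3, ← gConst_eq hα hα1]
    have hs : sin ω ^ 2 = 1 := by
      have := sin_sq_add_cos_sq ω
      rw [hcos] at this; linarith
    linear_combination (α / ω * (ω * Bi / Real.Gamma (1 - α))) * hs
  · -- lower bound
    have h1 : ∫ l in Ioi (0 : ℝ), (1 / ω ^ 2 * (l ^ (-α) * exp (-l)) -
        1 / ω ^ 4 * (l ^ (2 - α) * exp (-l))) ≤ Bi := by
      apply setIntegral_mono_on
        (((integrable_gam (-α) (by linarith)).const_mul _).sub
          ((integrable_gam (2 - α) (by linarith)).const_mul _))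
        (integrable_B hα1 hω) measurableSet_Ioi
      intro l hl
      have hl' : 0 < l := hl
      have e : l ^ (2 - α) = l ^ (-α) * l ^ 2 := by
        rw [show 2 - α = -α + 2 by ring, rpow_add hl']; norm_num
      simp only [Pi.sub_apply]
      rw [e]
      have e2 : 1 / ω ^ 2 * (l ^ (-α) * exp (-l)) - 1 / ω ^ 4 * (l ^ (-α) * l ^ 2 * exp (-l)) =
          l ^ (-α) * exp (-l) * (1 / ω ^ 2 - l ^ 2 / ω ^ 4) := by ring
      rw [e2, div_eq_mul_one_div (l ^ (-α) * exp (-l))]
      apply mul_le_mul_of_nonneg_left _ (by positivity)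
      rw [div_sub_div _ _ (by positivity) (by positivity), div_le_div_iff₀ (by positivity)
        (by positivity)]
      have : 0 ≤ l ^ 4 * ω ^ 2 := by positivity
      nlinarith
    rw [integral_sub (((integrable_gam (-α) (by linarith)).const_mul _))
          (((integrable_gam (2 - α) (by linarith)).const_mul _)),
      integral_const_mul, integral_const_mul, integral_gam _ (by linarith),
      integral_gam _ (by linarith)] at h1
    have e3 : Real.Gamma (2 - α + 1) = (2 - α) * ((1 - α) * Real.Gamma (1 - α)) := by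
      rw [Real.Gamma_add_one (by linarith), show 2 - α = (1 - α) + 1 by ring,
        Real.Gamma_add_one (by linarith)]
    have e4 : Real.Gamma (-α + 1) = Real.Gamma (1 - α) := by ring_nf
    rw [e3, e4] at h1
    rw [le_div_iff₀ hG]
    calc 1 / ω * (1 - (1 - α) * (2 - α) / ω ^ 2) * Real.Gamma (1 - α)
        = ω * (1 / ω ^ 2 * Real.Gamma (1 - α) - 1 / ω ^ 4 * ((2 - α) * ((1 - α) * Real.Gamma (1 - α)))) := by
          field_simp
      _ ≤ ω * Bi := mul_le_mul_of_nonneg_left h1 hω.le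
  · have h1 : Bi ≤ ∫ l in Ioi (0 : ℝ), 1 / ω ^ 2 * (l ^ (-α) * exp (-l)) := by
      apply setIntegral_mono_on (integrable_B hα1 hω)
        ((integrable_gam (-α) (by linarith)).const_mul _) measurableSet_Ioi
      intro l hl
      have hl' : 0 < l := hl
      rw [div_eq_mul_one_div, mul_comm (1 / ω ^ 2)]
      apply mul_le_mul_of_nonneg_left _ (by positivity)
      apply one_div_le_one_div_of_le (by positivity)
      nlinarith [sq_nonneg l]
    rw [integral_const_mul, integral_gam _ (by linarith)] at h1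
    have e4 : Real.Gamma (-α + 1) = Real.Gamma (1 - α) := by ring_nf
    rw [e4] at h1
    rw [div_le_iff₀ hG]
    calc ω * Bi ≤ ω * (1 / ω ^ 2 * Real.Gamma (1 - α)) := mul_le_mul_of_nonneg_left h1 hω.le
      _ = 1 / ω * Real.Gamma (1 - α) := by field_simp

end Pool.Agent.Helper78.Bern
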