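import Mathlib

/-!
# A finite multiplicative configuration almost attaining Hilbert's inequality
-/

namespace Pool.Agent.Helper78.Bern

open Finset Real

lemma abel_sum (E v : ℕ → ℝ) (N : ℕ) :
    ∑ j ∈ range (N + 1), (E (j + 1) - E j) * v j =
      E (N + 1) * v N - E 0 * v 0 - ∑ j ∈ range N, E (j + 1) * (v (j + 1) - v j) := by
  induction N with
  | zero => simp; ring
  | succ N ih => rw [sum_range_succ, ih, sum_range_succ _ N]; ring

lemma abel_sum' (E v : ℕ → ℝ) (N : ℕ) (h0 : E 0 = 0) (hN : E (N + 1) = 0) :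
    ∑ j ∈ range (N + 1), (E (j + 1) - E j) * v j =
      - ∑ j ∈ range N, E (j + 1) * (v (j + 1) - v j) := by
  rw [abel_sum, h0, hN]; ring

lemma abel_quad (E : ℕ → ℝ) (K : ℕ → ℕ → ℝ) (N : ℕ) (h0 : E 0 = 0) (hN : E (N + 1) = 0) :
    ∑ i ∈ range (N + 1), ∑ j ∈ range (N + 1), (E (i + 1) - E i) * (E (j + 1) - E j) * K i j =
      ∑ i ∈ range N, ∑ j ∈ range N, E (i + 1) * E (j + 1) *
        (K (i + 1) (j + 1) - K i (j + 1) - K (i + 1) j + K i j) := by
  have h1 : ∀ i, ∑ j ∈ range (N + 1), (E (i + 1) - E i) * (E (j + 1) - E j) * K i j =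
      (E (i + 1) - E i) * (- ∑ j ∈ range N, E (j + 1) * (K i (j + 1) - K i j)) := by
    intro i
    rw [← abel_sum' E (K i) N h0 hN, mul_sum]
    apply sum_congr rfl; intro j _; ring
  simp_rw [h1]
  rw [abel_sum' E (fun i => - ∑ j ∈ range N, E (j + 1) * (K i (j + 1) - K i j)) N h0 hN,
    ← sum_neg_distrib]
  apply sum_congr rfl
  intro i _
  rw [← sum_neg_distrib, ← sum_neg_distrib, ← sum_sub_distrib, mul_sum, ← sum_neg_distrib]
  apply sum_congr rfl
  intro j _
  ring

/-- second difference of `(x+y) log (x+y)` -/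
lemma second_diff_log {x0 x1 y0 y1 : ℝ} (hx0 : 0 < x0) (hx : x0 ≤ x1) (hy0 : 0 < y0)
    (hy : y0 ≤ y1) :
    (x1 - x0) * (y1 - y0) / (x1 + y1) ≤
      (x1 + y1) * log (x1 + y1) - (x0 + y1) * log (x0 + y1) - (x1 + y0) * log (x1 + y0)
        + (x0 + y0) * log (x0 + y0) := by
  set ψ : ℝ → ℝ := fun x => (x + y1) * log (x + y1) - (x + y0) * log (x + y0) with hψ
  have hder : ∀ x ∈ Set.Icc x0 x1, HasDerivAt ψ (log (x + y1) - log (x + y0)) x := by
    intro x hx'
    have p1 : x + y1 ≠ 0 := by linarith [hx'.1]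
    have p2 : x + y0 ≠ 0 := by linarith [hx'.1]
    have d1 : HasDerivAt (fun x : ℝ => x + y1) 1 x := (hasDerivAt_id x).add_const y1
    have d2 : HasDerivAt (fun x : ℝ => x + y0) 1 x := (hasDerivAt_id x).add_const y0
    have e1 := d1.mul (d1.log p1)
    have e2 := d2.mul (d2.log p2)
    have e3 := e1.sub e2
    refine e3.congr_deriv ?_
    field_simp
    ring
  have hmain : (y1 - y0) / (x1 + y1) * (x1 - x0) ≤ ψ x1 - ψ x0 := by
    refine (convex_Icc x0 x1).mul_sub_le_image_sub_of_le_deriv
      (fun x hx' => (hder x hx').continuousAt.continuousWithinAt)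
      (fun x hx' => (hder x (interior_subset hx')).differentiableAt.differentiableWithinAt)
      ?_ x0 ⟨le_refl _, hx⟩ x1 ⟨hx, le_refl _⟩ hx
    intro x hx'
    have hx'' := interior_subset hx'
    rw [(hder x hx'').deriv]
    have p1 : 0 < x + y1 := by linarith [hx''.1]
    have p2 : 0 < x + y0 := by linarith [hx''.1]
    have h1 : log ((x + y0) / (x + y1)) ≤ (x + y0) / (x + y1) - 1 :=
      log_le_sub_one_of_pos (by positivity)
    rw [log_div p2.ne' p1.ne'] at h1
    have h2 : (y1 - y0) / (x1 + y1) ≤ (y1 - y0) / (x + y1) := by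
      apply div_le_div_of_nonneg_left (by linarith) p1
      linarith [hx''.2]
    have h3 : (y1 - y0) / (x + y1) = 1 - (x + y0) / (x + y1) := by
      field_simp; ring
    linarith
  have : (x1 - x0) * (y1 - y0) / (x1 + y1) = (y1 - y0) / (x1 + y1) * (x1 - x0) := by ring
  rw [this]
  refine hmain.trans (le_of_eq ?_)
  simp only [hψ]; ring

/-- Gudermannian step -/
lemma gd_step {h x : ℝ} (hh : 0 ≤ h) (hx : 0 ≤ x) :
    2 * arctan (exp (x + h)) - 2 * arctan (exp x) ≤ h / cosh x := by
  have hder : ∀ y : ℝ, HasDerivAt (fun y => 2 * arctan (exp y)) (1 / cosh y) y := by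
    intro y
    have h1 := ((Real.hasDerivAt_exp y).arctan).const_mul 2
    refine h1.congr_deriv ?_
    rw [cosh_eq]
    have e1 : exp (-y) = 1 / exp y := by rw [exp_neg, one_div]
    rw [e1]
    have := exp_pos y
    field_simp
    ring
  have key := (convex_Icc x (x + h)).image_sub_le_mul_sub_of_deriv_le (C := 1 / cosh x)
      (f := fun y => 2 * arctan (exp y))
      (fun y _ => (hder y).continuousAt.continuousWithinAt)
      (fun y _ => (hder y).differentiableAt.differentiableWithinAt)
      (by
        intro y hy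
        have hy' := interior_subset hy
        rw [(hder y).deriv]
        apply one_div_le_one_div_of_le (cosh_pos x)
        apply cosh_le_cosh.2
        rw [abs_of_nonneg hx, abs_of_nonneg (by linarith [hy'.1])]
        exact hy'.1)
      x ⟨le_refl _, by linarith⟩ (x + h) ⟨by linarith, le_refl _⟩ (by linarith)
  calc 2 * arctan (exp (x + h)) - 2 * arctan (exp x) ≤ 1 / cosh x * (x + h - x) := key
    _ = h / cosh x := by ring

lemma sum_sech_ge {h : ℝ} (hh : 0 < h) (n : ℕ) :
    π / 2 - 2 * exp (-(h * (n + 1))) ≤ ∑ m ∈ range (n + 1), h / cosh (h * m) := by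
  have h1 : ∀ n : ℕ, 2 * arctan (exp (h * n)) - π / 2 ≤ ∑ m ∈ range n, h / cosh (h * m) := by
    intro n
    induction n with
    | zero => simp [arctan_one]; linarith [pi_pos]
    | succ n ih =>
      rw [sum_range_succ]
      have := gd_step hh.le (show 0 ≤ h * n by positivity)
      have e : h * ((n : ℕ) + 1 : ℕ) = h * n + h := by push_cast; ring
      rw [e]
      linarith
  have h2 := h1 (n + 1)
  have h3 : arctan (exp (h * ((n + 1 : ℕ) : ℝ))) = π / 2 - arctan (exp (-(h * (n + 1)))) := by
    have : exp (-(h * (n + 1))) = (exp (h * ((n + 1 : ℕ) : ℝ)))⁻¹ := by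
      rw [← exp_neg]; push_cast; ring_nf
    rw [this, arctan_inv_of_pos (exp_pos _)]
    ring
  have h4 : arctan (exp (-(h * (n + 1)))) ≤ exp (-(h * (n + 1))) := by
    have h5 := Real.le_tan (arctan_nonneg.2 (exp_pos (-(h * (n + 1)))).le) (arctan_lt_pi_div_two _)
    rwa [tan_arctan] at h5
  rw [h3] at h2
  linarith

/-- The double sum. -/
lemma double_sum_ge {h : ℝ} (hh : 0 < h) (N : ℕ) :
    N * (π - h) - 4 / h * (1 - exp (-(h * N))) ≤
      h * ∑ i ∈ range N, ∑ j ∈ range N, 1 / cosh (h * ((i : ℝ) - j)) := by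
  induction N with
  | zero => simp
  | succ N ih =>
    have e1 : ∑ i ∈ range (N + 1), ∑ j ∈ range (N + 1), 1 / cosh (h * ((i : ℝ) - j)) =
        (∑ i ∈ range N, ∑ j ∈ range N, 1 / cosh (h * ((i : ℝ) - j))) +
        2 * (∑ m ∈ range (N + 1), 1 / cosh (h * m)) - 1 := by
      have a1 : ∀ i : ℕ, ∑ j ∈ range (N + 1), 1 / cosh (h * ((i : ℝ) - j)) =
          (∑ j ∈ range N, 1 / cosh (h * ((i : ℝ) - j))) + 1 / cosh (h * ((i : ℝ) - N)) := by
        intro i; rw [sum_range_succ]
      simp_rw [a1]
      rw [sum_add_distrib, sum_range_succ (fun i : ℕ => ∑ j ∈ range N, 1 / cosh (h * ((i : ℝ) - j)))]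
      have a2 : ∑ i ∈ range (N + 1), 1 / cosh (h * ((i : ℝ) - N)) =
          ∑ m ∈ range (N + 1), 1 / cosh (h * m) := by
        rw [← sum_range_reflect (fun m : ℕ => 1 / cosh (h * (m : ℝ)))]
        apply sum_congr rfl
        intro i hi
        have hi' : i ≤ N := by simpa [Nat.lt_succ_iff] using hi
        rw [show N + 1 - 1 - i = N - i by omega, Nat.cast_sub hi',
          ← cosh_neg (h * ((i : ℝ) - N))]
        congr 2; ring
      have a3 : ∑ j ∈ range N, 1 / cosh (h * ((N : ℝ) - j)) =
          (∑ m ∈ range (N + 1), 1 / cosh (h * m)) - 1 := by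
        rw [← a2, sum_range_succ]
        simp only [sub_self, mul_zero, cosh_zero, ne_eq, one_ne_zero, not_false_eq_true, div_self,
          add_sub_cancel_right]
        apply sum_congr rfl
        intro j _
        rw [← cosh_neg]
        congr 2; ring
      rw [a2, a3]; ring
    rw [e1]
    have h1 := sum_sech_ge hh N
    have h2 : ∑ m ∈ range (N + 1), h / cosh (h * m) = h * ∑ m ∈ range (N + 1), 1 / cosh (h * m) := by
      rw [mul_sum]; apply sum_congr rfl; intro m _; ring
    rw [h2] at h1
    have h3 : exp (-(h * (N + 1 : ℕ))) * (1 + h) ≤ exp (-(h * N)) := by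
      have : exp (-(h * N)) = exp (-(h * (N + 1 : ℕ))) * exp h := by
        rw [← exp_add]; push_cast; ring_nf
      rw [this]
      have := add_one_le_exp h
      gcongr
      linarith
    have h4 : exp (-(h * ((N : ℝ) + 1))) = exp (-(h * (N + 1 : ℕ))) := by push_cast; rfl
    rw [h4] at h1
    have h5 : 4 / h * (exp (-(h * N)) - exp (-(h * (N + 1 : ℕ)))) ≥ 4 * exp (-(h * (N + 1 : ℕ))) := by
      have : exp (-(h * N)) - exp (-(h * (N + 1 : ℕ))) ≥ h * exp (-(h * (N + 1 : ℕ))) := by linarith
      calc 4 / h * (exp (-(h * N)) - exp (-(h * (N + 1 : ℕ)))) ≥ 4 / h * (h * exp (-(h * (N + 1 : ℕ)))) := by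
            gcongr
        _ = 4 * exp (-(h * (N + 1 : ℕ))) := by field_simp
    have e2 : h * ((∑ i ∈ range N, ∑ j ∈ range N, 1 / cosh (h * ((i : ℝ) - j))) +
        2 * (∑ m ∈ range (N + 1), 1 / cosh (h * m)) - 1) =
        h * (∑ i ∈ range N, ∑ j ∈ range N, 1 / cosh (h * ((i : ℝ) - j))) +
        2 * (h * ∑ m ∈ range (N + 1), 1 / cosh (h * m)) - h := by ring
    rw [e2]
    push_cast at *
    nlinarith [h1, h5, ih]

/-- For every `r < π/2` there is a finite configuration of positive points and weights of total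
mass zero with `∑∑ c_i c_j (s_i+s_j) log (s_i+s_j) > - r ∑∑ c_i c_j |s_i - s_j|`. -/
theorem config_exists {r : ℝ} (hr : r < π / 2) :
    ∃ (N : ℕ) (s c : ℕ → ℝ), (∀ i, 0 < s i) ∧ (∑ i ∈ range (N + 1), c i = 0) ∧
      r * (- ∑ i ∈ range (N + 1), ∑ j ∈ range (N + 1), c i * c j * |s i - s j|) <
        ∑ i ∈ range (N + 1), ∑ j ∈ range (N + 1), c i * c j * ((s i + s j) * log (s i + s j)) := by
  -- choose h
  set d : ℝ := π / 2 - r with hd
  have hdpos : 0 < d := by simp only [hd]; linarith
  set h : ℝ := min (1 / 2) (d / 4) with hh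
  have hpos : 0 < h := lt_min (by norm_num) (by positivity)
  have hle : h ≤ 1 / 2 := min_le_left _ _
  have hle2 : h ≤ d / 4 := min_le_right _ _
  obtain ⟨N, hN⟩ := exists_nat_ge (4 / h ^ 2)
  have hNpos : (0 : ℝ) < N := lt_of_lt_of_le (by positivity) hN
  have hN1 : 1 ≤ N := by
    have : 0 < N := by exact_mod_cast hNpos
    omega
  set E : ℕ → ℝ := fun j => if 1 ≤ j ∧ j ≤ N then exp (-(h * ((j : ℝ) - 1))) else 0 with hE
  set s : ℕ → ℝ := fun j => exp (2 * h * j) with hs
  have E0 : E 0 = 0 := by simp [hE]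
  have EN : E (N + 1) = 0 := by simp [hE]
  have Ei : ∀ i ∈ range N, E (i + 1) = exp (-(h * i)) := by
    intro i hi
    have : i < N := by simpa using hi
    simp only [hE]
    rw [if_pos ⟨by omega, by omega⟩]
    push_cast; ring_nf
  have sm : StrictMono s := by
    intro i j hij
    simp only [hs]
    apply exp_lt_exp.2
    have : (i : ℝ) < j := by exact_mod_cast hij
    nlinarith
  set q : ℝ := exp (2 * h) with hq
  have hq1 : 1 + 2 * h ≤ q := by
    have := add_one_le_exp (2 * h); simp only [hq]; linarith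
  have sdiff : ∀ i : ℕ, s (i + 1) - s i = s i * (q - 1) := by
    intro i; simp only [hs, hq]; rw [mul_sub, ← exp_add, mul_one]; congr 2; push_cast; ring
  have ssucc : ∀ i : ℕ, s (i + 1) = s i * q := by
    intro i; linarith [sdiff i]
  refine ⟨N, s, fun i => E (i + 1) - E i, fun i => exp_pos _, ?_, ?_⟩
  · rw [Finset.sum_range_sub, E0, EN]; simp
  · -- P
    have hP : - ∑ i ∈ range (N + 1), ∑ j ∈ range (N + 1),
        (E (i + 1) - E i) * (E (j + 1) - E j) * |s i - s j| = 2 * N * (q - 1) := by
      rw [abel_quad E (fun i j => |s i - s j|) N E0 EN]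
      have : ∀ i ∈ range N, ∑ j ∈ range N, E (i + 1) * E (j + 1) *
          (|s (i + 1) - s (j + 1)| - |s i - s (j + 1)| - |s (i + 1) - s j| + |s i - s j|) =
          - (2 * (q - 1)) := by
        intro i hi
        rw [Finset.sum_eq_single_of_mem i hi]
        · rw [Ei i hi]
          have h1 : s i < s (i + 1) := sm (by omega)
          rw [sub_self, sub_self, abs_zero, abs_of_neg (by linarith : s i - s (i + 1) < 0),
            abs_of_pos (by linarith : 0 < s (i + 1) - s i)]
          have h2 : exp (-(h * i)) * exp (-(h * i)) * s i = 1 := by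
            simp only [hs]; rw [← exp_add, ← exp_add]; ring_nf; exact exp_zero
          have h3 := sdiff i
          calc exp (-(h * i)) * exp (-(h * i)) * (0 - -(s i - s (i + 1)) - (s (i + 1) - s i) + 0)
              = exp (-(h * i)) * exp (-(h * i)) * (-2 * (s (i + 1) - s i)) := by ring
            _ = -2 * (exp (-(h * i)) * exp (-(h * i)) * s i) * (q - 1) := by rw [h3]; ring
            _ = -(2 * (q - 1)) := by rw [h2]; ring
        · intro j _ hji
          rcases lt_or_gt_of_ne hji with hlt | hgt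
          · have a1 : s (j + 1) ≤ s i := sm.monotone (by omega)
            have a2 : s j < s (j + 1) := sm (by omega)
            have a3 : s i < s (i + 1) := sm (by omega)
            rw [abs_of_nonneg (by linarith : 0 ≤ s (i + 1) - s (j + 1)),
              abs_of_nonneg (by linarith : 0 ≤ s i - s (j + 1)),
              abs_of_nonneg (by linarith : 0 ≤ s (i + 1) - s j),
              abs_of_nonneg (by linarith : 0 ≤ s i - s j)]
            ring
          · have a1 : s (i + 1) ≤ s j := sm.monotone (by omega)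
            have a2 : s j < s (j + 1) := sm (by omega)
            have a3 : s i < s (i + 1) := sm (by omega)
            rw [abs_of_nonpos (by linarith : s (i + 1) - s (j + 1) ≤ 0),
              abs_of_nonpos (by linarith : s i - s (j + 1) ≤ 0),
              abs_of_nonpos (by linarith : s (i + 1) - s j ≤ 0),
              abs_of_nonpos (by linarith : s i - s j ≤ 0)]
            ring
      rw [sum_congr rfl this, sum_const, card_range, nsmul_eq_mul]
      ring
    rw [hP]
    -- L
    have hL : (q - 1) ^ 2 / q / 2 * ∑ i ∈ range N, ∑ j ∈ range N, 1 / cosh (h * ((i : ℝ) - j)) ≤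
        ∑ i ∈ range (N + 1), ∑ j ∈ range (N + 1),
        (E (i + 1) - E i) * (E (j + 1) - E j) * ((s i + s j) * log (s i + s j)) := by
      rw [abel_quad E (fun i j => (s i + s j) * log (s i + s j)) N E0 EN, mul_sum]
      apply sum_le_sum
      intro i hi
      rw [mul_sum]
      apply sum_le_sum
      intro j hj
      rw [Ei i hi, Ei j hj]
      have h1 := second_diff_log (exp_pos (2 * h * i)) (sm.monotone (by omega : i ≤ i + 1))
        (exp_pos (2 * h * j)) (sm.monotone (by omega : j ≤ j + 1))
      have h2 : (q - 1) ^ 2 / q / 2 * (1 / cosh (h * ((i : ℝ) - j))) =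
          exp (-(h * i)) * exp (-(h * j)) * ((s (i + 1) - s i) * (s (j + 1) - s j) /
            (s (i + 1) + s (j + 1))) := by
        rw [sdiff, sdiff, ssucc, ssucc, cosh_eq]
        simp only [hs]
        have qpos : 0 < q := exp_pos _
        have e1 : exp (h * ((i : ℝ) - j)) = exp (h * i) / exp (h * j) := by
          rw [← exp_sub]; ring_nf
        have e2 : exp (-(h * ((i : ℝ) - j))) = exp (h * j) / exp (h * i) := by
          rw [← exp_sub]; ring_nf
        have e3 : exp (2 * h * i) = exp (h * i) ^ 2 := by rw [← exp_nat_mul]; ring_nf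
        have e4 : exp (2 * h * j) = exp (h * j) ^ 2 := by rw [← exp_nat_mul]; ring_nf
        rw [e1, e2, e3, e4, exp_neg, exp_neg]
        have p1 := exp_pos (h * i)
        have p2 := exp_pos (h * j)
        field_simp
      rw [h2]
      exact mul_le_mul_of_nonneg_left h1 (by positivity)
    refine lt_of_lt_of_le ?_ hL
    have hS := double_sum_ge hpos N
    set S := ∑ i ∈ range N, ∑ j ∈ range N, 1 / cosh (h * ((i : ℝ) - j)) with hSdef
    have hS2 : N * (π - 2 * h) ≤ h * S := by
      have h1 : 4 / h * (1 - exp (-(h * N))) ≤ 4 / h := by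
        have : 0 ≤ exp (-(h * N)) := (exp_pos _).le
        have h4 : 0 ≤ 4 / h := by positivity
        nlinarith
      have h2 : 4 / h ≤ N * h := by
        have := mul_le_mul_of_nonneg_right hN hpos.le
        calc 4 / h = 4 / h ^ 2 * h := by field_simp
          _ ≤ _ := this
      linarith
    have hqpos : 0 < q := exp_pos _
    have hq2 : 1 - 1 / q ≥ 2 * h * (1 - h) := by
      have h1 : 1 + 2 * h + (2 * h) ^ 2 / 2 ≤ q := quadratic_le_exp_of_nonneg (by positivity)
      have h2 : 1 / q ≤ 1 / (1 + 2 * h + (2 * h) ^ 2 / 2) :=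
        one_div_le_one_div_of_le (by positivity) h1
      have h3 : 1 / (1 + 2 * h + (2 * h) ^ 2 / 2) ≤ 1 - 2 * h + 2 * h ^ 2 := by
        rw [div_le_iff₀ (by positivity)]
        nlinarith [sq_nonneg (h ^ 2)]
      nlinarith
    have hSpos : 0 < S := by
      have : 0 < N * (π - 2 * h) := by
        apply mul_pos hNpos
        linarith [pi_gt_three]
      nlinarith
    -- final comparison
    have hfin : r * (2 * N * (q - 1)) < (q - 1) ^ 2 / q / 2 * S := by
      have h1 : (q - 1) ^ 2 / q / 2 * S = (q - 1) * ((1 - 1 / q) / 2 * S) := by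
        field_simp
      rw [h1]
      have h2 : r * (2 * N * (q - 1)) = (q - 1) * (2 * N * r) := by ring
      rw [h2]
      apply mul_lt_mul_of_pos_left _ (by linarith)
      have h3 : (1 - h) * (h * S) ≤ (1 - 1 / q) / 2 * S := by
        have : (1 - h) * h ≤ (1 - 1 / q) / 2 := by linarith
        calc (1 - h) * (h * S) = (1 - h) * h * S := by ring
          _ ≤ _ := mul_le_mul_of_nonneg_right this hSpos.le
      have h4 : (1 - h) * (N * (π - 2 * h)) ≤ (1 - h) * (h * S) :=
        mul_le_mul_of_nonneg_left hS2 (by linarith)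
      refine lt_of_lt_of_le ?_ (h4.trans h3)
      have h5 : 2 * r < (1 - h) * (π - 2 * h) := by
        have : r = π / 2 - d := by simp only [hd]; ring
        rw [this]
        nlinarith [pi_lt_four, pi_gt_three, hpos, hle2]
      calc 2 * N * r = N * (2 * r) := by ring
        _ < N * ((1 - h) * (π - 2 * h)) := mul_lt_mul_of_pos_left h5 hNpos
        _ = (1 - h) * (N * (π - 2 * h)) := by ring
    exact hfin

end Pool.Agent.Helper78.Bern
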