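import Pool.Agent.Helper78.BernMellin

/-!
# Cosine coefficients of `(1-x)^α` at the frequencies `(k+1/2)π`
-/

namespace Pool.Agent.Helper78.Bern

open Real MeasureTheory Set Filter Topology

/-- cosine transform of `(1-x)^α` on `[0,1]` -/
noncomputable def gcos (α ω : ℝ) : ℝ := ∫ x in (0 : ℝ)..1, (1 - x) ^ α * cos (ω * x)

lemma intervalIntegrable_rpow_sub {α : ℝ} (hα : 0 < α) :
    IntervalIntegrable (fun s : ℝ => s ^ (α - 1)) volume 0 1 :=
  intervalIntegral.intervalIntegrable_rpow' (by linarith)

lemma gcos_parts {α ω : ℝ} (hα : 0 < α) (hω : 0 < ω) (hcos : cos ω = 0) :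
    gcos α ω = sin ω * (α / ω) * ∫ s in (0 : ℝ)..1, s ^ (α - 1) * cos (ω * s) := by
  -- substitution
  have h1 : gcos α ω = ∫ s in (0 : ℝ)..1, s ^ α * (sin ω * sin (ω * s)) := by
    unfold gcos
    have := intervalIntegral.integral_comp_sub_left (fun s => s ^ α * cos (ω * (1 - s))) (1 : ℝ)
      (a := 0) (b := 1)
    simp only [sub_self, sub_zero, sub_sub_cancel] at this
    rw [this]
    apply intervalIntegral.integral_congr
    intro s _
    simp only
    rw [mul_sub, mul_one, cos_sub, hcos]; ring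
  have hi0 : IntervalIntegrable (fun s : ℝ => s ^ (α - 1) * cos (ω * s)) volume 0 1 :=
    (intervalIntegrable_rpow_sub hα).mul_continuousOn (by fun_prop)
  have hi1 : IntervalIntegrable (fun s : ℝ => s ^ α * sin (ω * s)) volume 0 1 := by
    apply ContinuousOn.intervalIntegrable
    apply ContinuousOn.mul _ (by fun_prop)
    exact (continuous_rpow_const hα.le).continuousOn
  -- FTC
  have hftc : ∫ s in (0 : ℝ)..1, (s ^ α * sin (ω * s) - (α / ω) * (s ^ (α - 1) * cos (ω * s))) = 0 := by
    have := intervalIntegral.integral_eq_sub_of_hasDerivAt_of_le (a := (0 : ℝ)) (b := 1)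
      (f := fun s => -(s ^ α * cos (ω * s) / ω))
      (f' := fun s => s ^ α * sin (ω * s) - (α / ω) * (s ^ (α - 1) * cos (ω * s))) zero_le_one
      (by
        apply ContinuousOn.neg
        apply ContinuousOn.div_const
        apply ContinuousOn.mul _ (by fun_prop)
        exact (continuous_rpow_const hα.le).continuousOn)
      (by
        intro s hs
        have h1 : HasDerivAt (fun s : ℝ => s ^ α) (α * s ^ (α - 1)) s :=
          Real.hasDerivAt_rpow_const (Or.inl hs.1.ne')
        have h2 : HasDerivAt (fun s : ℝ => cos (ω * s)) (-sin (ω * s) * ω) s := by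
          have h3 : HasDerivAt (fun s : ℝ => ω * s) ω s := by
            simpa using (hasDerivAt_id s).const_mul ω
          exact h3.cos
        refine ((h1.mul h2).div_const ω).neg.congr_deriv ?_
        field_simp
        ring)
      (hi1.sub (hi0.const_mul _))
    rw [this]
    simp only [mul_one, hcos, mul_zero, cos_zero, zero_rpow hα.ne']
    simp
  rw [intervalIntegral.integral_sub hi1 (hi0.const_mul _), sub_eq_zero] at hftc
  rw [h1]
  have : ∀ s : ℝ, s ^ α * (sin ω * sin (ω * s)) = sin ω * (s ^ α * sin (ω * s)) := by intro s; ring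
  simp_rw [this]
  rw [intervalIntegral.integral_const_mul, hftc, intervalIntegral.integral_const_mul]
  ring

lemma inner_integral {ω l : ℝ} (hω : 0 < ω) (hcos : cos ω = 0) :
    ∫ s in (0 : ℝ)..1, exp (-(l * s)) * cos (ω * s) =
      (l + ω * sin ω * exp (-l)) / (l ^ 2 + ω ^ 2) := by
  have hden : l ^ 2 + ω ^ 2 ≠ 0 := by positivity
  have h := intervalIntegral.integral_eq_sub_of_hasDerivAt (a := (0 : ℝ)) (b := 1)
    (f := fun s => exp (-(l * s)) * (-l * cos (ω * s) + ω * sin (ω * s)) / (l ^ 2 + ω ^ 2))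
    (f' := fun s => exp (-(l * s)) * cos (ω * s))
    (by
      intro s _
      have e1 : HasDerivAt (fun s : ℝ => exp (-(l * s))) (exp (-(l * s)) * (-l)) s := by
        have h0 : HasDerivAt (fun s : ℝ => l * s) l s := by
          simpa using (hasDerivAt_id s).const_mul l
        exact h0.fun_neg.exp
      have e3 : HasDerivAt (fun s : ℝ => ω * s) ω s := by
        simpa using (hasDerivAt_id s).const_mul ω
      have e4 := (e3.cos.const_mul (-l)).fun_add (e3.sin.const_mul ω)
      refine ((e1.mul e4).div_const (l ^ 2 + ω ^ 2)).congr_deriv ?_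
      field_simp
      ring)
    (by
      apply Continuous.intervalIntegrable
      fun_prop)
  rw [h]
  simp only [mul_one, mul_zero, neg_zero, exp_zero, cos_zero, sin_zero, hcos]
  field_simp
  ring

lemma laplace_rpow {α s : ℝ} (hα1 : α < 1) (hs : 0 < s) :
    ∫ l in Ioi (0 : ℝ), l ^ (-α) * exp (-(l * s)) = Real.Gamma (1 - α) * s ^ (α - 1) := by
  have h := Real.integral_rpow_mul_exp_neg_mul_Ioi (a := 1 - α) (r := s) (by linarith) hs
  have e : (fun l : ℝ => l ^ (-α) * exp (-(l * s))) =
      fun l : ℝ => l ^ (1 - α - 1) * exp (-(s * l)) := by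
    funext l; ring_nf
  rw [e, h, one_div, inv_rpow hs.le, ← rpow_neg hs.le]
  ring_nf

lemma laplace_integrable {α s : ℝ} (hα1 : α < 1) (hs : 0 < s) :
    IntegrableOn (fun l : ℝ => l ^ (-α) * exp (-(l * s))) (Ioi 0) := by
  have h := integrableOn_rpow_mul_exp_neg_mul_rpow (p := 1) (s := -α) (b := s) (by linarith)
    (by norm_num) hs
  refine IntegrableOn.congr_fun h ?_ measurableSet_Ioi
  intro l hl
  simp only [rpow_one]
  ring_nf

lemma laplace_prod_integrable {α : ℝ} (hα : 0 < α) (hα1 : α < 1) :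
    Integrable (fun p : ℝ × ℝ => p.2 ^ (-α) * exp (-(p.2 * p.1)))
      ((volume.restrict (Ioc 0 1)).prod (volume.restrict (Ioi 0))) := by
  rw [integrable_prod_iff (by
    apply Measurable.aestronglyMeasurable
    fun_prop)]
  constructor
  · filter_upwards [ae_restrict_mem measurableSet_Ioc] with s hs
    exact laplace_integrable hα1 hs.1
  · have h2 : IntegrableOn (fun s : ℝ => s ^ (α - 1)) (Ioc 0 1) := by
      have := intervalIntegrable_rpow_sub hα
      rwa [intervalIntegrable_iff_integrableOn_Ioc_of_le zero_le_one] at this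
    have h3 := h2.const_mul (Real.Gamma (1 - α))
    refine Integrable.congr h3 ?_
    filter_upwards [ae_restrict_mem measurableSet_Ioc] with s hs
    have : ∫ l in Ioi (0 : ℝ), ‖l ^ (-α) * exp (-(l * s))‖ =
        ∫ l in Ioi (0 : ℝ), l ^ (-α) * exp (-(l * s)) := by
      apply setIntegral_congr_fun measurableSet_Ioi
      intro l hl
      have hl' : 0 < l := hl
      simp only
      rw [Real.norm_eq_abs, abs_of_nonneg (by positivity)]
    rw [this, laplace_rpow hα1 hs.1]

lemma laplace_main {α ω : ℝ} (hα : 0 < α) (hα1 : α < 1) (hω : 0 < ω) (hcos : cos ω = 0) :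
    Real.Gamma (1 - α) * ∫ s in (0 : ℝ)..1, s ^ (α - 1) * cos (ω * s) =
      ∫ l in Ioi (0 : ℝ), l ^ (-α) * ((l + ω * sin ω * exp (-l)) / (l ^ 2 + ω ^ 2)) := by
  have hint : Integrable (fun p : ℝ × ℝ => (p.2 ^ (-α) * exp (-(p.2 * p.1))) * cos (ω * p.1))
      ((volume.restrict (Ioc 0 1)).prod (volume.restrict (Ioi 0))) := by
    refine (laplace_prod_integrable hα hα1).mul_bdd (c := 1) ?_ ?_
    · apply Measurable.aestronglyMeasurable
      fun_prop
    · exact Eventually.of_forall (fun p => by
        rw [Real.norm_eq_abs]; exact abs_cos_le_one _)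
  have hswap := integral_integral_swap
    (f := fun s l : ℝ => (l ^ (-α) * exp (-(l * s))) * cos (ω * s)) hint
  have hL : ∫ s in Ioc (0 : ℝ) 1, ∫ l in Ioi (0 : ℝ), (l ^ (-α) * exp (-(l * s))) * cos (ω * s) =
      Real.Gamma (1 - α) * ∫ s in (0 : ℝ)..1, s ^ (α - 1) * cos (ω * s) := by
    rw [intervalIntegral.integral_of_le zero_le_one, ← integral_const_mul]
    apply setIntegral_congr_fun measurableSet_Ioc
    intro s hs
    simp only
    rw [integral_mul_const, laplace_rpow hα1 hs.1]; ring
  have hR : ∫ l in Ioi (0 : ℝ), ∫ s in Ioc (0 : ℝ) 1, (l ^ (-α) * exp (-(l * s))) * cos (ω * s) =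
      ∫ l in Ioi (0 : ℝ), l ^ (-α) * ((l + ω * sin ω * exp (-l)) / (l ^ 2 + ω ^ 2)) := by
    apply setIntegral_congr_fun measurableSet_Ioi
    intro l hl
    simp only
    rw [← inner_integral hω hcos, intervalIntegral.integral_of_le zero_le_one,
      ← integral_const_mul]
    congr 1
    funext s; ring
  rw [← hL, hswap, hR]

end Pool.Agent.Helper78.Bern
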