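import Pool.Agent.Helper78.BernBasic
import Pool.Agent.Helper78.BernConfig

/-!
# Lower bound for `I(α)` as `α → 1`
-/

namespace Pool.Agent.Helper78.Bern

open Finset Real Filter Topology Pool.Agent.Helper45.Bern

/-- scale `a(ε) = (ε r)^(1/ε)` -/
noncomputable def sc (r ε : ℝ) : ℝ := (ε * r) ^ (1 / ε)

lemma sc_pos {r ε : ℝ} (hr : 0 < r) (hε : 0 < ε) : 0 < sc r ε := by
  unfold sc; positivity

lemma sc_rpow {r ε : ℝ} (hr : 0 < r) (hε : 0 < ε) : sc r ε ^ ε = ε * r := by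
  unfold sc
  rw [← rpow_mul (by positivity), one_div, inv_mul_cancel₀ hε.ne', rpow_one]

lemma sc_tendsto {r : ℝ} (hr : 0 < r) : Tendsto (sc r) (𝓝[>] 0) (𝓝 0) := by
  have h1 : Tendsto (fun ε : ℝ => ε * r) (𝓝[>] 0) (𝓝 0) := by
    have : Tendsto (fun ε : ℝ => ε * r) (𝓝 0) (𝓝 (0 * r)) := (continuous_id.mul continuous_const).tendsto 0
    rw [zero_mul] at this
    exact this.mono_left nhdsWithin_le_nhds
  refine squeeze_zero' ?_ ?_ h1
  · filter_upwards [self_mem_nhdsWithin] with ε hε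
    exact (sc_pos hr hε).le
  · have e1 : ∀ᶠ ε : ℝ in 𝓝[>] 0, ε * r < 1 := h1.eventually_lt_const one_pos
    have e2 : ∀ᶠ ε : ℝ in 𝓝[>] 0, ε < 1 := by
      have : Tendsto (fun ε : ℝ => ε) (𝓝[>] 0) (𝓝 0) := tendsto_id.mono_left nhdsWithin_le_nhds
      exact this.eventually_lt_const one_pos
    filter_upwards [self_mem_nhdsWithin, e1, e2] with ε hε h1 h2
    have hε' : 0 < ε := hε
    unfold sc
    calc (ε * r) ^ (1 / ε) ≤ (ε * r) ^ (1 : ℝ) :=
          rpow_le_rpow_of_exponent_ge (by positivity) h1.le (by rw [le_div_iff₀ hε']; linarith)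
      _ = ε * r := rpow_one _

lemma T1_tendsto {a : ℝ → ℝ} (ha : Tendsto a (𝓝[>] 0) (𝓝 0)) (hpos : ∀ ε, 0 < ε → 0 < a ε)
    {d : ℝ} (hd : 0 ≤ d) :
    Tendsto (fun ε => ((1 - a ε * d) ^ (1 - ε) - 1) / a ε) (𝓝[>] 0) (𝓝 (-d)) := by
  have hε0 : Tendsto (fun ε : ℝ => ε) (𝓝[>] 0) (𝓝 0) := tendsto_id.mono_left nhdsWithin_le_nhds
  have hup : Tendsto (fun ε : ℝ => -((1 - ε) * d)) (𝓝[>] 0) (𝓝 (-d)) := by
    have : Tendsto (fun ε : ℝ => -((1 - ε) * d)) (𝓝[>] 0) (𝓝 (-((1 - 0) * d))) :=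
      ((tendsto_const_nhds.sub hε0).mul_const d).neg
    simpa using this
  have had : ∀ᶠ ε : ℝ in 𝓝[>] 0, a ε * d < 1 := by
    have : Tendsto (fun ε => a ε * d) (𝓝[>] 0) (𝓝 (0 * d)) := ha.mul_const d
    rw [zero_mul] at this
    exact this.eventually_lt_const one_pos
  have hlt : ∀ᶠ ε : ℝ in 𝓝[>] 0, ε < 1 := hε0.eventually_lt_const one_pos
  refine tendsto_of_tendsto_of_tendsto_of_le_of_le' tendsto_const_nhds hup ?_ ?_
  · filter_upwards [self_mem_nhdsWithin, had, hlt] with ε hε h1 h2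
    have hε' : 0 < ε := hε
    have hap := hpos ε hε'
    rw [le_div_iff₀ hap]
    have h3 : (1 - a ε * d) ^ (1 : ℝ) ≤ (1 - a ε * d) ^ (1 - ε) := by
      apply rpow_le_rpow_of_exponent_ge (by linarith)
      · have : 0 ≤ a ε * d := by positivity
        linarith
      · linarith
    rw [rpow_one] at h3
    linarith
  · filter_upwards [self_mem_nhdsWithin, had, hlt] with ε hε h1 h2
    have hε' : 0 < ε := hε
    have hap := hpos ε hε'
    rw [div_le_iff₀ hap]
    have h3 : (1 + -(a ε * d)) ^ (1 - ε) ≤ 1 + (1 - ε) * -(a ε * d) := by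
      apply rpow_one_add_le_one_add_mul_self (by linarith) (by linarith) (by linarith)
    have e : 1 + -(a ε * d) = 1 - a ε * d := by ring
    rw [e] at h3
    linarith

lemma T2_tendsto {σ : ℝ} (hσ : 0 < σ) :
    Tendsto (fun ε : ℝ => (σ ^ (1 - ε) - σ) / ε) (𝓝[>] 0) (𝓝 (-(σ * log σ))) := by
  have h1 : HasDerivAt (fun ε : ℝ => σ ^ (1 - ε)) (-(σ * log σ)) 0 := by
    have h2 : HasDerivAt (fun ε : ℝ => 1 - ε) (-1) (0 : ℝ) := by
      simpa using (hasDerivAt_id (0 : ℝ)).const_sub 1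
    have h3 := h2.const_rpow hσ
    refine h3.congr_deriv ?_
    rw [sub_zero, rpow_one]; ring
  have h4 := h1.tendsto_slope_zero_right
  refine h4.congr' ?_
  filter_upwards [self_mem_nhdsWithin] with ε _
  simp only [zero_add, sub_zero, rpow_one, smul_eq_mul]
  ring

theorem lower_asymp {r : ℝ} (hr0 : 0 < r) (hr : r < π / 2) :
    ∃ δ : ℝ, 0 < δ ∧ ∀ᶠ ε in 𝓝[>] (0 : ℝ), ∀ μ : MeasureTheory.ComplexMeasure ℝ,
      Admissible (1 - ε) μ → 1 + δ * sc r ε ≤ totalVar μ := by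
  obtain ⟨N, s, c, hs, hc, hPL⟩ := config_exists hr
  set R := range (N + 1) with hR
  set P : ℝ := - ∑ i ∈ R, ∑ j ∈ R, c i * c j * |s i - s j| with hP
  set L : ℝ := ∑ i ∈ R, ∑ j ∈ R, c i * c j * ((s i + s j) * log (s i + s j)) with hL
  set M : ℝ := ∑ i ∈ R, |c i| with hM
  have hMpos : 0 < M := by
    rcases (sum_nonneg (fun i _ => abs_nonneg (c i)) : 0 ≤ M).lt_or_eq with h | h
    · exact h
    · exfalso
      have h0 : ∀ i ∈ R, c i = 0 := by
        intro i hi
        have := (sum_eq_zero_iff_of_nonneg (fun i _ => abs_nonneg (c i))).1 h.symm i hi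
        exact abs_eq_zero.1 this
      have hP0 : P = 0 := by
        rw [hP, neg_eq_zero]
        apply sum_eq_zero; intro i hi
        apply sum_eq_zero; intro j hj
        rw [h0 i hi]; ring
      have hL0 : L = 0 := by
        rw [hL]
        apply sum_eq_zero; intro i hi
        apply sum_eq_zero; intro j hj
        rw [h0 i hi]; ring
      rw [hP0, hL0] at hPL
      simp at hPL
  -- the limit of B(ε)/a
  set F : ℝ → ℝ := fun ε => ∑ i ∈ R, ∑ j ∈ R, c i * c j *
    (((1 - sc r ε * |s i - s j|) ^ (1 - ε) - 1) / sc r ε +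
      1 / r * (((s i + s j) ^ (1 - ε) - (s i + s j)) / ε)) with hF
  have hFlim : Tendsto F (𝓝[>] 0) (𝓝 (P - L / r)) := by
    have : P - L / r = ∑ i ∈ R, ∑ j ∈ R, c i * c j *
      (-|s i - s j| + 1 / r * (-((s i + s j) * log (s i + s j)))) := by
      rw [hP, hL, sum_div, ← sum_neg_distrib, ← sum_sub_distrib]
      apply sum_congr rfl; intro i _
      rw [sum_div, ← sum_neg_distrib, ← sum_sub_distrib]
      apply sum_congr rfl; intro j _
      ring
    rw [this]
    apply tendsto_finsetSum; intro i _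
    apply tendsto_finsetSum; intro j _
    apply Tendsto.const_mul
    apply Tendsto.add
    · exact T1_tendsto (sc_tendsto hr0) (fun ε hε => sc_pos hr0 hε) (abs_nonneg _)
    · exact (T2_tendsto (add_pos (hs i) (hs j))).const_mul _
  have hneg : P - L / r < 0 := by
    have : P < L / r := by rw [lt_div_iff₀ hr0]; linarith
    linarith
  have hneg2 : P - L / r < (P - L / r) / 2 := by linarith
  set δ0 : ℝ := -((P - L / r) / 2) with hδ0
  have hδ0pos : 0 < δ0 := by simp only [hδ0]; linarith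
  refine ⟨δ0 / M ^ 2, by positivity, ?_⟩
  have hε0 : Tendsto (fun ε : ℝ => ε) (𝓝[>] 0) (𝓝 0) := tendsto_id.mono_left nhdsWithin_le_nhds
  have ev1 : ∀ᶠ ε in 𝓝[>] (0 : ℝ), F ε < (P - L / r) / 2 := hFlim.eventually_lt_const hneg2
  have ev2 : ∀ᶠ ε in 𝓝[>] (0 : ℝ), ε < 1 := hε0.eventually_lt_const one_pos
  have ev3 : ∀ᶠ ε in 𝓝[>] (0 : ℝ), ∀ i ∈ R, sc r ε * s i < 1 / 2 := by
    rw [Filter.eventually_all_finset]
    intro i _
    have : Tendsto (fun ε => sc r ε * s i) (𝓝[>] 0) (𝓝 (0 * s i)) := (sc_tendsto hr0).mul_const _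
    rw [zero_mul] at this
    exact this.eventually_lt_const (by norm_num)
  filter_upwards [self_mem_nhdsWithin, ev1, ev2, ev3] with ε hε h1 h2 h3 μ hμ
  have hε' : 0 < ε := hε
  have hap := sc_pos hr0 hε'
  set a := sc r ε with ha
  have hlow := lower_finite hμ R (fun i => a * s i) (fun i => c i / M)
    (fun i _ => by have := hs i; positivity) (fun i hi => (h3 i hi).le)
    (by
      have : ∑ i ∈ R, |c i / M| = (∑ i ∈ R, |c i|) / M := by
        rw [sum_div]; apply sum_congr rfl; intro i _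
        rw [abs_div, abs_of_pos hMpos]
      rw [this, ← hM, div_self hMpos.ne'])
  -- rewrite the quadratic form
  have hquad : ∑ i ∈ R, ∑ j ∈ R, c i / M * (c j / M) *
      ((1 - |a * s i - a * s j|) ^ (1 - ε) + (a * s i + a * s j) ^ (1 - ε)) = a * F ε / M ^ 2 := by
    have e1 : ∀ i j : ℕ, ((1 - |a * s i - a * s j|) ^ (1 - ε) + (a * s i + a * s j) ^ (1 - ε)) =
        a * (((1 - a * |s i - s j|) ^ (1 - ε) - 1) / a +
          1 / r * (((s i + s j) ^ (1 - ε) - (s i + s j)) / ε)) + 1 + a / (r * ε) * (s i + s j) := by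
      intro i j
      have hσ : 0 < s i + s j := add_pos (hs i) (hs j)
      have b1 : |a * s i - a * s j| = a * |s i - s j| := by
        rw [← mul_sub, abs_mul, abs_of_pos hap]
      have b2 : (a * s i + a * s j) ^ (1 - ε) = a / (ε * r) * (s i + s j) ^ (1 - ε) := by
        rw [← mul_add, mul_rpow hap.le hσ.le, rpow_sub hap, rpow_one, ha, sc_rpow hr0 hε']
      rw [b1, b2]
      field_simp
      ring
    have hs0 : ∑ i ∈ R, c i = 0 := hc
    calc ∑ i ∈ R, ∑ j ∈ R, c i / M * (c j / M) *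
      ((1 - |a * s i - a * s j|) ^ (1 - ε) + (a * s i + a * s j) ^ (1 - ε))
        = ∑ i ∈ R, ∑ j ∈ R, (a / M ^ 2 * (c i * c j * (((1 - a * |s i - s j|) ^ (1 - ε) - 1) / a +
          1 / r * (((s i + s j) ^ (1 - ε) - (s i + s j)) / ε))) +
          (c i * (1 / M ^ 2 + a / (r * ε) * s i / M ^ 2)) * c j +
          (c i * (a / (r * ε) / M ^ 2)) * (c j * s j)) := by
          apply sum_congr rfl; intro i _
          apply sum_congr rfl; intro j _
          rw [e1 i j]
          field_simp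
          ring
      _ = a / M ^ 2 * F ε + (∑ i ∈ R, (c i * (1 / M ^ 2 + a / (r * ε) * s i / M ^ 2))) * (∑ j ∈ R, c j)
          + (∑ i ∈ R, c i * (a / (r * ε) / M ^ 2)) * (∑ j ∈ R, c j * s j) := by
          rw [hF, sum_mul_sum, sum_mul_sum]
          simp only [sum_add_distrib, mul_sum]
          rfl
      _ = a * F ε / M ^ 2 := by
          rw [hs0, ← sum_mul, hs0]; ring
  have hlow' : 1 - a * F ε / M ^ 2 ≤ totalVar μ := by
    rw [← hquad]; exact hlow
  refine le_trans ?_ hlow'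
  have : δ0 ≤ - F ε := by simp only [hδ0]; linarith
  have h5 : δ0 / M ^ 2 * a ≤ - F ε / M ^ 2 * a := by gcongr
  have h6 : - F ε / M ^ 2 * a = - (a * F ε / M ^ 2) := by ring
  linarith

end Pool.Agent.Helper78.Bern
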