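import Mathlib

/-!
# `∫_0^∞ u^ε / (1+u²) du = π / (2 cos (π ε / 2))`
-/

namespace Pool.Agent.Helper78.Bern

open Real MeasureTheory Set Filter Topology

lemma mellin_int_gauss {ε : ℝ} (h0 : 0 < ε) {t : ℝ} (ht : 0 < t) :
    ∫ u in Ioi (0 : ℝ), u ^ ε * exp (-((1 + u ^ 2) * t)) =
      exp (-t) * (t ^ (-((ε + 1) / 2)) * (1 / 2) * Real.Gamma ((ε + 1) / 2)) := by
  have h := integral_rpow_mul_exp_neg_mul_rpow (p := 2) (q := ε) (b := t) (by norm_num)
    (by linarith) ht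
  rw [neg_div] at h
  rw [← h, ← integral_const_mul]
  apply setIntegral_congr_fun measurableSet_Ioi
  intro u hu
  have e : exp (-((1 + u ^ 2) * t)) = exp (-t) * exp (-t * u ^ (2 : ℝ)) := by
    rw [← exp_add, rpow_two]; ring_nf
  simp only [e]; ring

lemma mellin_integrable_gauss {ε : ℝ} (h0 : 0 < ε) {t : ℝ} (ht : 0 < t) :
    IntegrableOn (fun u : ℝ => u ^ ε * exp (-((1 + u ^ 2) * t))) (Ioi 0) := by
  have h := (integrableOn_rpow_mul_exp_neg_mul_rpow (p := 2) (s := ε) (b := t) (by linarith)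
    (by norm_num) ht).const_mul (exp (-t))
  refine IntegrableOn.congr_fun h ?_ measurableSet_Ioi
  intro u hu
  have e : exp (-((1 + u ^ 2) * t)) = exp (-t) * exp (-t * u ^ (2 : ℝ)) := by
    rw [← exp_add, rpow_two]; ring_nf
  simp only [e]; ring

lemma mellin_prod_integrable {ε : ℝ} (h0 : 0 < ε) (h1 : ε < 1) :
    Integrable (fun p : ℝ × ℝ => p.2 ^ ε * exp (-((1 + p.2 ^ 2) * p.1)))
      ((volume.restrict (Ioi 0)).prod (volume.restrict (Ioi 0))) := by
  rw [integrable_prod_iff (by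
    apply Measurable.aestronglyMeasurable
    fun_prop)]
  constructor
  · filter_upwards [ae_restrict_mem measurableSet_Ioi] with t ht
    exact mellin_integrable_gauss h0 ht
  · have h2 : IntegrableOn (fun t : ℝ => exp (-t) * t ^ ((1 - ε) / 2 - 1)) (Ioi 0) :=
      Real.GammaIntegral_convergent (by linarith)
    have h3 := h2.const_mul ((1 / 2) * Real.Gamma ((ε + 1) / 2))
    refine Integrable.congr h3 ?_
    filter_upwards [ae_restrict_mem measurableSet_Ioi] with t ht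
    have : ∫ u in Ioi (0 : ℝ), ‖u ^ ε * exp (-((1 + u ^ 2) * t))‖ =
        ∫ u in Ioi (0 : ℝ), u ^ ε * exp (-((1 + u ^ 2) * t)) := by
      apply setIntegral_congr_fun measurableSet_Ioi
      intro u hu
      have hu' : 0 < u := hu
      simp only
      rw [Real.norm_eq_abs, abs_of_nonneg (by positivity)]
    rw [this, mellin_int_gauss h0 ht]
    have e : (1 - ε) / 2 - 1 = -((ε + 1) / 2) := by ring
    rw [e]; ring

theorem mellin_one_add_sq_gamma {ε : ℝ} (h0 : 0 < ε) (h1 : ε < 1) :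
    ∫ u in Ioi (0 : ℝ), u ^ ε / (1 + u ^ 2) =
      1 / 2 * Real.Gamma ((ε + 1) / 2) * Real.Gamma ((1 - ε) / 2) := by
  have hswap := integral_integral_swap
    (f := fun t u : ℝ => u ^ ε * exp (-((1 + u ^ 2) * t))) (mellin_prod_integrable h0 h1)
  have hL : ∫ t in Ioi (0 : ℝ), ∫ u in Ioi (0 : ℝ), u ^ ε * exp (-((1 + u ^ 2) * t)) =
      1 / 2 * Real.Gamma ((ε + 1) / 2) * Real.Gamma ((1 - ε) / 2) := by
    rw [Real.Gamma_eq_integral (show 0 < (1 - ε) / 2 by linarith), ← integral_const_mul]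
    apply setIntegral_congr_fun measurableSet_Ioi
    intro t ht
    simp only
    rw [mellin_int_gauss h0 ht]
    have e : (1 - ε) / 2 - 1 = -((ε + 1) / 2) := by ring
    rw [e]; ring
  have hR : ∫ u in Ioi (0 : ℝ), ∫ t in Ioi (0 : ℝ), u ^ ε * exp (-((1 + u ^ 2) * t)) =
      ∫ u in Ioi (0 : ℝ), u ^ ε / (1 + u ^ 2) := by
    apply setIntegral_congr_fun measurableSet_Ioi
    intro u hu
    simp only
    rw [integral_const_mul]
    have : ∫ t in Ioi (0 : ℝ), exp (-((1 + u ^ 2) * t)) = 1 / (1 + u ^ 2) := by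
      have h := integral_exp_mul_Ioi (a := -(1 + u ^ 2)) (by nlinarith [sq_nonneg u]) 0
      simp only [mul_zero, exp_zero] at h
      rw [show (fun t : ℝ => exp (-((1 + u ^ 2) * t))) = fun t => exp (-(1 + u ^ 2) * t) by
        funext t; ring_nf, h]
      rw [neg_div_neg_eq]
    rw [this]; ring
  rw [← hR, ← hswap, hL]

theorem mellin_one_add_sq {ε : ℝ} (h0 : 0 < ε) (h1 : ε < 1) :
    ∫ u in Ioi (0 : ℝ), u ^ ε / (1 + u ^ 2) = π / (2 * cos (π * ε / 2)) := by
  rw [mellin_one_add_sq_gamma h0 h1]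
  have h := Real.Gamma_mul_Gamma_one_sub ((ε + 1) / 2)
  have e1 : 1 - (ε + 1) / 2 = (1 - ε) / 2 := by ring
  have e2 : sin (π * ((ε + 1) / 2)) = cos (π * ε / 2) := by
    rw [← sin_add_pi_div_two]; ring_nf
  rw [e1, e2] at h
  rw [mul_assoc, h]
  have hc : 0 < cos (π * ε / 2) := cos_pos_of_mem_Ioo ⟨by nlinarith [pi_pos], by nlinarith [pi_pos]⟩
  field_simp

end Pool.Agent.Helper78.Bern
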