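import Pool.Agent.Helper78.BernCoef
import Pool.Agent.Helper78.BernBridge

/-!
# The 4-periodic odd-reflected extension of `(1-|ξ|)^α`
-/

namespace Pool.Agent.Helper78.Bern

open Real MeasureTheory Set Filter Topology
open Pool.Agent.Helper45.Bern

/-- real extension on `[-2,2]` -/
noncomputable def tf (α : ℝ) (x : ℝ) : ℝ := (max (1 - |x|) 0) ^ α - (max (|x| - 1) 0) ^ α

lemma tf_continuous {α : ℝ} (hα : 0 < α) : Continuous (tf α) := by
  unfold tf
  apply Continuous.sub
  · exact (continuous_rpow_const hα.le).comp (by fun_prop : Continuous fun x : ℝ => max (1 - |x|) 0)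
  · exact (continuous_rpow_const hα.le).comp (by fun_prop : Continuous fun x : ℝ => max (|x| - 1) 0)

lemma tf_neg (α x : ℝ) : tf α (-x) = tf α x := by unfold tf; rw [abs_neg]

lemma tf_inner {α x : ℝ} (hα : 0 < α) (hx : |x| ≤ 1) : tf α x = (1 - |x|) ^ α := by
  unfold tf
  rw [max_eq_left (by linarith), max_eq_right (by linarith), zero_rpow hα.ne', sub_zero]

lemma tf_outer {α x : ℝ} (hα : 0 < α) (hx : 1 ≤ |x|) : tf α x = -(|x| - 1) ^ α := by
  unfold tf
  rw [max_eq_right (by linarith), max_eq_left (by linarith), zero_rpow hα.ne', zero_sub]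

noncomputable def tfc (α : ℝ) (x : ℝ) : ℂ := (tf α x : ℂ)

instance fact4 : Fact ((0 : ℝ) < 4) := ⟨by norm_num⟩

/-- the extension as a continuous function on the circle of length 4 -/
noncomputable def tcirc {α : ℝ} (hα : 0 < α) : C(AddCircle (4 : ℝ), ℂ) :=
  ⟨AddCircle.liftIco 4 (-2) (tfc α), AddCircle.liftIco_continuous
    (by unfold tfc tf; norm_num) (by
      apply Continuous.continuousOn
      exact Complex.continuous_ofReal.comp (tf_continuous hα))⟩

lemma cos_int_even {α : ℝ} (hα : 0 < α) (n : ℤ) :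
    ∫ x in (0 : ℝ)..2, cos (π * n / 2 * x) * tf α x =
      (1 - (-1 : ℝ) ^ n) * gcos α (π * n / 2) := by
  set θ : ℝ := π * n / 2 with hθ
  have hc : Continuous (fun x : ℝ => cos (θ * x) * tf α x) :=
    (by fun_prop : Continuous fun x : ℝ => cos (θ * x)).mul (tf_continuous hα)
  rw [← intervalIntegral.integral_add_adjacent_intervals (b := 1)
    (hc.intervalIntegrable _ _) (hc.intervalIntegrable _ _)]
  have h1 : ∫ x in (0 : ℝ)..1, cos (θ * x) * tf α x = gcos α θ := by
    unfold gcos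
    apply intervalIntegral.integral_congr
    intro x hx
    rw [uIcc_of_le zero_le_one] at hx
    simp only
    rw [tf_inner hα (by rw [abs_of_nonneg hx.1]; exact hx.2), abs_of_nonneg hx.1]; ring
  have h2 : ∫ x in (1 : ℝ)..2, cos (θ * x) * tf α x = -((-1 : ℝ) ^ n * gcos α θ) := by
    have hsub := intervalIntegral.integral_comp_sub_left (fun x => cos (θ * x) * tf α x) (2 : ℝ)
      (a := 0) (b := 1)
    norm_num at hsub
    rw [← hsub]
    unfold gcos
    rw [← intervalIntegral.integral_const_mul, ← intervalIntegral.integral_neg]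
    apply intervalIntegral.integral_congr
    intro y hy
    rw [uIcc_of_le zero_le_one] at hy
    simp only
    have e1 : |2 - y| = 2 - y := abs_of_nonneg (by linarith [hy.2])
    rw [tf_outer hα (by rw [e1]; linarith [hy.2]), e1]
    have e2 : θ * (2 - y) = n * π - θ * y := by rw [hθ]; ring
    rw [e2, cos_int_mul_pi_sub]
    have e3 : 2 - y - 1 = 1 - y := by ring
    rw [e3]
    ring
  rw [h1, h2]; ring

lemma coef_eq {α : ℝ} (hα : 0 < α) (n : ℤ) :
    fourierCoeff (tcirc hα) n = (((1 - (-1 : ℝ) ^ n) / 2 * gcos α (π * n / 2) : ℝ) : ℂ) := by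
  have h0 : fourierCoeff (tcirc hα) n =
      fourierCoeffOn (lt_add_of_pos_right (-2 : ℝ) fact4.out) (tfc α) n :=
    fourierCoeff_liftIco_eq (T := 4) (a := -2) (tfc α) n
  rw [h0, fourierCoeffOn_eq_integral]
  set θ : ℝ := π * n / 2 with hθ
  have e0 : (-2 : ℝ) + 4 = 2 := by norm_num
  have e1 : ∀ x : ℝ, fourier (-n) (x : AddCircle ((-2 : ℝ) + 4 - -2)) • tfc α x =
      Complex.exp (-(θ * x : ℝ) * Complex.I) * (tf α x : ℂ) := by
    intro x
    rw [fourier_coe_apply, smul_eq_mul]
    unfold tfc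
    congr 2
    rw [hθ]; push_cast; ring
  simp_rw [e1]
  rw [e0]
  have hcont : Continuous (fun x : ℝ => Complex.exp (-(θ * x : ℝ) * Complex.I) * (tf α x : ℂ)) := by
    apply Continuous.mul (by fun_prop)
    exact Complex.continuous_ofReal.comp (tf_continuous hα)
  rw [← intervalIntegral.integral_add_adjacent_intervals (b := 0)
    (hcont.intervalIntegrable _ _) (hcont.intervalIntegrable _ _)]
  have h1 : ∫ x in (-2 : ℝ)..0, Complex.exp (-(θ * x : ℝ) * Complex.I) * (tf α x : ℂ) =
      ∫ x in (0 : ℝ)..2, Complex.exp (-(θ * (-x) : ℝ) * Complex.I) * (tf α (-x) : ℂ) := by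
    rw [intervalIntegral.integral_comp_neg (fun x : ℝ =>
      Complex.exp (-(θ * x : ℝ) * Complex.I) * (tf α x : ℂ)), neg_zero]
  have hcont2 : Continuous (fun x : ℝ => Complex.exp (-(θ * (-x) : ℝ) * Complex.I) * (tf α (-x) : ℂ)) := by
    apply Continuous.mul (by fun_prop)
    exact Complex.continuous_ofReal.comp ((tf_continuous hα).comp continuous_neg)
  rw [h1, ← intervalIntegral.integral_add (hcont2.intervalIntegrable _ _)
    (hcont.intervalIntegrable _ _)]
  have e2 : ∀ x : ℝ, Complex.exp (-(θ * (-x) : ℝ) * Complex.I) * (tf α (-x) : ℂ) +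
      Complex.exp (-(θ * x : ℝ) * Complex.I) * (tf α x : ℂ) = ((2 * (cos (θ * x) * tf α x) : ℝ) : ℂ) := by
    intro x
    rw [tf_neg]
    push_cast
    rw [Complex.cos]
    have a1 : -((θ : ℂ) * -(x : ℂ)) * Complex.I = (θ : ℂ) * x * Complex.I := by ring
    have a2 : -((θ : ℂ) * (x : ℂ)) * Complex.I = -((θ : ℂ) * x) * Complex.I := by ring
    rw [a1]
    ring
  simp_rw [e2]
  rw [intervalIntegral.integral_ofReal, intervalIntegral.integral_const_mul, cos_int_even hα n]
  rw [Complex.real_smul]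
  rw [← Complex.ofReal_mul]
  congr 1
  rw [← hθ]
  ring

/-- the frequencies -/
noncomputable def wf (k : ℤ) : ℝ := ((k : ℝ) + 1 / 2) * π

lemma coef_odd {α : ℝ} (hα : 0 < α) (k : ℤ) :
    fourierCoeff (tcirc hα) (2 * k + 1) = (gcos α (wf k) : ℂ) := by
  rw [coef_eq]
  congr 1
  have h1 : (-1 : ℝ) ^ (2 * k + 1) = -1 := by
    rw [zpow_add₀ (by norm_num), zpow_mul]; norm_num
  rw [h1]
  have h2 : π * ((2 * k + 1 : ℤ) : ℝ) / 2 = wf k := by unfold wf; push_cast; ring
  rw [h2]; ring

lemma coef_even {α : ℝ} (hα : 0 < α) {n : ℤ} (hn : n ∉ Set.range (fun k : ℤ => 2 * k + 1)) :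
    fourierCoeff (tcirc hα) n = 0 := by
  have hev : Even n := by
    by_contra h
    rw [Int.not_even_iff_odd] at h
    obtain ⟨k, hk⟩ := h
    exact hn ⟨k, hk.symm⟩
  rw [coef_eq, hev.neg_one_zpow]
  simp

lemma gcos_neg (α ω : ℝ) : gcos α (-ω) = gcos α ω := by
  unfold gcos
  congr 1; funext x
  rw [neg_mul, cos_neg]

lemma wf_neg (n : ℕ) : wf (-((n : ℤ) + 1)) = - wf n := by
  unfold wf; push_cast; ring

lemma inj_odd : Function.Injective (fun k : ℤ => 2 * k + 1) := by
  intro a b h; simp only at h; omega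

end Pool.Agent.Helper78.Bern
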