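import Pool.Agent.Helper78.BernSeries

/-!
# Upper bound for `I(α)`
-/

namespace Pool.Agent.Helper78.Bern

open Real MeasureTheory Set Filter Topology
open Pool.Agent.Helper45.Bern

lemma wf_nat_pos (k : ℕ) : 0 < wf k := by unfold wf; positivity

lemma wf_ge (k : ℕ) : (k : ℝ) + 1 ≤ wf k := by
  unfold wf
  push_cast
  have hk : (0 : ℝ) ≤ k := Nat.cast_nonneg k
  nlinarith [pi_gt_three]

lemma cos_wf (k : ℕ) : cos (wf k) = 0 := by
  rw [cos_eq_zero_iff]
  exact ⟨k, by unfold wf; push_cast; ring⟩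

lemma sin_wf (k : ℕ) : sin (wf k) = (-1) ^ k := by
  have : wf k = π / 2 + k * π := by unfold wf; push_cast; ring
  rw [this, sin_add_nat_mul_pi, sin_pi_div_two, mul_one]

/-- size of the coefficients -/
lemma gcos_wf_abs {α : ℝ} (hα : 0 < α) (hα1 : α < 1) (k : ℕ) :
    |gcos α (wf k)| ≤ α * gConst α * ((k : ℝ) + 1) ^ (-(1 + α)) + α * ((k : ℝ) + 1) ^ (-(2 : ℝ)) := by
  obtain ⟨b, hb, hb1, hb2⟩ := gcos_key hα hα1 (wf_nat_pos k) (cos_wf k)
  set w := wf k with hw
  have hwpos : 0 < w := wf_nat_pos k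
  have hG := gConst_pos hα hα1
  have hbabs : |b| ≤ 1 / w := by
    rw [abs_le]
    refine ⟨?_, hb2⟩
    refine le_trans ?_ hb1
    have h2 : (1 - α) * (2 - α) / w ^ 2 ≤ 2 := by
      rw [div_le_iff₀ (by positivity)]
      have hk0 : (0 : ℝ) ≤ k := Nat.cast_nonneg k
      have : 1 ≤ w := by linarith [wf_ge k]
      nlinarith
    have h3 : 0 < 1 / w := by positivity
    nlinarith
  have hk : (k : ℝ) + 1 ≤ w := wf_ge k
  have hk0 : (0 : ℝ) < (k : ℝ) + 1 := by positivity
  have hsin : |sin w| ≤ 1 := abs_sin_le_one _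
  rw [hb, abs_mul, abs_of_pos (by positivity : 0 < α / w)]
  have h1 : |sin w * gConst α * w ^ (-α) + b| ≤ gConst α * w ^ (-α) + 1 / w := by
    refine (abs_add_le _ _).trans ?_
    apply add_le_add _ hbabs
    rw [abs_mul, abs_mul, abs_of_pos hG, abs_of_pos (by positivity : 0 < w ^ (-α))]
    have : 0 < gConst α * w ^ (-α) := by positivity
    nlinarith [abs_nonneg (sin w)]
  calc α / w * |sin w * gConst α * w ^ (-α) + b| ≤ α / w * (gConst α * w ^ (-α) + 1 / w) := by
        gcongr
    _ = α * gConst α * w ^ (-(1 + α)) + α * w ^ (-(2 : ℝ)) := by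
        have e1 : w ^ (-(1 + α)) = w ^ (-α) / w := by
          rw [show -(1 + α) = -α - 1 by ring, rpow_sub hwpos, rpow_one]
        have e2 : w ^ (-(2 : ℝ)) = 1 / w / w := by
          rw [rpow_neg hwpos.le, rpow_two]; field_simp
        rw [e1, e2]; ring
    _ ≤ _ := by
        apply add_le_add
        · apply mul_le_mul_of_nonneg_left _ (by positivity)
          exact rpow_le_rpow_of_nonpos hk0 hk (by linarith)
        · apply mul_le_mul_of_nonneg_left _ hα.le
          exact rpow_le_rpow_of_nonpos hk0 hk (by linarith)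

lemma summable_gcos {α : ℝ} (hα : 0 < α) (hα1 : α < 1) :
    Summable (fun k : ℕ => |gcos α (wf k)|) := by
  have h1 : ∀ p : ℝ, 1 < p → Summable (fun k : ℕ => ((k : ℝ) + 1) ^ (-p)) := by
    intro p hp
    have h2 : Summable (fun k : ℕ => (k : ℝ) ^ (-p)) := Real.summable_nat_rpow.2 (by linarith)
    have h3 := (summable_nat_add_iff 1).2 h2
    refine h3.congr (fun k => ?_)
    push_cast; rfl
  refine Summable.of_nonneg_of_le (fun k => abs_nonneg _) (fun k => gcos_wf_abs hα hα1 k) ?_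
  exact ((h1 _ (by linarith)).mul_left _).add ((h1 _ (by norm_num)).mul_left _)

lemma summable_gcos_int {α : ℝ} (hα : 0 < α) (hα1 : α < 1) :
    Summable (fun k : ℤ => |gcos α (wf k)|) := by
  apply Summable.of_nat_of_neg_add_one
  · exact summable_gcos hα hα1
  · refine (summable_gcos hα hα1).congr (fun n => ?_)
    rw [wf_neg, gcos_neg]

lemma summable_coef {α : ℝ} (hα : 0 < α) (hα1 : α < 1) :
    Summable (fourierCoeff (tcirc hα)) := by
  rw [← Function.Injective.summable_iff inj_odd (fun n hn => coef_even hα hn)]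
  have : (fourierCoeff (tcirc hα) ∘ fun k : ℤ => 2 * k + 1) = fun k : ℤ => (gcos α (wf k) : ℂ) := by
    funext k; exact coef_odd hα k
  rw [this]
  apply Summable.of_norm
  refine (summable_gcos_int hα hα1).congr (fun k => ?_)
  rw [Complex.norm_real, Real.norm_eq_abs]

lemma series_rep {α : ℝ} (hα : 0 < α) (hα1 : α < 1) {ξ : ℝ} (hξ : |ξ| ≤ 1) :
    HasSum (fun k : ℤ => Complex.exp (-(Complex.I * ((-wf k * ξ : ℝ) : ℂ))) * (gcos α (wf k) : ℂ))
        (((1 - |ξ|) ^ α : ℝ) : ℂ) := by
  have h := has_pointwise_sum_fourier_series_of_summable (summable_coef hα hα1)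
    (ξ : AddCircle (4 : ℝ))
  have hval : (tcirc hα) (ξ : AddCircle (4 : ℝ)) = (((1 - |ξ|) ^ α : ℝ) : ℂ) := by
    have h1 : (tcirc hα) (ξ : AddCircle (4 : ℝ)) = AddCircle.liftIco 4 (-2) (tfc α) (ξ : AddCircle (4 : ℝ)) := rfl
    rw [h1, AddCircle.liftIco_coe_apply (by
      have := abs_le.1 hξ
      constructor <;> linarith [this.1, this.2])]
    unfold tfc
    rw [tf_inner hα hξ]
  rw [hval] at h
  have h2 := (Function.Injective.hasSum_iff inj_odd (f := fun i => fourierCoeff (tcirc hα) i •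
    (fourier i) (ξ : AddCircle (4 : ℝ))) (a := (((1 - |ξ|) ^ α : ℝ) : ℂ))
    (fun n hn => by rw [coef_even hα hn, zero_smul])).2 h
  have h3 : (fun k : ℤ => Complex.exp (-(Complex.I * ((-wf k * ξ : ℝ) : ℂ))) * (gcos α (wf k) : ℂ)) =
      (fun i => fourierCoeff (tcirc hα) i • (fourier i) (ξ : AddCircle (4 : ℝ))) ∘
        (fun k : ℤ => 2 * k + 1) := by
    funext k
    simp only [Function.comp]
    rw [coef_odd, fourier_coe_apply, smul_eq_mul, mul_comm]
    congr 2
    unfold wf
    push_cast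
    ring
  rw [h3]
  exact h2

lemma gcos_sum {α : ℝ} (hα : 0 < α) (hα1 : α < 1) : ∑' k : ℕ, gcos α (wf k) = 1 / 2 := by
  have h := series_rep hα hα1 (ξ := 0) (by simp)
  simp only [mul_zero, Complex.ofReal_zero, neg_zero, Complex.exp_zero, one_mul, abs_zero,
    sub_zero, one_rpow] at h
  have h1 : HasSum (fun k : ℤ => gcos α (wf k)) 1 := by exact_mod_cast h
  have hs : Summable (fun k : ℕ => gcos α (wf k)) := (summable_gcos hα hα1).of_abs
  have h2 : HasSum (fun k : ℕ => gcos α (wf (-((k : ℤ) + 1)))) (∑' k : ℕ, gcos α (wf k)) := by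
    have : (fun k : ℕ => gcos α (wf (-((k : ℤ) + 1)))) = fun k : ℕ => gcos α (wf k) := by
      funext k; rw [wf_neg, gcos_neg]
    rw [this]; exact hs.hasSum
  have h3 := HasSum.of_nat_of_neg_add_one (f := fun k : ℤ => gcos α (wf k)) hs.hasSum h2
  have := h3.unique h1
  linarith

lemma rpow_neg_diff {α x y : ℝ} (hα : 0 < α) (hy : 0 < y) (hxy : y < x) :
    α * (x - y) * x ^ (-(1 + α)) ≤ y ^ (-α) - x ^ (-α) := by
  obtain ⟨c, hc, hceq⟩ := exists_hasDerivAt_eq_slope (fun t : ℝ => t ^ (-α))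
    (fun t => -α * t ^ (-α - 1)) hxy
    (by
      apply ContinuousOn.rpow_const continuousOn_id
      intro t ht
      have : 0 < t := by linarith [ht.1]
      exact Or.inl this.ne')
    (by
      intro t ht
      have : 0 < t := by linarith [ht.1]
      exact Real.hasDerivAt_rpow_const (Or.inl this.ne'))
  have hxy' : 0 < x - y := by linarith
  rw [eq_div_iff hxy'.ne'] at hceq
  have hcpos : 0 < c := by linarith [hc.1]
  have h1 : x ^ (-(1 + α)) ≤ c ^ (-α - 1) := by
    rw [show -α - 1 = -(1 + α) by ring]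
    exact rpow_le_rpow_of_nonpos hcpos hc.2.le (by linarith)
  have h2 : α * (x - y) * x ^ (-(1 + α)) ≤ α * (x - y) * c ^ (-α - 1) := by gcongr
  linarith

/-- The threshold: a negative coefficient forces a large frequency. -/
lemma neg_coef {α : ℝ} (hα : 0 < α) (hα1 : α < 1) (k : ℕ) (hneg : gcos α (wf (k + 1 : ℕ)) < 0) :
    9 / 10 * gConst α ^ (-(1 / (1 - α))) < wf (k + 1 : ℕ) ∧
      -gcos α (wf (k + 1 : ℕ)) ≤ α * gConst α * wf (k + 1 : ℕ) ^ (-(1 + α)) := by
  obtain ⟨b, hb, hb1, hb2⟩ := gcos_key hα hα1 (wf_nat_pos (k + 1)) (cos_wf (k + 1))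
  rw [sin_wf] at hb
  set w := wf (k + 1 : ℕ) with hw
  have hwpos : 0 < w := wf_nat_pos (k + 1)
  have hG := gConst_pos hα hα1
  have hw4 : 9 / 2 ≤ w := by
    rw [hw]; unfold wf; push_cast
    have hk : (0 : ℝ) ≤ k := Nat.cast_nonneg k
    nlinarith [pi_gt_three]
  have hw20 : 20 ≤ w ^ 2 := by nlinarith
  have hfrac : (1 - α) * (2 - α) / w ^ 2 ≤ 1 / 10 * (1 - α) := by
    rw [div_le_iff₀ (by positivity)]
    nlinarith
  have hbpos : 0 ≤ b := by
    refine le_trans ?_ hb1
    apply mul_nonneg (by positivity)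
    nlinarith
  have hodd : ((-1 : ℝ) ^ (k + 1)) = -1 := by
    rcases neg_one_pow_eq_or ℝ (k + 1) with h | h
    · exfalso
      rw [h] at hb
      have : 0 ≤ gcos α w := by
        rw [hb]; positivity
      linarith
    · exact h
  rw [hodd] at hb
  have hlt : b < gConst α * w ^ (-α) := by
    by_contra hcon
    push Not at hcon
    have : 0 ≤ gcos α w := by
      rw [hb]
      apply mul_nonneg (by positivity)
      linarith
    linarith
  constructor
  · have h1 : 1 - 1 / 10 * (1 - α) < gConst α * w ^ (1 - α) := by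
      have h2 : 1 / w * (1 - 1 / 10 * (1 - α)) < gConst α * w ^ (-α) := by
        refine lt_of_le_of_lt (le_trans ?_ hb1) hlt
        gcongr
      have h3 := mul_lt_mul_of_pos_left h2 hwpos
      have h4 : w * (1 / w * (1 - 1 / 10 * (1 - α))) = 1 - 1 / 10 * (1 - α) := by field_simp
      have h5 : w * (gConst α * w ^ (-α)) = gConst α * w ^ (1 - α) := by
        rw [show 1 - α = 1 + -α by ring, rpow_add hwpos, rpow_one]; ring
      rw [h4, h5] at h3
      exact h3
    have hε : 0 < 1 - α := by linarith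
    have h6 : (9 : ℝ) / 10 ≤ (1 + -(1 / 10 * (1 - α))) ^ (1 / (1 - α)) := by
      have := one_add_mul_self_le_rpow_one_add (s := -(1 / 10 * (1 - α))) (by nlinarith)
        (p := 1 / (1 - α)) (by rw [le_div_iff₀ hε]; linarith)
      refine le_trans (le_of_eq ?_) this
      field_simp
      norm_num
    have h7 : (1 + -(1 / 10 * (1 - α))) ^ (1 / (1 - α)) < (gConst α * w ^ (1 - α)) ^ (1 / (1 - α)) := by
      apply rpow_lt_rpow (by nlinarith) (by linarith) (by positivity)
    have h8 : (gConst α * w ^ (1 - α)) ^ (1 / (1 - α)) = gConst α ^ (1 / (1 - α)) * w := by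
      rw [mul_rpow hG.le (by positivity), ← rpow_mul hwpos.le, mul_one_div_cancel hε.ne', rpow_one]
    rw [h8] at h7
    have h9 : 9 / 10 < gConst α ^ (1 / (1 - α)) * w := lt_of_le_of_lt h6 h7
    rw [rpow_neg hG.le]
    have h10 : 0 < gConst α ^ (1 / (1 - α)) := by positivity
    rw [← div_eq_mul_inv, div_lt_iff₀ h10]
    linarith
  · rw [hb]
    have e1 : w ^ (-(1 + α)) = w ^ (-α) / w := by
      rw [show -(1 + α) = -α - 1 by ring, rpow_sub hwpos, rpow_one]
    rw [e1]
    have : -(α / w * (-1 * gConst α * w ^ (-α) + b)) = α * gConst α * (w ^ (-α) / w) - α / w * b := by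
      ring
    rw [this]
    have : 0 ≤ α / w * b := by positivity
    linarith

/-- Sum of the negative parts. -/
lemma sum_neg_part {α : ℝ} (hα : 0 < α) (hα1 : α < 1) (n : ℕ) :
    ∑ k ∈ Finset.range n, max (-gcos α (wf (k : ℕ))) 0 ≤
      gConst α / π * (3 / 10 * gConst α ^ (-(1 / (1 - α)))) ^ (-α) := by
  have hG := gConst_pos hα hα1
  set R : ℝ := 3 / 10 * gConst α ^ (-(1 / (1 - α))) with hR
  have hRpos : 0 < R := by positivity
  set m : ℕ → ℝ := fun k => min (wf (k : ℕ) ^ (-α)) (R ^ (-α)) with hm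
  have hwmono : ∀ k : ℕ, wf (k : ℕ) < wf ((k + 1 : ℕ) : ℤ) := by
    intro k; unfold wf; push_cast; nlinarith [pi_pos]
  have hanti : ∀ k, m (k + 1) ≤ m k := by
    intro k
    simp only [hm]
    apply min_le_min _ le_rfl
    exact rpow_le_rpow_of_nonpos (wf_nat_pos k) (hwmono k).le (by linarith)
  have hm0 : ∀ k, 0 ≤ m k := by
    intro k; simp only [hm]
    have := wf_nat_pos k
    positivity
  have hstep : ∀ k : ℕ, max (-gcos α (wf ((k + 1 : ℕ) : ℤ))) 0 ≤ gConst α / π * (m k - m (k + 1)) := by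
    intro k
    rcases le_or_gt 0 (gcos α (wf ((k + 1 : ℕ) : ℤ))) with h | h
    · rw [max_eq_right (by linarith)]
      apply mul_nonneg (by positivity)
      linarith [hanti k]
    · obtain ⟨h1, h2⟩ := neg_coef hα hα1 k h
      rw [max_eq_left (by linarith)]
      refine h2.trans ?_
      have hwk := wf_nat_pos k
      have hwk1 := wf_nat_pos (k + 1)
      have hdiff : wf ((k + 1 : ℕ) : ℤ) - wf (k : ℕ) = π := by unfold wf; push_cast; ring
      have hthird : wf ((k + 1 : ℕ) : ℤ) ≤ 3 * wf (k : ℕ) := by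
        unfold wf; push_cast
        have hk : (0 : ℝ) ≤ k := Nat.cast_nonneg k
        nlinarith [pi_pos]
      have hmk : m k = wf (k : ℕ) ^ (-α) := by
        simp only [hm]
        apply min_eq_left
        apply rpow_le_rpow_of_nonpos hRpos _ (by linarith)
        rw [hR]
        linarith
      have hmk1 : m (k + 1) ≤ wf ((k + 1 : ℕ) : ℤ) ^ (-α) := min_le_left _ _
      have h3 := rpow_neg_diff hα hwk (hwmono k)
      rw [hdiff] at h3
      calc α * gConst α * wf ((k + 1 : ℕ) : ℤ) ^ (-(1 + α)) =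
            gConst α / π * (α * π * wf ((k + 1 : ℕ) : ℤ) ^ (-(1 + α))) := by
              field_simp
        _ ≤ gConst α / π * (m k - m (k + 1)) := by
              apply mul_le_mul_of_nonneg_left _ (by positivity)
              rw [hmk]; linarith
  have hzero : max (-gcos α (wf ((0 : ℕ) : ℤ))) 0 = 0 := by
    apply max_eq_right
    obtain ⟨b, hb, hb1, hb2⟩ := gcos_key hα hα1 (wf_nat_pos 0) (cos_wf 0)
    rw [sin_wf, pow_zero, one_mul] at hb
    set w := wf ((0 : ℕ) : ℤ) with hw
    have hwpos : 0 < w := wf_nat_pos 0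
    have hw2 : 9 / 4 ≤ w ^ 2 := by
      have : 3 / 2 ≤ w := by
        rw [hw]; unfold wf; push_cast; nlinarith [pi_gt_three]
      nlinarith
    have hbpos : 0 ≤ b := by
      refine le_trans ?_ hb1
      apply mul_nonneg (by positivity)
      rw [sub_nonneg, div_le_one (by positivity)]
      nlinarith
    have : 0 ≤ gcos α w := by rw [hb]; positivity
    linarith
  have hind : ∀ n : ℕ, ∑ k ∈ Finset.range (n + 1), max (-gcos α (wf (k : ℕ))) 0 ≤
      gConst α / π * (m 0 - m n) := by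
    intro n
    induction n with
    | zero => simp only [zero_add, Finset.sum_range_one, sub_self, mul_zero]; exact hzero.le
    | succ n ih =>
      rw [Finset.sum_range_succ]
      have := hstep n
      calc _ ≤ gConst α / π * (m 0 - m n) + gConst α / π * (m n - m (n + 1)) := add_le_add ih this
        _ = _ := by ring
  have hm0R : m 0 ≤ R ^ (-α) := min_le_right _ _
  have hpi : 0 < gConst α / π := by positivity
  rcases n with _ | n
  · simp only [Finset.range_zero, Finset.sum_empty]; positivity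
  · refine (hind n).trans ?_
    apply mul_le_mul_of_nonneg_left _ hpi.le
    linarith [hm0 n]

/-- **Upper bound**: an explicit admissible measure. -/
theorem upper_bound {α : ℝ} (hα : 0 < α) (hα1 : α < 1) :
    ∃ μ, Admissible α μ ∧ totalVar μ ≤ 1 + 5 * gConst α ^ (1 / (1 - α)) := by
  have hG := gConst_pos hα hα1
  have hsum : Summable (fun k : ℤ => ‖(gcos α (wf k) : ℂ)‖) := by
    refine (summable_gcos_int hα hα1).congr (fun k => ?_)
    rw [Complex.norm_real, Real.norm_eq_abs]
  obtain ⟨μ, hμ, htv⟩ := exists_admissible_of_series (α := α) (e := fun k => -wf k) hsum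
    (fun ξ hξ => series_rep hα hα1 hξ)
  refine ⟨μ, hμ, htv.trans ?_⟩
  have h1 : ∑' k : ℤ, ‖(gcos α (wf k) : ℂ)‖ = 2 * ∑' k : ℕ, |gcos α (wf k)| := by
    have e : (fun k : ℤ => ‖(gcos α (wf k) : ℂ)‖) = fun k : ℤ => |gcos α (wf k)| := by
      funext k; rw [Complex.norm_real, Real.norm_eq_abs]
    rw [e]
    have hs := summable_gcos hα hα1
    have h2 : HasSum (fun k : ℕ => |gcos α (wf (-((k : ℤ) + 1)))|) (∑' k : ℕ, |gcos α (wf k)|) := by
      have : (fun k : ℕ => |gcos α (wf (-((k : ℤ) + 1)))|) = fun k : ℕ => |gcos α (wf k)| := by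
        funext k; rw [wf_neg, gcos_neg]
      rw [this]; exact hs.hasSum
    rw [(HasSum.of_nat_of_neg_add_one (f := fun k : ℤ => |gcos α (wf k)|) hs.hasSum h2).tsum_eq]
    ring
  have hsn : Summable (fun k : ℕ => gcos α (wf k)) := (summable_gcos hα hα1).of_abs
  have hsm : Summable (fun k : ℕ => max (-gcos α (wf (k : ℕ))) 0) := by
    refine Summable.of_nonneg_of_le (fun k => le_max_right _ _) (fun k => ?_) (summable_gcos hα hα1)
    exact max_le (neg_le_abs _) (abs_nonneg _)
  have h2 : ∑' k : ℕ, |gcos α (wf k)| = ∑' k : ℕ, gcos α (wf k) +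
      2 * ∑' k : ℕ, max (-gcos α (wf (k : ℕ))) 0 := by
    rw [← tsum_mul_left, ← hsn.tsum_add (hsm.mul_left 2)]
    congr 1
    funext k
    rcases le_total 0 (gcos α (wf (k : ℕ))) with h | h
    · rw [abs_of_nonneg h, max_eq_right (by linarith)]; ring
    · rw [abs_of_nonpos h, max_eq_left (by linarith)]; ring
  have h3 : ∑' k : ℕ, max (-gcos α (wf (k : ℕ))) 0 ≤
      gConst α / π * (3 / 10 * gConst α ^ (-(1 / (1 - α)))) ^ (-α) :=
    Real.tsum_le_of_sum_range_le (fun k => le_max_right _ _) (fun n => sum_neg_part hα hα1 n)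
  rw [h1, h2, gcos_sum hα hα1]
  have hε : 0 < 1 - α := by linarith
  have h4 : (3 / 10 * gConst α ^ (-(1 / (1 - α)))) ^ (-α) =
      (3 / 10 : ℝ) ^ (-α) * gConst α ^ (α / (1 - α)) := by
    rw [mul_rpow (by norm_num) (by positivity), ← rpow_mul hG.le]
    congr 2
    field_simp
  have h5 : gConst α * gConst α ^ (α / (1 - α)) = gConst α ^ (1 / (1 - α)) := by
    have : 1 / (1 - α) = 1 + α / (1 - α) := by field_simp; ring
    rw [this, rpow_add hG, rpow_one]
  have h6 : (3 / 10 : ℝ) ^ (-α) ≤ 10 / 3 := by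
    have : (3 / 10 : ℝ) ^ (-α) ≤ (3 / 10 : ℝ) ^ (-1 : ℝ) :=
      rpow_le_rpow_of_exponent_ge (by norm_num) (by norm_num) (by linarith)
    refine this.trans ?_
    rw [rpow_neg_one]; norm_num
  have h7 : gConst α / π * (3 / 10 * gConst α ^ (-(1 / (1 - α)))) ^ (-α) ≤
      5 / 4 * gConst α ^ (1 / (1 - α)) := by
    rw [h4, ← h5]
    have hp : 0 < gConst α ^ (α / (1 - α)) := by positivity
    have : gConst α / π * ((3 / 10 : ℝ) ^ (-α) * gConst α ^ (α / (1 - α))) =
        ((3 / 10 : ℝ) ^ (-α) / π) * (gConst α * gConst α ^ (α / (1 - α))) := by ring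
    rw [this]
    apply mul_le_mul_of_nonneg_right _ (by positivity)
    rw [div_le_iff₀ pi_pos]
    nlinarith [pi_gt_three]
  linarith

theorem admissible_nonempty {α : ℝ} (hα : 0 < α) (hα1 : α < 1) : ∃ μ, Admissible α μ := by
  obtain ⟨μ, hμ, _⟩ := upper_bound hα hα1
  exact ⟨μ, hμ⟩

theorem bernsteinNorm_upper {α : ℝ} (hα : 0 < α) (hα1 : α < 1) :
    bernsteinNorm α ≤ 1 + 5 * gConst α ^ (1 / (1 - α)) := by
  obtain ⟨μ, hμ, h⟩ := upper_bound hα hα1
  exact (bernsteinNorm_le hμ).trans h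

end Pool.Agent.Helper78.Bern
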