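import Pool.Agent.S06207

set_option autoImplicit false

/-!
Convex hulls of orbits: strengthened versions of the lemmas in `Pool.Agent.S06207`
(the eigenvalue found there is real, or of modulus at most one; completeness is not used).
-/

namespace Pool.Agent.Helper78.ConvOrb

open Filter Topology Set Pool.Agent.S06207

variable {X : Type*} [NormedAddCommGroup X] [NormedSpace ℂ X]

lemma compact_eigen_mem (T : X →L[ℂ] X) (S : Set ℂ) (hS : IsClosed S) (h : ℕ → (X →L[ℂ] ℂ))
    (lam : ℕ → ℂ) (hlamS : ∀ n, lam n ∈ S) (K δ : ℝ) (w : X)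
    (hδ : 0 < δ) (hK : ∀ n, ‖h n‖ ≤ K) (hw : ∀ n, δ ≤ ‖h n w‖)
    (hlim : ∀ y, Tendsto (fun n => h n (T y) - lam n * h n y) atTop (𝓝 0)) :
    ∃ (c : ℂ) (φ : X →L[ℂ] ℂ), c ∈ S ∧ φ.comp T = c • φ ∧ φ ≠ 0 := by
  let U : Ultrafilter ℕ := hyperfilter ℕ
  have hU : (U : Filter ℕ) ≤ atTop := by
    rw [← Nat.cofinite_eq_atTop]; exact hyperfilter_le_cofinite
  have hcomp := WeakDual.isCompact_closedBall (𝕜 := ℂ) (E := X) (0 : StrongDual ℂ X) K
  let g : ℕ → WeakDual ℂ X := fun n => StrongDual.toWeakDual (h n)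
  have hmem : ∀ n, g n ∈ (WeakDual.toStrongDual ⁻¹' Metric.closedBall (0 : StrongDual ℂ X) K) := by
    intro n
    simp only [Set.mem_preimage, mem_closedBall_zero_iff]
    exact hK n
  have hle : ((U.map g : Ultrafilter (WeakDual ℂ X)) : Filter (WeakDual ℂ X)) ≤
      𝓟 (WeakDual.toStrongDual ⁻¹' Metric.closedBall (0 : StrongDual ℂ X) K) := by
    rw [le_principal_iff, Ultrafilter.mem_coe, Ultrafilter.mem_map]
    exact Filter.univ_mem' hmem
  obtain ⟨φ, hφ, hφlim⟩ := hcomp.ultrafilter_le_nhds _ hle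
  have hev : ∀ y : X, Tendsto (fun n => h n y) U (𝓝 (φ y)) := by
    intro y
    have h1 : Tendsto (fun ψ : WeakDual ℂ X => ψ y) (𝓝 φ) (𝓝 (φ y)) :=
      (WeakDual.eval_continuous y).tendsto φ
    have h2 : Tendsto g U (𝓝 φ) := hφlim
    exact h1.comp h2
  have hφw : δ ≤ ‖φ w‖ := by
    have h1 : Tendsto (fun n => ‖h n w‖) U (𝓝 ‖φ w‖) := (hev w).norm
    exact ge_of_tendsto h1 (Eventually.of_forall hw)
  have hφw0 : φ w ≠ 0 := by
    intro h0
    rw [h0, norm_zero] at hφw
    linarith
  -- convergence of the eigenvalues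
  have hlamlim : Tendsto lam U (𝓝 (φ (T w) / φ w)) := by
    have h1 : Tendsto (fun n => (h n (T w) - (h n (T w) - lam n * h n w)) / h n w) U
        (𝓝 ((φ (T w) - 0) / φ w)) :=
      ((hev (T w)).sub ((hlim w).mono_left hU)).div (hev w) hφw0
    rw [sub_zero] at h1
    refine h1.congr ?_
    intro n
    have hne : h n w ≠ 0 := by
      intro h0
      have := hw n
      rw [h0, norm_zero] at this
      linarith
    field_simp
    ring
  refine ⟨φ (T w) / φ w, WeakDual.toStrongDual φ,
    hS.mem_of_tendsto hlamlim (Eventually.of_forall hlamS), ?_, ?_⟩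
  · ext y
    have h1 : Tendsto (fun n => h n (T y) - lam n * h n y) U
        (𝓝 (φ (T y) - (φ (T w) / φ w) * φ y)) :=
      (hev (T y)).sub (hlamlim.mul (hev y))
    have h2 : Tendsto (fun n => h n (T y) - lam n * h n y) U (𝓝 0) := (hlim y).mono_left hU
    have h3 := tendsto_nhds_unique h1 h2
    have h4 : φ (T y) = (φ (T w) / φ w) * φ y := sub_eq_zero.mp h3
    simpa using h4
  · intro h0
    apply hφw0
    have : (WeakDual.toStrongDual φ) w = (0 : X →L[ℂ] ℂ) w := by rw [h0]
    simpa using this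

section Cone

variable {T : X →L[ℂ] X} {C : Set X} {x0 : X}

/-- Elementary Krein-Rutman theorem for the adjoint, with a real eigenvalue. -/
lemma krein_rutman_real {r : ℝ} (hTC : ∀ y ∈ C, T y ∈ C)
    (hr : 0 < r) (hball : ∀ y, ‖y‖ ≤ r → x0 - y ∈ C)
    {f : X →L[ℂ] ℂ} (hf : InP C f) (hf0 : f ≠ 0) :
    ∃ (c : ℂ) (φ : X →L[ℂ] ℂ), c ∈ {z : ℂ | z.im = 0} ∧ φ.comp T = c • φ ∧ φ ≠ 0 := by
  have hx0 : x0 ∈ C := by
    have := hball 0 (by rw [norm_zero]; exact hr.le)
    simpa using this
  have hnorm1 : ∀ g : X →L[ℂ] ℂ, InP C g → g ≠ 0 →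
      ∃ g' : X →L[ℂ] ℂ, InP C g' ∧ (g' x0).re = 1 ∧ ∀ y, (g y).re = (g x0).re * (g' y).re := by
    intro g hg hg0
    have h1 := hg.norm_le hr hball
    have h2 : 0 < ‖g‖ := norm_pos_iff.mpr hg0
    have h3 : 0 < (g x0).re := by
      by_contra hcon
      have : (g x0).re / r ≤ 0 := div_nonpos_of_nonpos_of_nonneg (not_lt.mp hcon) hr.le
      linarith
    refine ⟨(((g x0).re⁻¹ : ℝ) : ℂ) • g, ?_, ?_, ?_⟩
    · intro c hc
      rw [smul_apply, smul_eq_mul, Complex.re_ofReal_mul]
      exact mul_nonneg (inv_nonneg.mpr h3.le) (hg c hc)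
    · rw [smul_apply, smul_eq_mul, Complex.re_ofReal_mul]
      exact inv_mul_cancel₀ h3.ne'
    · intro y
      rw [smul_apply, smul_eq_mul, Complex.re_ofReal_mul, ← mul_assoc,
        mul_inv_cancel₀ h3.ne', one_mul]
  -- approximate eigenvectors
  have happrox : ∀ ε : ℝ, 0 < ε → ∃ (h : X →L[ℂ] ℂ) (lam : ℂ), InP C h ∧ (h x0).re = 1 ∧ lam.im = 0 ∧
      ∀ y, ‖h (T y) - lam * h y‖ ≤ ε * ‖y‖ := by
    intro ε hε
    obtain ⟨f1, hf1P, hf11, -⟩ := hnorm1 f hf hf0
    by_cases hall : ∀ q : ℝ, 0 < q → ∃ M, B T C x0 q M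
    · -- case of infinite radius
      set q : ℝ := 2 / (r * ε) with hq
      have hq0 : 0 < q := by positivity
      obtain ⟨M, hM⟩ := hall q hq0
      obtain ⟨h, hP, h1, hh⟩ := step (hM.weaken hx0 (le_max_left M 1)) hTC hx0 hr hball hq0
        (le_max_right M 1) hf1P hf11 1 (R := 1) one_pos (by simp [hf11])
      refine ⟨h, _, hP, h1, Complex.ofReal_im _, fun y => le_trans (hh y) ?_⟩
      apply mul_le_mul_of_nonneg_right _ (norm_nonneg y)
      rw [hq]
      apply le_of_eq
      field_simp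
    · push Not at hall
      obtain ⟨q1, hq10, hq1⟩ := hall
      -- small q are good
      have hsmallq : ∃ q0 > 0, ∃ M, B T C x0 q0 M := by
        refine ⟨1 / (2 * (‖T‖ + 1)), by positivity, 2 * (‖x0‖ / r), ?_⟩
        intro g hg n
        have hgn := hg.norm_le hr hball
        have hgx : 0 ≤ (g x0).re := hg _ hx0
        have h1 : ∀ k, (1 / (2 * (‖T‖ + 1))) ^ k * (g ((T ^ k) x0)).re ≤
            (1 / 2 : ℝ) ^ k * (‖x0‖ / r * (g x0).re) := by
          intro k
          have h2 : (g ((T ^ k) x0)).re ≤ ‖g‖ * (‖T‖ ^ k * ‖x0‖) := by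
            calc (g ((T ^ k) x0)).re ≤ ‖g ((T ^ k) x0)‖ := Complex.re_le_norm _
              _ ≤ ‖g‖ * ‖(T ^ k) x0‖ := g.le_opNorm _
              _ ≤ ‖g‖ * (‖T ^ k‖ * ‖x0‖) :=
                  mul_le_mul_of_nonneg_left ((T ^ k).le_opNorm x0) (norm_nonneg g)
              _ ≤ ‖g‖ * (‖T‖ ^ k * ‖x0‖) := by
                  gcongr
                  exact norm_pow_le_pow_norm_cl T k
          have h3 : (1 / (2 * (‖T‖ + 1))) ^ k * ‖T‖ ^ k ≤ (1 / 2 : ℝ) ^ k := by
            rw [← mul_pow]
            apply pow_le_pow_left₀ (by positivity)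
            rw [div_mul_eq_mul_div, one_mul, div_le_div_iff₀ (by positivity) (by norm_num)]
            nlinarith [norm_nonneg T]
          calc (1 / (2 * (‖T‖ + 1))) ^ k * (g ((T ^ k) x0)).re
              ≤ (1 / (2 * (‖T‖ + 1))) ^ k * (‖g‖ * (‖T‖ ^ k * ‖x0‖)) :=
                mul_le_mul_of_nonneg_left h2 (by positivity)
            _ = ((1 / (2 * (‖T‖ + 1))) ^ k * ‖T‖ ^ k) * (‖g‖ * ‖x0‖) := by ring
            _ ≤ (1 / 2 : ℝ) ^ k * (((g x0).re / r) * ‖x0‖) := by
                apply mul_le_mul h3 _ (by positivity) (by positivity)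
                exact mul_le_mul_of_nonneg_right hgn (norm_nonneg x0)
            _ = (1 / 2 : ℝ) ^ k * (‖x0‖ / r * (g x0).re) := by ring
        calc ∑ k ∈ Finset.range n, (1 / (2 * (‖T‖ + 1))) ^ k * (g ((T ^ k) x0)).re
            ≤ ∑ k ∈ Finset.range n, (1 / 2 : ℝ) ^ k * (‖x0‖ / r * (g x0).re) :=
              Finset.sum_le_sum (fun k _ => h1 k)
          _ = (∑ k ∈ Finset.range n, (1 / 2 : ℝ) ^ k) * (‖x0‖ / r * (g x0).re) := by
              rw [Finset.sum_mul]
          _ ≤ 2 * (‖x0‖ / r * (g x0).re) := by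
              apply mul_le_mul_of_nonneg_right _ (by positivity)
              have h5 := geom_sum_mul_neg (1 / 2 : ℝ) n
              have h6 : (0 : ℝ) ≤ (1 / 2 : ℝ) ^ n := by positivity
              nlinarith
          _ = 2 * (‖x0‖ / r) * (g x0).re := by ring
      set Q : Set ℝ := {q | 0 < q ∧ ∃ M, B T C x0 q M} with hQ
      have hQne : Q.Nonempty := by
        obtain ⟨q0, hq0, hM⟩ := hsmallq
        exact ⟨q0, hq0, hM⟩
      have hQb : BddAbove Q := by
        refine ⟨q1, ?_⟩
        rintro q ⟨hq0, M, hM⟩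
        by_contra hcon
        push Not at hcon
        exact hq1 M (hM.mono hTC hx0 hq10.le hcon.le)
      set qs : ℝ := sSup Q with hqs
      have hqs0 : 0 < qs := by
        obtain ⟨q0, hq0⟩ := hQne
        exact lt_of_lt_of_le hq0.1 (le_csSup hQb hq0)
      have hqsnot : ∀ M, ¬ B T C x0 qs M := by
        intro M hM
        obtain ⟨q', M', hq', hM'⟩ := (hM.weaken hx0 (le_max_left M 1)).open hTC hx0 hqs0
          (le_max_right M 1)
        have : q' ∈ Q := ⟨lt_trans hqs0 hq', M', hM'⟩
        have := le_csSup hQb this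
        linarith
      have hlt : ∀ q, 0 < q → q < qs → ∃ M, B T C x0 q M := by
        intro q hq0 hq
        obtain ⟨q', hq'Q, hqq'⟩ := exists_lt_of_lt_csSup hQne hq
        obtain ⟨M, hM⟩ := hq'Q.2
        exact ⟨M, hM.mono hTC hx0 hq0.le hqq'.le⟩
      -- pick a bad functional
      set R : ℝ := 4 / (r * qs * ε) with hR
      have hR0 : 0 < R := by positivity
      have hbad := hqsnot R
      unfold B at hbad
      push Not at hbad
      obtain ⟨g, hgP, n, hgn⟩ := hbad
      have hg0 : g ≠ 0 := by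
        rintro rfl
        simp at hgn
      obtain ⟨g', hg'P, hg'1, hg'⟩ := hnorm1 g hgP hg0
      have hgx0 : 0 ≤ (g x0).re := hgP _ hx0
      have hg'n : R < ∑ k ∈ Finset.range n, qs ^ k * (g' ((T ^ k) x0)).re := by
        have h1 : ∑ k ∈ Finset.range n, qs ^ k * (g ((T ^ k) x0)).re =
            (∑ k ∈ Finset.range n, qs ^ k * (g' ((T ^ k) x0)).re) * (g x0).re := by
          rw [Finset.sum_mul]
          apply Finset.sum_congr rfl
          intro k _
          rw [hg' ((T ^ k) x0)]
          ring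
        rw [h1] at hgn
        have h2 : 0 < (g x0).re := by
          rcases hgx0.lt_or_eq with h | h
          · exact h
          · rw [← h] at hgn; simp at hgn
        exact lt_of_mul_lt_mul_right hgn h2.le
      -- continuity in q
      have hcont : Continuous (fun q : ℝ =>
          ∑ k ∈ Finset.range n, q ^ k * (g' ((T ^ k) x0)).re) := by fun_prop
      have hnhds : ∀ᶠ q in 𝓝 qs, R < ∑ k ∈ Finset.range n, q ^ k * (g' ((T ^ k) x0)).re :=
        hcont.continuousAt.eventually (lt_mem_nhds hg'n)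
      have hnhds2 : ∀ᶠ q in 𝓝 qs, qs / 2 < q := lt_mem_nhds (by linarith)
      obtain ⟨q, ⟨hq1', hq2'⟩, hq3'⟩ := ((hnhds.and hnhds2).filter_mono
        (nhdsWithin_le_nhds (s := Set.Iio qs))).and self_mem_nhdsWithin |>.exists
      have hq0 : 0 < q := by linarith
      obtain ⟨M, hM⟩ := hlt q hq0 hq3'
      obtain ⟨h, hP, h1, hh⟩ := step (hM.weaken hx0 (le_max_left M 1)) hTC hx0 hr hball hq0
        (le_max_right M 1) hg'P hg'1 n hR0 hq1'.le
      refine ⟨h, _, hP, h1, Complex.ofReal_im _, fun y => le_trans (hh y) ?_⟩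
      apply mul_le_mul_of_nonneg_right _ (norm_nonneg y)
      rw [hR, div_le_iff₀ (by positivity)]
      have : r * q * (4 / (r * qs * ε)) = 4 * q / (qs * ε) := by field_simp
      rw [this, mul_div_assoc']
      rw [le_div_iff₀ (by positivity)]
      nlinarith [mul_pos hqs0 hε]
  choose h lam hP h1 him hh using fun n : ℕ => happrox (1 / ((n : ℝ) + 1)) (by positivity)
  refine compact_eigen_mem T _ (isClosed_singleton.preimage Complex.continuous_im) h lam him
    (1 / r) 1 x0 one_pos ?_ ?_ ?_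
  · intro n
    have := (hP n).norm_le hr hball
    rwa [h1 n] at this
  · intro n
    rw [← h1 n]
    exact Complex.re_le_norm _
  · intro y
    rw [tendsto_zero_iff_norm_tendsto_zero]
    refine squeeze_zero (fun n => norm_nonneg _) (fun n => hh n y) ?_
    have : Tendsto (fun n : ℕ => 1 / ((n : ℝ) + 1) * ‖y‖) atTop (𝓝 (0 * ‖y‖)) :=
      tendsto_one_div_add_atTop_nhds_zero_nat.mul_const _
    simpa using this

end Cone

lemma bounded_case_norm (T : X →L[ℂ] X) (x : X) (C : Set X) (x0 : X) (r : ℝ) (hr : 0 < r)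
    (hball : ∀ y, ‖y‖ ≤ r → x0 - y ∈ C)
    (hC : ∀ (f : X →L[ℂ] ℂ) (M : ℝ), (∀ n, ‖f ((T ^ n) x)‖ ≤ M) → ∀ c ∈ C, ‖f c‖ ≤ M)
    (f0 : X →L[ℂ] ℂ) (hf0 : f0 ≠ 0) (M0 : ℝ) (hM0 : ∀ n, ‖f0 ((T ^ n) x)‖ ≤ M0) :
    ∃ (c : ℂ) (φ : X →L[ℂ] ℂ), c ∈ {z : ℂ | ‖z‖ ≤ 1} ∧ φ.comp T = c • φ ∧ φ ≠ 0 := by
  have hx0 : x0 ∈ C := by
    have := hball 0 (by rw [norm_zero]; exact hr.le)
    simpa using this
  -- the norm of a functional is controlled by its values on the orbit
  have hnorm : ∀ (f : X →L[ℂ] ℂ) (M : ℝ), (∀ n, ‖f ((T ^ n) x)‖ ≤ M) → ‖f‖ ≤ 2 * M / r := by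
    intro f M hM
    apply ContinuousLinearMap.opNorm_bound_of_ball_bound hr
    intro z hz
    rw [mem_closedBall_zero_iff] at hz
    have h1 := hC f M hM _ hx0
    have h2 := hC f M hM _ (hball z hz)
    have h3 : f z = f x0 - f (x0 - z) := by rw [map_sub]; ring
    rw [h3]
    refine le_trans (norm_sub_le _ _) ?_
    linarith
  -- V is closed
  have hVclosed : IsClosed (V T x : Set (BoundedContinuousFunction ℕ ℂ)) := by
    apply isClosed_of_closure_subset
    intro a ha
    obtain ⟨ak, hak, hlim⟩ := mem_closure_iff_seq_limit.mp ha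
    choose fk hfk using hak
    have hcau : CauchySeq fk := by
      have hca : CauchySeq ak := hlim.cauchySeq
      rw [Metric.cauchySeq_iff] at hca ⊢
      intro ε hε
      obtain ⟨N, hN⟩ := hca (ε * r / 4) (by positivity)
      refine ⟨N, fun m hm n hn => ?_⟩
      have h1 := hN m hm n hn
      rw [dist_eq_norm] at h1 ⊢
      have h2 : ‖fk m - fk n‖ ≤ 2 * ‖ak m - ak n‖ / r := by
        apply hnorm
        intro k
        have := (ak m - ak n).norm_coe_le_norm k
        rw [BoundedContinuousFunction.coe_sub, Pi.sub_apply, hfk, hfk] at this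
        exact this
      refine lt_of_le_of_lt h2 ?_
      rw [div_lt_iff₀ hr]
      nlinarith
    obtain ⟨f, hf⟩ := cauchySeq_tendsto_of_complete hcau
    refine ⟨f, fun n => ?_⟩
    have h1 : Tendsto (fun k => ak k n) atTop (𝓝 (a n)) := by
      have := (continuous_eval_const (F := BoundedContinuousFunction ℕ ℂ) n).tendsto a
      exact this.comp hlim
    have h2 : Tendsto (fun k => fk k ((T ^ n) x)) atTop (𝓝 (f ((T ^ n) x))) := by
      have := (ContinuousLinearMap.apply ℂ ℂ ((T ^ n) x)).continuous.tendsto f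
      exact this.comp hf
    have h3 : (fun k => ak k n) = (fun k => fk k ((T ^ n) x)) := by
      funext k; exact hfk k n
    rw [h3] at h1
    exact tendsto_nhds_unique h1 h2
  have : CompleteSpace (V T x) := hVclosed.completeSpace_coe
  -- V is nontrivial
  have : Nontrivial (V T x) := by
    let a0 : BoundedContinuousFunction ℕ ℂ :=
      BoundedContinuousFunction.ofNormedAddCommGroup (fun n => f0 ((T ^ n) x))
        continuous_of_discreteTopology M0 hM0
    refine ⟨⟨⟨a0, f0, fun n => rfl⟩, 0, ?_⟩⟩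
    intro h
    apply hf0
    have h1 : ∀ n, f0 ((T ^ n) x) = 0 := by
      intro n
      have h2 : a0 = 0 := congrArg Subtype.val h
      have h3 : a0 n = 0 := by rw [h2]; rfl
      exact h3
    have h4 : ‖f0‖ ≤ 2 * 0 / r := hnorm f0 0 (fun n => by rw [h1 n, norm_zero])
    rw [mul_zero, zero_div] at h4
    exact norm_le_zero_iff.mp h4
  obtain ⟨lam, hlam⟩ := exists_approx_eigen (L T x)
  have hlam1 : ‖lam‖ ≤ 1 := by
    apply le_of_forall_pos_le_add
    intro ε hε
    obtain ⟨a, ha0, haε⟩ := hlam ε hε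
    have hapos : 0 < ‖a‖ := norm_pos_iff.mpr ha0
    have h1 : ‖L T x a‖ ≤ 1 * ‖a‖ :=
      (L T x).le_of_opNorm_le (LinearMap.mkContinuous_norm_le _ zero_le_one _) a
    have h2 : ‖lam • a‖ ≤ ‖L T x a‖ + ‖L T x a - lam • a‖ := by
      have h3 : lam • a = L T x a - (L T x a - lam • a) := by abel
      calc ‖lam • a‖ = ‖L T x a - (L T x a - lam • a)‖ := by rw [← h3]
        _ ≤ _ := norm_sub_le _ _
    rw [norm_smul] at h2
    nlinarith
  have happrox : ∀ ε : ℝ, 0 < ε → ∃ h : X →L[ℂ] ℂ, ‖h‖ ≤ 2 / r ∧ 1 / 2 ≤ ‖h x‖ ∧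
      ∀ y, ‖h (T y) - lam * h y‖ ≤ 2 * ε / r * ‖y‖ := by
    intro ε hε
    obtain ⟨a, ha0, haε⟩ := hlam ε hε
    have hapos : 0 < ‖a‖ := norm_pos_iff.mpr ha0
    obtain ⟨f, hf⟩ := a.2
    -- an index where a is large
    have hn : ∃ n, ‖a‖ / 2 ≤ ‖a.1 n‖ := by
      by_contra hcon
      push Not at hcon
      have h1 : ‖a.1‖ ≤ ‖a‖ / 2 := by
        rw [BoundedContinuousFunction.norm_le (by positivity)]
        intro n
        exact (hcon n).le
      have h2 : ‖a.1‖ = ‖a‖ := rfl
      rw [h2] at h1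
      linarith
    obtain ⟨n, hn⟩ := hn
    have hcoe : ∀ k, ‖a.1 k‖ ≤ ‖a‖ := fun k => a.1.norm_coe_le_norm k
    let h : X →L[ℂ] ℂ := ((‖a‖⁻¹ : ℝ) : ℂ) • f.comp (T ^ n)
    have hh : ∀ k, h ((T ^ k) x) = ((‖a‖⁻¹ : ℝ) : ℂ) * a.1 (n + k) := by
      intro k
      rw [hf (n + k), pow_add]
      rfl
    have hhn : ∀ k, ‖h ((T ^ k) x)‖ ≤ 1 := by
      intro k
      rw [hh, norm_mul, Complex.norm_real, Real.norm_of_nonneg (inv_nonneg.mpr hapos.le)]
      rw [inv_mul_le_iff₀ hapos, mul_one]
      exact hcoe _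
    refine ⟨h, ?_, ?_, ?_⟩
    · have := hnorm h 1 hhn
      rwa [mul_one] at this
    · have h1 := hh 0
      rw [pow_zero, add_zero] at h1
      have h2 : h x = ((‖a‖⁻¹ : ℝ) : ℂ) * a.1 n := h1
      rw [h2, norm_mul, Complex.norm_real, Real.norm_of_nonneg (inv_nonneg.mpr hapos.le)]
      rw [← div_eq_inv_mul, le_div_iff₀ hapos]
      linarith
    · have h3 : ‖h.comp T - lam • h‖ ≤ 2 * ε / r := by
        apply hnorm
        intro k
        have h4 : (h.comp T - lam • h) ((T ^ k) x) =
            ((‖a‖⁻¹ : ℝ) : ℂ) * (L T x a - lam • a).1 (n + k) := by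
          have h5 : (h.comp T) ((T ^ k) x) = h ((T ^ (k + 1)) x) := by
            rw [pow_succ']; rfl
          have h6 : (L T x a - lam • a).1 (n + k) = a.1 (n + (k + 1)) - lam * a.1 (n + k) := rfl
          have h7 : (h.comp T - lam • h) ((T ^ k) x) =
            (h.comp T) ((T ^ k) x) - lam * h ((T ^ k) x) := rfl
          rw [h7, h5, hh, hh, h6]
          ring
        rw [h4, norm_mul, Complex.norm_real, Real.norm_of_nonneg (inv_nonneg.mpr hapos.le)]
        rw [inv_mul_le_iff₀ hapos]
        have h8 : ‖(L T x a - lam • a).1 (n + k)‖ ≤ ‖L T x a - lam • a‖ :=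
          (L T x a - lam • a).1.norm_coe_le_norm _
        calc ‖(L T x a - lam • a).1 (n + k)‖ ≤ ‖L T x a - lam • a‖ := h8
          _ ≤ ε * ‖a‖ := haε
          _ = ‖a‖ * ε := by ring
      intro y
      have h9 := (h.comp T - lam • h).le_opNorm y
      refine le_trans h9 (mul_le_mul_of_nonneg_right h3 (norm_nonneg y))
  choose h hK hw hh using fun n : ℕ => happrox (1 / ((n : ℝ) + 1)) (by positivity)
  refine compact_eigen_mem T _ (isClosed_le continuous_norm continuous_const) h (fun _ => lam)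
    (fun _ => hlam1) (2 / r) (1 / 2) x (by norm_num) hK hw ?_
  intro y
  rw [tendsto_zero_iff_norm_tendsto_zero]
  refine squeeze_zero (fun n => norm_nonneg _) (fun n => hh n y) ?_
  have : Tendsto (fun n : ℕ => 2 * (1 / ((n : ℝ) + 1)) / r * ‖y‖) atTop
      (𝓝 (2 * 0 / r * ‖y‖)) :=
    ((tendsto_one_div_add_atTop_nhds_zero_nat.const_mul 2).div_const r).mul_const _
  simpa using this


/-- If the closed convex hull of an orbit has interior but is not the whole space, then the adjoint
has an eigenvalue which is real or of modulus at most one. -/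
theorem exists_eigen (T : X →L[ℂ] X) (x : X)
    (hint : (interior (closure (convexHull ℝ (Set.range (fun n : ℕ => (T ^ n) x))))).Nonempty)
    (hne : closure (convexHull ℝ (Set.range (fun n : ℕ => (T ^ n) x))) ≠ Set.univ) :
    ∃ (c : ℂ) (φ : X →L[ℂ] ℂ), (‖c‖ ≤ 1 ∨ c.im = 0) ∧ φ.comp T = c • φ ∧ φ ≠ 0 := by
  set O : Set X := Set.range (fun n : ℕ => (T ^ n) x) with hO
  set C : Set X := closure (convexHull ℝ O) with hC
  have hCconv : Convex ℝ C := (convex_convexHull ℝ O).closure
  have hCclosed : IsClosed C := isClosed_closure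
  have hOC : O ⊆ C := (subset_convexHull ℝ O).trans subset_closure
  -- closed convex sets containing the orbit contain C
  have hmin : ∀ D : Set X, Convex ℝ D → IsClosed D → O ⊆ D → C ⊆ D := by
    intro D hD1 hD2 hD3
    exact closure_minimal (convexHull_min hD3 hD1) hD2
  -- T maps C to itself
  have hTC : ∀ y ∈ C, T y ∈ C := by
    intro y hy
    have h1 : C ⊆ T ⁻¹' C := by
      apply hmin
      · exact hCconv.linear_preimage (T.restrictScalars ℝ).toLinearMap
      · exact hCclosed.preimage T.continuous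
      · rintro _ ⟨n, rfl⟩
        apply hOC
        refine ⟨n + 1, ?_⟩
        simp only [pow_succ']
        rfl
    exact h1 hy
  -- a ball inside C
  have hball : ∀ z ∈ interior C, ∃ r > 0, ∀ y, ‖y‖ ≤ r → z - y ∈ C := by
    intro z hz
    obtain ⟨ε, hε, hsub⟩ := Metric.isOpen_iff.mp isOpen_interior z hz
    refine ⟨ε / 2, by positivity, fun y hy => ?_⟩
    apply interior_subset
    apply hsub
    rw [Metric.mem_ball, dist_eq_norm, sub_sub_cancel_left, norm_neg]
    linarith
  by_cases h0 : (0 : X) ∈ interior C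
  · -- bounded case
    obtain ⟨r, hr, hrb⟩ := hball 0 h0
    -- a functional bounded on C
    obtain ⟨z, hz⟩ : ∃ z, z ∉ C := by
      by_contra hcon
      push Not at hcon
      exact hne (Set.eq_univ_of_forall hcon)
    obtain ⟨f, u, hfu, huz⟩ := RCLike.geometric_hahn_banach_closed_point (𝕜 := ℂ) hCconv
      hCclosed hz
    have hbd : ∀ n, ‖f ((T ^ n) x)‖ ≤ u * ((‖x‖ + 1) / r) := by
      intro n
      have h1 : ∀ y, ‖y‖ ≤ r → ((f.comp (T ^ n)) y).re ≤ u := by
        intro y hy
        have h2 : y ∈ C := by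
          have := hrb (-y) (by rw [norm_neg]; exact hy)
          simpa using this
        have h3 := pow_mem hTC n y h2
        exact (hfu _ h3).le
      have hs : ‖((r / (‖x‖ + 1) : ℝ) : ℂ) • x‖ ≤ r := by
        rw [norm_smul, Complex.norm_real, Real.norm_of_nonneg (by positivity)]
        rw [div_mul_eq_mul_div, div_le_iff₀ (by positivity)]
        nlinarith [norm_nonneg x]
      have h4 := norm_le_of_re_le (f.comp (T ^ n)) r u h1 _ hs
      rw [map_smul, norm_smul, Complex.norm_real, Real.norm_of_nonneg (by positivity)] at h4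
      have h5 : ‖(f.comp (T ^ n)) x‖ = (r / (‖x‖ + 1) * ‖(f.comp (T ^ n)) x‖) *
          ((‖x‖ + 1) / r) := by
        field_simp
      calc ‖f ((T ^ n) x)‖ = ‖(f.comp (T ^ n)) x‖ := rfl
        _ = (r / (‖x‖ + 1) * ‖(f.comp (T ^ n)) x‖) * ((‖x‖ + 1) / r) := h5
        _ ≤ u * ((‖x‖ + 1) / r) := mul_le_mul_of_nonneg_right h4 (by positivity)
    obtain ⟨c, φ, hc, hφ, hφ0⟩ : ∃ (c : ℂ) (φ : X →L[ℂ] ℂ), c ∈ {z : ℂ | ‖z‖ ≤ 1} ∧
        φ.comp T = c • φ ∧ φ ≠ 0 := by
      refine bounded_case_norm T x C 0 r hr hrb ?_ f ?_ _ hbd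
      · intro g M hg c hc
        have h1 : C ⊆ g ⁻¹' Metric.closedBall 0 M := by
          apply hmin
          · exact (convex_closedBall (0 : ℂ) M).linear_preimage
              (g.restrictScalars ℝ).toLinearMap
          · exact Metric.isClosed_closedBall.preimage g.continuous
          · rintro _ ⟨n, rfl⟩
            simp only [Set.mem_preimage, mem_closedBall_zero_iff]
            exact hg n
        have := h1 hc
        simpa using this
      · rintro rfl
        have h1 := hfu 0 (interior_subset h0)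
        simp at h1 huz
        linarith
    exact ⟨c, φ, Or.inl hc, hφ, hφ0⟩
  · -- unbounded case
    obtain ⟨z, hz⟩ := hint
    obtain ⟨r, hr, hrb⟩ := hball z hz
    obtain ⟨f, hf⟩ := RCLike.geometric_hahn_banach_open_point (𝕜 := ℂ) hCconv.interior
      isOpen_interior h0
    have hfP : InP C (-f) := by
      intro c hc
      have hcl : C ⊆ closure (interior C) := by
        rw [hCconv.closure_interior_eq_closure_of_nonempty_interior ⟨z, hz⟩]
        exact subset_closure
      have h1 : closure (interior C) ⊆ {y : X | 0 ≤ ((-f) y).re} := by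
        apply closure_minimal
        · intro y hy
          have := hf y hy
          simp only [map_zero, RCLike.re_eq_complex_re] at this
          show 0 ≤ (-(f y)).re
          rw [Complex.neg_re]
          linarith
        · have hcont : Continuous (fun y : X => ((-f) y).re) :=
            Complex.continuous_re.comp (-f).continuous
          exact isClosed_le continuous_const hcont
      exact h1 (hcl hc)
    obtain ⟨c, φ, hc, hφ, hφ0⟩ : ∃ (c : ℂ) (φ : X →L[ℂ] ℂ), c ∈ {z : ℂ | z.im = 0} ∧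
        φ.comp T = c • φ ∧ φ ≠ 0 := by
      refine krein_rutman_real hTC hr hrb hfP ?_
      intro h1
      have h2 := hf z hz
      have h3 : f = 0 := neg_eq_zero.mp h1
      rw [h3] at h2
      simp at h2
    exact ⟨c, φ, Or.inr hc, hφ, hφ0⟩

/-- Conversely: if the adjoint has an eigenvalue which is real or of modulus at most one, then no
orbit has a dense convex hull. -/
theorem not_dense_of_eigen (T : X →L[ℂ] X) (x : X) (c : ℂ) (φ : X →L[ℂ] ℂ)
    (hc : ‖c‖ ≤ 1 ∨ c.im = 0) (h : φ.comp T = c • φ) (hφ : φ ≠ 0) :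
    ¬ Dense (convexHull ℝ (Set.range (fun n : ℕ => (T ^ n) x))) := by
  intro hd
  have hpow : ∀ n : ℕ, φ ((T ^ n) x) = c ^ n * φ x := by
    intro n
    induction n with
    | zero => simp
    | succ n ih =>
      have h1 : φ (T ((T ^ n) x)) = c * φ ((T ^ n) x) := by
        have := DFunLike.congr_fun h ((T ^ n) x)
        simpa using this
      have h2 : (T ^ (n + 1)) x = T ((T ^ n) x) := by rw [pow_succ']; rfl
      rw [h2, h1, ih]; ring
  -- closed convex sets containing the orbit are everything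
  have huniv : ∀ D : Set X, Convex ℝ D → IsClosed D → (∀ n : ℕ, (T ^ n) x ∈ D) → ∀ y, y ∈ D := by
    intro D hD1 hD2 hD3 y
    have h1 : convexHull ℝ (Set.range (fun n : ℕ => (T ^ n) x)) ⊆ D :=
      convexHull_min (by rintro _ ⟨n, rfl⟩; exact hD3 n) hD1
    exact closure_minimal h1 hD2 (hd y)
  apply hφ
  rcases hc with hc | hc
  · -- bounded
    have hb : ∀ y, ‖φ y‖ ≤ ‖φ x‖ := by
      intro y
      have := huniv (φ ⁻¹' Metric.closedBall 0 ‖φ x‖)
        ((convex_closedBall (0 : ℂ) ‖φ x‖).linear_preimage (φ.restrictScalars ℝ).toLinearMap)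
        (Metric.isClosed_closedBall.preimage φ.continuous) (fun n => by
          simp only [Set.mem_preimage, mem_closedBall_zero_iff]
          rw [hpow, norm_mul, norm_pow]
          calc ‖c‖ ^ n * ‖φ x‖ ≤ 1 * ‖φ x‖ :=
                mul_le_mul_of_nonneg_right (pow_le_one₀ (norm_nonneg _) hc) (norm_nonneg _)
            _ = ‖φ x‖ := one_mul _) y
      simpa using this
    ext y
    by_contra hy
    have hy0 : 0 < ‖φ y‖ := norm_pos_iff.mpr (by simpa using hy)
    obtain ⟨n, hn⟩ := exists_nat_gt (‖φ x‖ / ‖φ y‖)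
    have h1 := hb ((n : ℂ) • y)
    rw [map_smul, norm_smul, Complex.norm_natCast] at h1
    rw [div_lt_iff₀ hy0] at hn
    linarith
  · -- real
    have him : ∀ y, ((starRingEnd ℂ) (φ x) * φ y).im = 0 := by
      intro y
      have := huniv {y : X | ((starRingEnd ℂ) (φ x) * φ y).im = 0} ?_ ?_ ?_ y
      · exact this
      · intro a ha b hb s t _ _ _
        simp only [Set.mem_ofPred_eq] at ha hb ⊢
        have h1 : φ (s • a + t • b) = (s : ℂ) * φ a + (t : ℂ) * φ b := by
          have h2 : s • a + t • b = (s : ℂ) • a + (t : ℂ) • b := by simp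
          rw [h2, map_add, map_smul, map_smul]; rfl
        have h3 : (starRingEnd ℂ) (φ x) * φ (s • a + t • b) =
            (s : ℂ) * ((starRingEnd ℂ) (φ x) * φ a) + (t : ℂ) * ((starRingEnd ℂ) (φ x) * φ b) := by
          rw [h1]; ring
        rw [h3, Complex.add_im, Complex.im_ofReal_mul, Complex.im_ofReal_mul, ha, hb]
        simp
      · exact isClosed_eq (Complex.continuous_im.comp (continuous_const.mul φ.continuous))
          continuous_const
      · intro n
        simp only [Set.mem_ofPred_eq]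
        rw [hpow]
        have hcr : c = (c.re : ℂ) := by
          apply Complex.ext
          · simp
          · simpa using hc
        have h4 : (starRingEnd ℂ) (φ x) * (c ^ n * φ x) =
            ((c.re ^ n * Complex.normSq (φ x) : ℝ) : ℂ) := by
          rw [hcr]
          push_cast
          rw [← Complex.mul_conj]
          simp only [Complex.ofReal_re]
          ring
        rw [h4, Complex.ofReal_im]
    have hz : ∀ y, (starRingEnd ℂ) (φ x) * φ y = 0 := by
      intro y
      apply Complex.ext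
      · have h1 := him (Complex.I • y)
        rw [map_smul, smul_eq_mul] at h1
        have h2 : (starRingEnd ℂ) (φ x) * (Complex.I * φ y) =
            Complex.I * ((starRingEnd ℂ) (φ x) * φ y) := by ring
        rw [h2, Complex.I_mul_im] at h1
        simpa using h1
      · simpa using him y
    have hx0 : φ x = 0 := by
      have h1 := hz x
      have h2 : ((Complex.normSq (φ x) : ℝ) : ℂ) = 0 := by
        rw [← Complex.mul_conj, mul_comm]; exact h1
      exact Complex.normSq_eq_zero.mp (by exact_mod_cast h2)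
    ext y
    have := huniv (φ ⁻¹' {0}) ((convex_singleton (0 : ℂ)).linear_preimage
        (φ.restrictScalars ℝ).toLinearMap) (isClosed_singleton.preimage φ.continuous) (fun n => by
          show φ ((T ^ n) x) = 0
          rw [hpow, hx0, mul_zero]) y
    simpa using this

end Pool.Agent.Helper78.ConvOrb
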