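import Pool.Agent.Helper72.D1Main

set_option autoImplicit false

/-!
# Property `(D_1)` for a reflexive space over both scalar fields and all finite measures

`TT` is (the Figiel-Johnson form of) Tsirelson's space, formalised by helper72. The space
`TT →L[ℝ] 𝕜` is its dual for `𝕜 = ℝ` and the complexification of its dual for `𝕜 = ℂ`.
-/

namespace Pool.Agent.Helper78.CxTsirelson

open MeasureTheory Filter Topology
open scoped ENNReal
open Pool.Agent.Helper72.Tsirelson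

variable (𝕜 : Type) [RCLike 𝕜]

/-- The space: real-linear continuous maps from Tsirelson's space to the scalars. -/
abbrev XX : Type := TT →L[ℝ] 𝕜

/-- Evaluation at a point. -/
noncomputable def ev (y : TT) : StrongDual 𝕜 (XX 𝕜) :=
  LinearMap.mkContinuous
    { toFun := fun x => x y
      map_add' := fun _ _ => rfl
      map_smul' := fun _ _ => rfl } ‖y‖ (fun x => by
        rw [mul_comm]
        exact x.le_opNorm y)

theorem ev_apply (y : TT) (x : XX 𝕜) : ev 𝕜 y x = x y := rfl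

theorem norm_ev_le (y : TT) : ‖ev 𝕜 y‖ ≤ ‖y‖ :=
  LinearMap.mkContinuous_norm_le _ (norm_nonneg _) _

/-- The embedding of the real dual. -/
noncomputable def jj : StrongDual ℝ TT →L[ℝ] XX 𝕜 :=
  ContinuousLinearMap.compL ℝ TT ℝ 𝕜 RCLike.ofRealCLM

theorem jj_apply (a : StrongDual ℝ TT) (y : TT) : jj 𝕜 a y = ((a y : ℝ) : 𝕜) := rfl

/-- The real part. -/
noncomputable def rr : XX 𝕜 →L[ℝ] StrongDual ℝ TT :=
  ContinuousLinearMap.compL ℝ TT 𝕜 ℝ RCLike.reCLM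

theorem rr_apply (x : XX 𝕜) (y : TT) : rr 𝕜 x y = RCLike.re (x y) := rfl

/-- The imaginary part. -/
noncomputable def ss : XX 𝕜 →L[ℝ] StrongDual ℝ TT :=
  ContinuousLinearMap.compL ℝ TT 𝕜 ℝ RCLike.imCLM

theorem ss_apply (x : XX 𝕜) (y : TT) : ss 𝕜 x y = RCLike.im (x y) := rfl

theorem norm_rr_le (x : XX 𝕜) : ‖rr 𝕜 x‖ ≤ ‖x‖ := by
  refine ContinuousLinearMap.opNorm_le_bound _ (norm_nonneg _) (fun y => ?_)
  rw [rr_apply, Real.norm_eq_abs]
  exact (RCLike.abs_re_le_norm _).trans (x.le_opNorm y)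

theorem norm_ss_le (x : XX 𝕜) : ‖ss 𝕜 x‖ ≤ ‖x‖ := by
  refine ContinuousLinearMap.opNorm_le_bound _ (norm_nonneg _) (fun y => ?_)
  rw [ss_apply, Real.norm_eq_abs]
  exact (RCLike.abs_im_le_norm _).trans (x.le_opNorm y)

theorem decomp (x : XX 𝕜) : x = jj 𝕜 (rr 𝕜 x) + (RCLike.I : 𝕜) • jj 𝕜 (ss 𝕜 x) := by
  ext y
  show x y = ((RCLike.re (x y) : ℝ) : 𝕜) + (RCLike.I : 𝕜) • ((RCLike.im (x y) : ℝ) : 𝕜)
  rw [smul_eq_mul, mul_comm]
  exact (RCLike.re_add_im (x y)).symm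

/-- Every continuous functional on `XX 𝕜` is given by two points of `TT`. -/
theorem exists_points (ψ : StrongDual 𝕜 (XX 𝕜)) :
    ∃ y₁ y₂ : TT, ∀ x : XX 𝕜, ψ x = x y₁ + RCLike.I * x y₂ := by
  let ψr : XX 𝕜 →L[ℝ] 𝕜 := ψ.restrictScalars ℝ
  obtain ⟨y₁, h₁⟩ := reflexive_TT (RCLike.reCLM.comp (ψr.comp (jj 𝕜)))
  obtain ⟨y₂, h₂⟩ := reflexive_TT (RCLike.imCLM.comp (ψr.comp (jj 𝕜)))
  have e₁ : ∀ a : StrongDual ℝ TT, a y₁ = RCLike.re (ψ (jj 𝕜 a)) := fun a =>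
    DFunLike.congr_fun h₁ a
  have e₂ : ∀ a : StrongDual ℝ TT, a y₂ = RCLike.im (ψ (jj 𝕜 a)) := fun a =>
    DFunLike.congr_fun h₂ a
  have hj : ∀ a : StrongDual ℝ TT,
      ψ (jj 𝕜 a) = ((a y₁ : ℝ) : 𝕜) + RCLike.I * ((a y₂ : ℝ) : 𝕜) := by
    intro a
    rw [e₁, e₂, mul_comm]
    exact (RCLike.re_add_im _).symm
  refine ⟨y₁, y₂, fun x => ?_⟩
  have h1 : ψ x = ψ (jj 𝕜 (rr 𝕜 x)) + RCLike.I * ψ (jj 𝕜 (ss 𝕜 x)) := by
    conv_lhs => rw [decomp 𝕜 x]
    rw [map_add, map_smul, smul_eq_mul]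
  rw [h1, hj, hj]
  have h3 : ∀ y : TT, x y = ((RCLike.re (x y) : ℝ) : 𝕜) + ((RCLike.im (x y) : ℝ) : 𝕜) * RCLike.I :=
    fun y => (RCLike.re_add_im (x y)).symm
  conv_rhs => rw [h3 y₁, h3 y₂]
  simp only [rr_apply, ss_apply]
  ring

theorem reflexive : Function.Surjective (NormedSpace.inclusionInDoubleDual 𝕜 (XX 𝕜)) := by
  intro Φ
  let x : XX 𝕜 := LinearMap.mkContinuous
    { toFun := fun y => Φ (ev 𝕜 y)
      map_add' := fun y z => by
        have : ev 𝕜 (y + z) = ev 𝕜 y + ev 𝕜 z := by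
          ext w
          exact map_add w y z
        rw [this, map_add]
      map_smul' := fun r y => by
        have : ev 𝕜 (r • y) = (r : 𝕜) • ev 𝕜 y := by
          ext w
          show w (r • y) = (r : 𝕜) • w y
          rw [map_smul, RCLike.real_smul_eq_coe_smul (K := 𝕜)]
        rw [this, map_smul, RingHom.id_apply, RCLike.real_smul_eq_coe_smul (K := 𝕜)] } ‖Φ‖
    (fun y => by
      show ‖Φ (ev 𝕜 y)‖ ≤ ‖Φ‖ * ‖y‖
      exact (Φ.le_opNorm _).trans (mul_le_mul_of_nonneg_left (norm_ev_le 𝕜 y) (norm_nonneg _)))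
  refine ⟨x, ?_⟩
  ext ψ
  obtain ⟨y₁, y₂, h⟩ := exists_points 𝕜 ψ
  have hψ : ψ = ev 𝕜 y₁ + (RCLike.I : 𝕜) • ev 𝕜 y₂ := by
    ext w
    rw [h w]
    rfl
  have h1 : NormedSpace.inclusionInDoubleDual 𝕜 (XX 𝕜) x ψ = ψ x := rfl
  rw [h1, h x]
  conv_rhs => rw [hψ]
  rw [map_add, map_smul, smul_eq_mul]
  rfl

theorem not_finiteDimensional : ¬ FiniteDimensional 𝕜 (XX 𝕜) := by
  intro h
  have h1 : FiniteDimensional ℝ (XX 𝕜) := FiniteDimensional.trans ℝ 𝕜 (XX 𝕜)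
  apply not_finiteDimensional_dual
  refine FiniteDimensional.of_injective (jj 𝕜).toLinearMap ?_
  intro a b hab
  ext y
  have := DFunLike.congr_fun hab y
  exact RCLike.ofReal_injective this

theorem D1 {Ω : Type*} [MeasurableSpace Ω] (μ : Measure Ω) [IsFiniteMeasure μ]
    (f : ℕ → Ω → XX 𝕜) (hf : ∀ n, AEStronglyMeasurable (f n) μ)
    (C : NNReal) (hC : ∀ n, eLpNorm (f n) 1 μ ≤ (C : ℝ≥0∞))
    (hmeas : ∀ φ : StrongDual 𝕜 (XX 𝕜),
      TendstoInMeasure μ (fun n t => φ (f n t)) atTop (fun _ => (0 : 𝕜))) :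
    ∃ g : ℕ → ℕ, StrictMono g ∧ ∀ φ : StrongDual 𝕜 (XX 𝕜),
      ∀ᵐ t ∂μ, Tendsto (fun k => φ (f (g k) t)) atTop (𝓝 0) := by
  let F : ℕ → Ω → XX 𝕜 := fun n => (hf n).mk (f n)
  have hF : ∀ n, StronglyMeasurable (F n) := fun n => (hf n).stronglyMeasurable_mk
  have hfF : ∀ n, f n =ᵐ[μ] F n := fun n => (hf n).ae_eq_mk
  have hint : ∀ n, ∫⁻ t, ‖F n t‖ₑ ∂μ ≤ C := by
    intro n
    have h1 := hC n
    rw [eLpNorm_congr_ae (hfF n), eLpNorm_one_eq_lintegral_enorm] at h1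
    exact h1
  have hm : ∀ y : TT, ∀ ε : ℝ, 0 < ε →
      Tendsto (fun n => μ {t | ε ≤ ‖F n t y‖}) atTop (𝓝 0) := by
    intro y ε hε
    have h1 := (tendstoInMeasure_iff_norm.mp (hmeas (ev 𝕜 y))) ε hε
    refine h1.congr (fun n => measure_congr ?_)
    filter_upwards [hfF n] with t ht
    show (ε ≤ ‖ev 𝕜 y (f n t) - 0‖) = (ε ≤ ‖F n t y‖)
    rw [ht, sub_zero]
    rfl
  -- first the real parts
  obtain ⟨g1, hg1, hg1P⟩ := Helper72.D1.D1_dual_Tsirelson μ (fun n t => rr 𝕜 (F n t))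
    (fun n => (rr 𝕜).continuous.comp_stronglyMeasurable (hF n)) (C : ℝ≥0∞) ENNReal.coe_ne_top
    (fun n => (lintegral_mono (fun t => by
      have := norm_rr_le 𝕜 (F n t)
      rw [← ofReal_norm, ← ofReal_norm]
      exact ENNReal.ofReal_le_ofReal this)).trans (hint n))
    (fun y => by
      rw [tendstoInMeasure_iff_norm]
      intro ε hε
      refine tendsto_of_tendsto_of_tendsto_of_le_of_le tendsto_const_nhds (hm y ε hε)
        (fun _ => zero_le) (fun n => measure_mono (fun t ht => ?_))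
      have h2 : ε ≤ ‖rr 𝕜 (F n t) y - 0‖ := ht
      rw [sub_zero, rr_apply, Real.norm_eq_abs] at h2
      exact h2.trans (RCLike.abs_re_le_norm _))
  obtain ⟨g2, hg2, hg2P⟩ := Helper72.D1.D1_dual_Tsirelson μ (fun n t => ss 𝕜 (F (g1 n) t))
    (fun n => (ss 𝕜).continuous.comp_stronglyMeasurable (hF (g1 n))) (C : ℝ≥0∞)
    ENNReal.coe_ne_top
    (fun n => (lintegral_mono (fun t => by
      have := norm_ss_le 𝕜 (F (g1 n) t)
      rw [← ofReal_norm, ← ofReal_norm]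
      exact ENNReal.ofReal_le_ofReal this)).trans (hint (g1 n)))
    (fun y => by
      rw [tendstoInMeasure_iff_norm]
      intro ε hε
      refine tendsto_of_tendsto_of_tendsto_of_le_of_le tendsto_const_nhds
        ((hm y ε hε).comp hg1.tendsto_atTop)
        (fun _ => zero_le) (fun n => measure_mono (fun t ht => ?_))
      have h2 : ε ≤ ‖ss 𝕜 (F (g1 n) t) y - 0‖ := ht
      rw [sub_zero, ss_apply, Real.norm_eq_abs] at h2
      exact h2.trans (RCLike.abs_im_le_norm _))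
  refine ⟨fun k => g1 (g2 k), hg1.comp hg2, ?_⟩
  have hy : ∀ y : TT, ∀ᵐ t ∂μ, Tendsto (fun k => F (g1 (g2 k)) t y) atTop (𝓝 0) := by
    intro y
    filter_upwards [hg1P y, hg2P y] with t h1 h2
    have h1' : Tendsto (fun k => |rr 𝕜 (F (g1 (g2 k)) t) y|) atTop (𝓝 |0|) :=
      (h1.comp hg2.tendsto_atTop).abs
    have h2' : Tendsto (fun k => |ss 𝕜 (F (g1 (g2 k)) t) y|) atTop (𝓝 |0|) := h2.abs
    have h3 := h1'.add h2'
    rw [abs_zero, add_zero] at h3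
    refine squeeze_zero_norm (fun k => ?_) h3
    rw [rr_apply, ss_apply]
    set z : 𝕜 := F (g1 (g2 k)) t y
    calc ‖z‖ = ‖((RCLike.re z : ℝ) : 𝕜) + ((RCLike.im z : ℝ) : 𝕜) * RCLike.I‖ := by
          rw [RCLike.re_add_im]
      _ ≤ ‖((RCLike.re z : ℝ) : 𝕜)‖ + ‖((RCLike.im z : ℝ) : 𝕜) * RCLike.I‖ := norm_add_le _ _
      _ ≤ |RCLike.re z| + |RCLike.im z| * 1 := by
          rw [norm_mul, RCLike.norm_ofReal, RCLike.norm_ofReal]
          gcongr
          rw [RCLike.norm_I]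
          split_ifs <;> norm_num
      _ = |RCLike.re z| + |RCLike.im z| := by rw [mul_one]
  intro φ
  obtain ⟨y₁, y₂, h⟩ := exists_points 𝕜 φ
  have hall : ∀ᵐ t ∂μ, ∀ n, f n t = F n t := ae_all_iff.mpr hfF
  filter_upwards [hy y₁, hy y₂, hall] with t h1 h2 h3
  have h4 := h1.add (h2.const_mul (RCLike.I : 𝕜))
  rw [mul_zero, add_zero] at h4
  refine h4.congr (fun k => ?_)
  rw [h3, h]

end Pool.Agent.Helper78.CxTsirelson
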