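import Pool.Agent.Helper78.PayneInv

set_option autoImplicit false

/-!
Clifford (Jordan-Wigner) Dirac operator and the centrally symmetric case.
-/

namespace Pool.Agent.Helper78.PayneAlg

open Finset Module

variable {d : ℕ} {E : Type*} [AddCommGroup E] [Module ℝ E]

/-- The Jordan-Wigner sign. -/
noncomputable def jw (j : Fin d) (x : Fin d → ZMod 2) : ℝ :=
  ∏ i ∈ Finset.univ.filter (fun i => i < j), (if x i = 0 then 1 else -1)

/-- The unit vector. -/
def ej (j : Fin d) : Fin d → ZMod 2 := Pi.single j 1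

lemma jw_sq (j : Fin d) (x : Fin d → ZMod 2) : jw j x * jw j x = 1 := by
  unfold jw
  rw [← Finset.prod_mul_distrib]
  apply Finset.prod_eq_one
  intro i _
  split_ifs <;> norm_num

lemma jw_add_le (j l : Fin d) (h : j ≤ l) (x : Fin d → ZMod 2) : jw j (x + ej l) = jw j x := by
  unfold jw
  apply Finset.prod_congr rfl
  intro i hi
  have h1 : i < j := (Finset.mem_filter.mp hi).2
  have h2 : (x + ej l) i = x i := by
    rw [Pi.add_apply, ej, Pi.single_eq_of_ne (by
      intro h3
      rw [h3] at h1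
      exact absurd h1 (not_lt.mpr h)), add_zero]
  rw [h2]

lemma jw_add_lt (j l : Fin d) (h : j < l) (x : Fin d → ZMod 2) :
    jw l (x + ej j) = - jw l x := by
  unfold jw
  have hj : j ∈ Finset.univ.filter (fun i => i < l) := by simp [h]
  rw [← Finset.mul_prod_erase _ _ hj, ← Finset.mul_prod_erase _ _ hj]
  have h1 : ∏ i ∈ (Finset.univ.filter (fun i => i < l)).erase j,
      (if (x + ej j) i = 0 then (1 : ℝ) else -1) =
      ∏ i ∈ (Finset.univ.filter (fun i => i < l)).erase j, (if x i = 0 then (1 : ℝ) else -1) := by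
    apply Finset.prod_congr rfl
    intro i hi
    have h2 : i ≠ j := (Finset.mem_erase.mp hi).1
    rw [Pi.add_apply, ej, Pi.single_eq_of_ne h2, add_zero]
  rw [h1]
  have h3 : (if (x + ej j) j = 0 then (1 : ℝ) else -1) = - (if x j = 0 then (1 : ℝ) else -1) := by
    rw [Pi.add_apply, ej, Pi.single_eq_same]
    generalize x j = y
    revert y
    have : ∀ y : ZMod 2, (y + 1 = 0 ↔ y ≠ 0) := by decide
    intro y
    by_cases hy : y = 0
    · rw [if_neg (by rw [this]; simpa using hy), if_pos hy]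
    · rw [if_pos ((this y).mpr hy), if_neg hy]; norm_num
  rw [h3]
  ring

variable (D : Fin d → E →ₗ[ℝ] E)

/-- The Dirac operator. -/
noncomputable def DD (s : (Fin d → ZMod 2) → E) (x : Fin d → ZMod 2) : E :=
  ∑ j, jw j x • D j (s (x + ej j))

lemma ej_add_self (j : Fin d) : (ej j : Fin d → ZMod 2) + ej j = 0 := by
  funext i
  show ej j i + ej j i = 0
  generalize (ej j i : ZMod 2) = y
  revert y
  decide

lemma clif_sum (M : E →ₗ[ℝ] E →ₗ[ℝ] ℝ) (hM : ∀ u v, M u v = M v u)
    (hD : ∀ j l u v, M (D j u) (D l v) = M (D l u) (D j v)) (s : (Fin d → ZMod 2) → E) :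
    ∑ x, M (DD D s x) (DD D s x) = ∑ x, ∑ j, M (D j (s x)) (D j (s x)) := by
  let F : Fin d → Fin d → ℝ := fun j l =>
    ∑ x, jw j x * jw l x * M (D j (s (x + ej j))) (D l (s (x + ej l)))
  have h1 : ∑ x, M (DD D s x) (DD D s x) = ∑ j, ∑ l, F j l := by
    have : ∀ x, M (DD D s x) (DD D s x) =
        ∑ j, ∑ l, jw j x * jw l x * M (D j (s (x + ej j))) (D l (s (x + ej l))) := by
      intro x
      simp only [DD, map_sum, map_smul, LinearMap.sum_apply, LinearMap.smul_apply, smul_eq_mul]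
      rw [Finset.sum_comm]
      apply Finset.sum_congr rfl
      intro j _
      rw [Finset.mul_sum]
      apply Finset.sum_congr rfl
      intro l _
      ring
    simp_rw [this]
    rw [Finset.sum_comm]
    apply Finset.sum_congr rfl
    intro j _
    rw [Finset.sum_comm]
  have hsymmF : ∀ j l, F j l = F l j := by
    intro j l
    apply Finset.sum_congr rfl
    intro x _
    rw [hM]
    ring
  have hlt : ∀ j l, j < l → F j l = 0 := by
    intro j l hjl
    have h2 : F j l = ∑ x, jw j (x + (ej j + ej l)) * jw l (x + (ej j + ej l)) *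
        M (D j (s (x + (ej j + ej l) + ej j))) (D l (s (x + (ej j + ej l) + ej l))) := by
      exact (Equiv.sum_comp (Equiv.addRight (ej j + ej l))
        (fun x => jw j x * jw l x * M (D j (s (x + ej j))) (D l (s (x + ej l))))).symm
    have h3 : F j l = - F j l := by
      conv_lhs => rw [h2]
      rw [← Finset.sum_neg_distrib]
      apply Finset.sum_congr rfl
      intro x _
      have e1 : x + (ej j + ej l) + ej j = x + ej l := by
        rw [add_assoc, add_right_comm (ej j) (ej l) (ej j), ej_add_self, zero_add]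
      have e2 : x + (ej j + ej l) + ej l = x + ej j := by
        rw [add_assoc, add_assoc, ej_add_self, add_zero]
      have e3 : jw j (x + (ej j + ej l)) = jw j x := by
        rw [← add_assoc, jw_add_le j l hjl.le, jw_add_le j j le_rfl]
      have e4 : jw l (x + (ej j + ej l)) = - jw l x := by
        rw [← add_assoc, jw_add_le l l le_rfl, jw_add_lt j l hjl]
      rw [e1, e2, e3, e4, hM, hD l j]
      ring
    linarith
  have hne : ∀ j l, j ≠ l → F j l = 0 := by
    intro j l hjl
    rcases lt_or_gt_of_ne hjl with h | h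
    · exact hlt j l h
    · rw [hsymmF]; exact hlt l j h
  have hdiag : ∀ j, F j j = ∑ x, M (D j (s x)) (D j (s x)) := by
    intro j
    have h2 : ∀ x, jw j x * jw j x * M (D j (s (x + ej j))) (D j (s (x + ej j))) =
        M (D j (s (x + ej j))) (D j (s (x + ej j))) := by
      intro x; rw [jw_sq, one_mul]
    show ∑ x, jw j x * jw j x * M (D j (s (x + ej j))) (D j (s (x + ej j))) = _
    simp_rw [h2]
    exact Equiv.sum_comp (Equiv.addRight (ej j)) (fun x => M (D j (s x)) (D j (s x)))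
  rw [h1, Finset.sum_comm (γ := (Fin d → ZMod 2))]
  apply Finset.sum_congr rfl
  intro j _
  rw [Finset.sum_eq_single j (fun l _ hl => hne j l hl.symm) (fun h => absurd (Finset.mem_univ j) h),
    hdiag]

/-- Finding the new vector. -/
lemma central_aux (M : E →ₗ[ℝ] E →ₗ[ℝ] ℝ) (hM : ∀ u v, M u v = M v u)
    (hD : ∀ j l u v, M (D j u) (D l v) = M (D l u) (D j v))
    (S : Submodule ℝ E) (hDS : ∀ i, ∀ u ∈ S, D i u ∈ S)
    (P : E →ₗ[ℝ] E) (hPM : ∀ u v, M (P u) (P v) = M u v)
    (hPD : ∀ i u, D i (P u) = - P (D i u)) (c : ℝ) (hc : c * c = 1)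
    (Va Vb V : Submodule ℝ E) (hVS : V ≤ S) (hVfd : FiniteDimensional ℝ V)
    (hVa : Va ≤ V) (hVb : Vb ≤ V) (hV : V ≤ Va ⊔ Vb)
    (hPa : ∀ v ∈ Va, P v = c • v) (hPb : ∀ v ∈ Vb, P v = -(c • v))
    (hdim : finrank ℝ Vb < finrank ℝ Va)
    (hneg' : ∀ v ∈ V, v ≠ 0 → ∑ j, M (D j v) (D j v) < 0) :
    ∃ w ∈ S, M w w < 0 ∧ ∀ v ∈ V, M w v = 0 := by
  classical
  have hfa : FiniteDimensional ℝ Va := Submodule.finiteDimensional_of_le hVa
  have hfb : FiniteDimensional ℝ Vb := Submodule.finiteDimensional_of_le hVb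
  let Ψ : ((Fin d → ZMod 2) → Va) →ₗ[ℝ] ((Fin d → ZMod 2) → (Vb →ₗ[ℝ] ℝ)) :=
    { toFun := fun s x => (M (DD D (fun y => (s y : E)) x)).comp Vb.subtype
      map_add' := fun s s' => by
        funext x
        ext v
        have : DD D (fun y => ((s + s') y : E)) x =
            DD D (fun y => (s y : E)) x + DD D (fun y => (s' y : E)) x := by
          simp [DD, Finset.sum_add_distrib]
        show M (DD D (fun y => ((s + s') y : E)) x) v = _
        rw [this, map_add]
        rfl
      map_smul' := fun a s => by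
        funext x
        ext v
        have : DD D (fun y => ((a • s) y : E)) x = a • DD D (fun y => (s y : E)) x := by
          simp only [DD, Pi.smul_apply, Submodule.coe_smul, map_smul, Finset.smul_sum]
          apply Finset.sum_congr rfl
          intro j _
          rw [smul_comm]
        show M (DD D (fun y => ((a • s) y : E)) x) v = _
        rw [this, map_smul]
        rfl }
  have hcard : 0 < Fintype.card (Fin d → ZMod 2) := Fintype.card_pos
  have hker : LinearMap.ker Ψ ≠ ⊥ := by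
    apply LinearMap.ker_ne_bot_of_finrank_lt
    rw [Module.finrank_pi_fintype, Module.finrank_pi_fintype]
    simp only [Finset.sum_const, Finset.card_univ, smul_eq_mul]
    have h1 : finrank ℝ (Vb →ₗ[ℝ] ℝ) = finrank ℝ Vb := Subspace.dual_finrank_eq
    rw [h1]
    exact Nat.mul_lt_mul_of_pos_left hdim hcard
  obtain ⟨s, hs, hs0⟩ := (Submodule.ne_bot_iff _).mp hker
  have hs1 : ∀ x, ∀ v ∈ Vb, M (DD D (fun y => (s y : E)) x) v = 0 := by
    intro x v hv
    have h1 := congrFun (LinearMap.mem_ker.mp hs) x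
    have h2 := LinearMap.congr_fun h1 ⟨v, hv⟩
    exact h2
  have hs2 : ∀ x, ∀ v ∈ Va, M (DD D (fun y => (s y : E)) x) v = 0 := by
    intro x v hv
    have h1 : P (DD D (fun y => (s y : E)) x) = -(c • DD D (fun y => (s y : E)) x) := by
      simp only [DD, map_sum, map_smul, Finset.smul_sum, ← Finset.sum_neg_distrib]
      apply Finset.sum_congr rfl
      intro j _
      have h3 : P (D j (s (x + ej j) : E)) = - D j (P (s (x + ej j) : E)) := by
        rw [hPD, neg_neg]
      rw [h3, hPa _ (s (x + ej j)).2, map_smul, smul_neg, smul_comm]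
    have h2 := hPM (DD D (fun y => (s y : E)) x) v
    rw [h1, hPa v hv] at h2
    simp only [map_neg, map_smul, LinearMap.neg_apply, LinearMap.smul_apply, smul_eq_mul] at h2
    have h3 : -(c * (c * M (DD D (fun y => (s y : E)) x) v)) =
        - M (DD D (fun y => (s y : E)) x) v := by
      rw [← mul_assoc, hc, one_mul]
    linarith
  have hs3 : ∀ x, ∀ v ∈ V, M (DD D (fun y => (s y : E)) x) v = 0 := by
    intro x v hv
    obtain ⟨a, ha, b, hb, rfl⟩ := Submodule.mem_sup.mp (hV hv)
    rw [map_add, hs1 x b hb, hs2 x a ha, add_zero]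
  have hsum := clif_sum D M hM hD (fun y => (s y : E))
  have hneg : ∑ x, ∑ j, M (D j (s x : E)) (D j (s x : E)) < 0 := by
    obtain ⟨x0, hx0⟩ : ∃ x, s x ≠ 0 := by
      by_contra hcon
      push Not at hcon
      exact hs0 (funext hcon)
    have h0 : ∀ x, ∑ j, M (D j (s x : E)) (D j (s x : E)) ≤ 0 := by
      intro x
      by_cases h : (s x : E) = 0
      · rw [h]; simp
      · exact (hneg' _ (hVa (s x).2) h).le
    have h1 : ∑ j, M (D j (s x0 : E)) (D j (s x0 : E)) < 0 :=
      hneg' _ (hVa (s x0).2) (fun h => hx0 (Subtype.ext h))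
    rw [← Finset.sum_erase_add _ _ (Finset.mem_univ x0)]
    have h2 : ∑ x ∈ Finset.univ.erase x0, ∑ j, M (D j (s x : E)) (D j (s x : E)) ≤ 0 :=
      Finset.sum_nonpos (fun x _ => h0 x)
    linarith
  rw [← hsum] at hneg
  obtain ⟨x, hx⟩ : ∃ x, M (DD D (fun y => (s y : E)) x) (DD D (fun y => (s y : E)) x) < 0 := by
    by_contra hcon
    push Not at hcon
    exact absurd hneg (not_lt.mpr (Finset.sum_nonneg (fun x _ => hcon x)))
  refine ⟨DD D (fun y => (s y : E)) x, ?_, hx, hs3 x⟩
  exact Submodule.sum_mem _ (fun j _ => S.smul_mem _ (hDS j _ (hVS (hVa (s _).2))))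

variable {D} {B0 : E →ₗ[ℝ] E →ₗ[ℝ] ℝ}

lemma Bf_parity (P : E →ₗ[ℝ] E) (hPB : ∀ u v, B0 (P u) (P v) = B0 u v)
    (hPD : ∀ i u, D i (P u) = - P (D i u)) (j : ℕ) (u v : E) :
    Bf D B0 j (P u) (P v) = Bf D B0 j u v := by
  induction j generalizing u v with
  | zero => exact hPB u v
  | succ j ih =>
    rw [Bf_succ, Bf_succ]
    apply Finset.sum_congr rfl
    intro i _
    rw [hPD, hPD, map_neg, map_neg, LinearMap.neg_apply, neg_neg, ih]

/-- The centrally symmetric case. -/
theorem core_central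
    (hsymm : ∀ u v, B0 u v = B0 v u) (hpos : ∀ u, 0 ≤ B0 u u)
    (hdef : ∀ u, B0 u u = 0 → u = 0) (hker : ∀ u, (∀ i, D i u = 0) → u = 0)
    (hcomm : ∀ i l u, D i (D l u) = D l (D i u))
    (hanti : ∀ i u v, B0 (D i u) v = - B0 u (D i v))
    (P : E →ₗ[ℝ] E) (hP2 : ∀ u, P (P u) = u)
    (hPB : ∀ u v, B0 (P u) (P v) = B0 u v)
    (hPD : ∀ i u, D i (P u) = - P (D i u))
    (S : Submodule ℝ E) (hDS : ∀ i, ∀ u ∈ S, D i u ∈ S) (hPS : ∀ u ∈ S, P u ∈ S)
    (s t k : ℕ) (hk : Odd k) (L : ℝ) (V : Submodule ℝ E) (hVS : V ≤ S)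
    (hV : finrank ℝ V = k)
    (hneg : ∀ v ∈ V, v ≠ 0 → Bf D B0 (s + t + 1) v v < L * Bf D B0 (s + 1) v v) :
    ∃ W : Submodule ℝ E, W ≤ S ∧ finrank ℝ W = k + 1 ∧
      ∀ w ∈ W, w ≠ 0 → Bf D B0 (s + t) w w < L * Bf D B0 s w w := by
  let M : E →ₗ[ℝ] E →ₗ[ℝ] ℝ := Bf D B0 (s + t) - L • Bf D B0 s
  let M' : E →ₗ[ℝ] E →ₗ[ℝ] ℝ := Bf D B0 (s + t + 1) - L • Bf D B0 (s + 1)
  have hMapp : ∀ u v, M u v = Bf D B0 (s + t) u v - L * Bf D B0 s u v := fun u v => rfl
  have hM'app : ∀ u v, M' u v = Bf D B0 (s + t + 1) u v - L * Bf D B0 (s + 1) u v :=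
    fun u v => rfl
  have hMsymm : ∀ u v, M u v = M v u := by
    intro u v
    rw [hMapp, hMapp, Bf_symm hsymm, Bf_symm hsymm s]
  have hM'symm : ∀ u v, M' u v = M' v u := by
    intro u v
    rw [hM'app, hM'app, Bf_symm hsymm, Bf_symm hsymm (s + 1)]
  have hManti : ∀ i u v, M (D i u) v = - M u (D i v) := by
    intro i u v
    rw [hMapp, hMapp, Bf_anti hcomm hanti, Bf_anti hcomm hanti s]
    ring
  have hMD : ∀ j l u v, M (D j u) (D l v) = M (D l u) (D j v) := by
    intro j l u v
    rw [hManti, hManti l, hcomm]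
  have hM'D : ∀ u, M' u u = ∑ j, M (D j u) (D j u) := by
    intro u
    rw [hM'app, Bf_succ, Bf_succ, Finset.mul_sum, ← Finset.sum_sub_distrib]
    rfl
  have hMP : ∀ u v, M (P u) (P v) = M u v := by
    intro u v
    rw [hMapp, hMapp, Bf_parity P hPB hPD, Bf_parity P hPB hPD]
  have hM'P : ∀ u v, M' (P u) (P v) = M' u v := by
    intro u v
    rw [hM'app, hM'app, Bf_parity P hPB hPD, Bf_parity P hPB hPD]
  have hVfd : FiniteDimensional ℝ V := FiniteDimensional.of_finrank_pos (by
    rw [hV]; exact hk.pos)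
  obtain ⟨V', hV'S, hV'fd, hV'P, hV'neg, hV'k⟩ := exists_invariant B0 M' hsymm hpos hdef hM'symm P 2
    (by norm_num) (by
      apply LinearMap.ext
      intro u
      rw [pow_two]
      exact hP2 u) hM'P hPB S V hVS hPS hVfd (by
      intro v hv hv0
      rw [hM'app]
      have := hneg v hv hv0
      linarith)
  have hMneg : ∀ v ∈ V', v ≠ 0 → M v v < 0 := by
    intro v hv hv0
    rw [hMapp]
    have h1 := hV'neg v hv hv0
    rw [hM'app] at h1
    have := Bf_ratio hsymm hpos hdef hker hcomm hanti s t v hv0 L (by linarith)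
    linarith
  have hfinal : ∀ W : Submodule ℝ E, (∀ w ∈ W, w ≠ 0 → M w w < 0) →
      ∀ w ∈ W, w ≠ 0 → Bf D B0 (s + t) w w < L * Bf D B0 s w w := by
    intro W hW w hw hw0
    have := hW w hw hw0
    rw [hMapp] at this
    linarith
  rw [hV] at hV'k
  rcases Nat.lt_or_ge k (finrank ℝ V') with hlt | hge
  · obtain ⟨W, hW1, hW2⟩ := exists_sub_finrank V' hV'fd (k + 1) hlt
    exact ⟨W, hW1.trans hV'S, hW2, hfinal W (fun w hw => hMneg w (hW1 hw))⟩
  · have hV'eq : finrank ℝ V' = k := le_antisymm hge hV'k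
    let Vp : Submodule ℝ E := V' ⊓ LinearMap.ker (P - LinearMap.id)
    let Vm : Submodule ℝ E := V' ⊓ LinearMap.ker (P + LinearMap.id)
    have hVp : ∀ v ∈ Vp, P v = v := by
      rintro v ⟨_, hv⟩
      have : P v - v = 0 := hv
      exact sub_eq_zero.mp this
    have hVm : ∀ v ∈ Vm, P v = -v := by
      rintro v ⟨_, hv⟩
      have : P v + v = 0 := hv
      exact eq_neg_of_add_eq_zero_left this
    have hsup : V' ≤ Vp ⊔ Vm := by
      intro v hv
      have h1 : v = (1 / 2 : ℝ) • (v + P v) + (1 / 2 : ℝ) • (v - P v) := by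
        rw [← smul_add]
        have : v + P v + (v - P v) = (2 : ℝ) • v := by rw [two_smul]; abel
        rw [this, smul_smul]; norm_num
      rw [h1]
      apply Submodule.add_mem_sup
      · refine ⟨V'.smul_mem _ (V'.add_mem hv (hV'P v hv)), ?_⟩
        show P ((1 / 2 : ℝ) • (v + P v)) - (1 / 2 : ℝ) • (v + P v) = 0
        rw [map_smul, map_add, hP2, add_comm (P v) v, sub_self]
      · refine ⟨V'.smul_mem _ (V'.sub_mem hv (hV'P v hv)), ?_⟩
        show P ((1 / 2 : ℝ) • (v - P v)) + (1 / 2 : ℝ) • (v - P v) = 0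
        rw [map_smul, map_sub, hP2, ← smul_add]
        simp
    have hsup' : Vp ⊔ Vm = V' := le_antisymm (sup_le inf_le_left inf_le_left) hsup
    have hinf : Vp ⊓ Vm = ⊥ := by
      rw [eq_bot_iff]
      rintro v ⟨h1, h2⟩
      have h3 := hVp v h1
      rw [hVm v h2] at h3
      have h4 : (2 : ℝ) • v = 0 := by
        rw [two_smul]
        nth_rewrite 1 [← h3]
        simp
      exact (smul_eq_zero.mp h4).resolve_left (by norm_num)
    have hfp : FiniteDimensional ℝ Vp := Submodule.finiteDimensional_of_le inf_le_left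
    have hfm : FiniteDimensional ℝ Vm := Submodule.finiteDimensional_of_le inf_le_left
    have hdims := Submodule.finrank_sup_add_finrank_inf_eq Vp Vm
    rw [hsup', hinf, finrank_bot, hV'eq] at hdims
    have hne : finrank ℝ Vp ≠ finrank ℝ Vm := by
      intro h
      rw [h] at hdims
      obtain ⟨r, hr⟩ := hk
      omega
    have hneg'' : ∀ v ∈ V', v ≠ 0 → ∑ j, M (D j v) (D j v) < 0 := by
      intro v hv hv0
      rw [← hM'D]
      exact hV'neg v hv hv0
    have hw : ∃ w ∈ S, M w w < 0 ∧ ∀ v ∈ V', M w v = 0 := by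
      rcases lt_or_gt_of_ne hne with h | h
      · exact central_aux D M hMsymm hMD S hDS P hMP hPD (-1) (by norm_num) Vm Vp V' hV'S hV'fd
          inf_le_left inf_le_left (by rw [sup_comm]; exact hsup)
          (fun v hv => by rw [hVm v hv, neg_one_smul]) (fun v hv => by rw [hVp v hv]; simp)
          h hneg''
      · exact central_aux D M hMsymm hMD S hDS P hMP hPD 1 (by norm_num) Vp Vm V' hV'S hV'fd
          inf_le_left inf_le_left hsup
          (fun v hv => by rw [hVp v hv, one_smul]) (fun v hv => by rw [hVm v hv, one_smul])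
          h hneg''
    obtain ⟨w, hwS, hw1, hw2⟩ := hw
    obtain ⟨W, hW1, hW2, hW3⟩ := extend_one M hMsymm S V' hV'S hMneg hV'fd hV'eq w hwS hw1 hw2
    exact ⟨W, hW1, hW2, hfinal W hW3⟩

end Pool.Agent.Helper78.PayneAlg
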