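import Pool.Agent.Helper78.PayneClif

set_option autoImplicit false

/-!
Complexification and the complex Clifford (Jordan-Wigner) Dirac operator.
-/

namespace Pool.Agent.Helper78.PayneAlg

open Finset Module

/-- Complexification as pairs. -/
def Cx (E : Type*) := E × E

variable {d : ℕ} {E : Type*} [AddCommGroup E] [Module ℝ E]

instance instCxAdd : AddCommGroup (Cx E) := (inferInstance : AddCommGroup (E × E))

lemma Cx.ext' {z w : Cx E} (h1 : z.1 = w.1) (h2 : z.2 = w.2) : z = w := Prod.ext h1 h2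

instance instCxMod : Module ℂ (Cx E) where
  smul c z := (c.re • z.1 - c.im • z.2, c.re • z.2 + c.im • z.1)
  one_smul z := by
    apply Cx.ext'
    · show (1 : ℂ).re • z.1 - (1 : ℂ).im • z.2 = z.1
      simp
    · show (1 : ℂ).re • z.2 + (1 : ℂ).im • z.1 = z.2
      simp
  mul_smul a b z := by
    apply Cx.ext'
    · show (a * b).re • z.1 - (a * b).im • z.2 =
        a.re • (b.re • z.1 - b.im • z.2) - a.im • (b.re • z.2 + b.im • z.1)
      rw [Complex.mul_re, Complex.mul_im]; module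
    · show (a * b).re • z.2 + (a * b).im • z.1 =
        a.re • (b.re • z.2 + b.im • z.1) + a.im • (b.re • z.1 - b.im • z.2)
      rw [Complex.mul_re, Complex.mul_im]; module
  smul_zero a := by
    apply Cx.ext'
    · show a.re • (0 : E) - a.im • (0 : E) = 0
      simp
    · show a.re • (0 : E) + a.im • (0 : E) = 0
      simp
  smul_add a z w := by
    apply Cx.ext'
    · show a.re • (z.1 + w.1) - a.im • (z.2 + w.2) =
        (a.re • z.1 - a.im • z.2) + (a.re • w.1 - a.im • w.2)
      module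
    · show a.re • (z.2 + w.2) + a.im • (z.1 + w.1) =
        (a.re • z.2 + a.im • z.1) + (a.re • w.2 + a.im • w.1)
      module
  add_smul a b z := by
    apply Cx.ext'
    · show (a + b).re • z.1 - (a + b).im • z.2 =
        (a.re • z.1 - a.im • z.2) + (b.re • z.1 - b.im • z.2)
      rw [Complex.add_re, Complex.add_im]; module
    · show (a + b).re • z.2 + (a + b).im • z.1 =
        (a.re • z.2 + a.im • z.1) + (b.re • z.2 + b.im • z.1)
      rw [Complex.add_re, Complex.add_im]; module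
  zero_smul z := by
    apply Cx.ext'
    · show (0 : ℂ).re • z.1 - (0 : ℂ).im • z.2 = 0
      simp
    · show (0 : ℂ).re • z.2 + (0 : ℂ).im • z.1 = 0
      simp

lemma Cx.smul_fst (c : ℂ) (z : Cx E) : (c • z).1 = c.re • z.1 - c.im • z.2 := rfl
lemma Cx.smul_snd (c : ℂ) (z : Cx E) : (c • z).2 = c.re • z.2 + c.im • z.1 := rfl
lemma Cx.add_fst (z w : Cx E) : (z + w).1 = z.1 + w.1 := rfl
lemma Cx.add_snd (z w : Cx E) : (z + w).2 = z.2 + w.2 := rfl
lemma Cx.zero_fst : (0 : Cx E).1 = 0 := rfl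
lemma Cx.zero_snd : (0 : Cx E).2 = 0 := rfl

/-- The complexified operator. -/
def up (T : E →ₗ[ℝ] E) : Cx E →ₗ[ℂ] Cx E where
  toFun z := (T z.1, T z.2)
  map_add' z w := by
    apply Cx.ext'
    · exact map_add T _ _
    · exact map_add T _ _
  map_smul' c z := by
    apply Cx.ext'
    · show T (c.re • z.1 - c.im • z.2) = c.re • T z.1 - c.im • T z.2
      rw [map_sub, map_smul, map_smul]
    · show T (c.re • z.2 + c.im • z.1) = c.re • T z.2 + c.im • T z.1
      rw [map_add, map_smul, map_smul]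

lemma up_fst (T : E →ₗ[ℝ] E) (z : Cx E) : (up T z).1 = T z.1 := rfl
lemma up_snd (T : E →ₗ[ℝ] E) (z : Cx E) : (up T z).2 = T z.2 := rfl

/-- The inclusion of the real part. -/
def cj (v : E) : Cx E := (v, 0)

/-- The sesquilinear extension of a bilinear form. -/
def Mh (M : E →ₗ[ℝ] E →ₗ[ℝ] ℝ) (z w : Cx E) : ℂ :=
  ⟨M z.1 w.1 + M z.2 w.2, M z.2 w.1 - M z.1 w.2⟩

section Form

variable (M : E →ₗ[ℝ] E →ₗ[ℝ] ℝ)

lemma Mh_add_left (z z' w : Cx E) : Mh M (z + z') w = Mh M z w + Mh M z' w := by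
  apply Complex.ext
  · show M (z.1 + z'.1) w.1 + M (z.2 + z'.2) w.2 = _
    rw [map_add, map_add, LinearMap.add_apply, LinearMap.add_apply, Complex.add_re]
    show _ = (M z.1 w.1 + M z.2 w.2) + (M z'.1 w.1 + M z'.2 w.2)
    ring
  · show M (z.2 + z'.2) w.1 - M (z.1 + z'.1) w.2 = _
    rw [map_add, map_add, LinearMap.add_apply, LinearMap.add_apply, Complex.add_im]
    show _ = (M z.2 w.1 - M z.1 w.2) + (M z'.2 w.1 - M z'.1 w.2)
    ring

lemma Mh_add_right (z w w' : Cx E) : Mh M z (w + w') = Mh M z w + Mh M z w' := by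
  apply Complex.ext
  · show M z.1 (w.1 + w'.1) + M z.2 (w.2 + w'.2) = _
    rw [map_add, map_add, Complex.add_re]
    show _ = (M z.1 w.1 + M z.2 w.2) + (M z.1 w'.1 + M z.2 w'.2)
    ring
  · show M z.2 (w.1 + w'.1) - M z.1 (w.2 + w'.2) = _
    rw [map_add, map_add, Complex.add_im]
    show _ = (M z.2 w.1 - M z.1 w.2) + (M z.2 w'.1 - M z.1 w'.2)
    ring

lemma Mh_smul_left (c : ℂ) (z w : Cx E) : Mh M (c • z) w = c * Mh M z w := by
  apply Complex.ext
  · show M (c.re • z.1 - c.im • z.2) w.1 + M (c.re • z.2 + c.im • z.1) w.2 = _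
    rw [map_sub, map_add, map_smul, map_smul, map_smul, map_smul, Complex.mul_re]
    simp only [LinearMap.sub_apply, LinearMap.add_apply, LinearMap.smul_apply, smul_eq_mul]
    show _ = c.re * (M z.1 w.1 + M z.2 w.2) - c.im * (M z.2 w.1 - M z.1 w.2)
    ring
  · show M (c.re • z.2 + c.im • z.1) w.1 - M (c.re • z.1 - c.im • z.2) w.2 = _
    rw [map_sub, map_add, map_smul, map_smul, map_smul, map_smul, Complex.mul_im]
    simp only [LinearMap.sub_apply, LinearMap.add_apply, LinearMap.smul_apply, smul_eq_mul]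
    show _ = c.re * (M z.2 w.1 - M z.1 w.2) + c.im * (M z.1 w.1 + M z.2 w.2)
    ring

lemma Mh_smul_right (c : ℂ) (z w : Cx E) :
    Mh M z (c • w) = (starRingEnd ℂ) c * Mh M z w := by
  apply Complex.ext
  · show M z.1 (c.re • w.1 - c.im • w.2) + M z.2 (c.re • w.2 + c.im • w.1) = _
    rw [map_sub, map_add, map_smul, map_smul, map_smul, map_smul, Complex.mul_re,
      Complex.conj_re, Complex.conj_im]
    simp only [smul_eq_mul]
    show _ = c.re * (M z.1 w.1 + M z.2 w.2) - (-c.im) * (M z.2 w.1 - M z.1 w.2)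
    ring
  · show M z.2 (c.re • w.1 - c.im • w.2) - M z.1 (c.re • w.2 + c.im • w.1) = _
    rw [map_sub, map_add, map_smul, map_smul, map_smul, map_smul, Complex.mul_im,
      Complex.conj_re, Complex.conj_im]
    simp only [smul_eq_mul]
    show _ = c.re * (M z.2 w.1 - M z.1 w.2) + (-c.im) * (M z.1 w.1 + M z.2 w.2)
    ring

lemma Mh_zero_left (w : Cx E) : Mh M 0 w = 0 := by
  have := Mh_smul_left M 0 0 w
  rwa [zero_smul, zero_mul] at this

lemma Mh_zero_right (z : Cx E) : Mh M z 0 = 0 := by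
  have := Mh_smul_right M 0 z 0
  rwa [zero_smul, map_zero, zero_mul] at this

lemma Mh_sum_left {ι : Type*} (s : Finset ι) (f : ι → Cx E) (w : Cx E) :
    Mh M (∑ i ∈ s, f i) w = ∑ i ∈ s, Mh M (f i) w := by
  classical
  induction s using Finset.induction_on with
  | empty => simp [Mh_zero_left]
  | insert a s ha ih => rw [Finset.sum_insert ha, Finset.sum_insert ha, Mh_add_left, ih]

lemma Mh_sum_right {ι : Type*} (s : Finset ι) (f : ι → Cx E) (z : Cx E) :
    Mh M z (∑ i ∈ s, f i) = ∑ i ∈ s, Mh M z (f i) := by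
  classical
  induction s using Finset.induction_on with
  | empty => simp [Mh_zero_right]
  | insert a s ha ih => rw [Finset.sum_insert ha, Finset.sum_insert ha, Mh_add_right, ih]

lemma Mh_neg_right (z w : Cx E) : Mh M z (-w) = - Mh M z w := by
  have := Mh_smul_right M (-1) z w
  simpa using this

lemma Mh_re (z : Cx E) : (Mh M z z).re = M z.1 z.1 + M z.2 z.2 := rfl

lemma Mh_cj_re (z : Cx E) (v : E) : (Mh M z (cj v)).re = M z.1 v := by
  show M z.1 v + M z.2 0 = _
  rw [map_zero, add_zero]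

lemma Mh_cj_im (z : Cx E) (v : E) : (Mh M z (cj v)).im = M z.2 v := by
  show M z.2 v - M z.1 0 = _
  rw [map_zero, sub_zero]

end Form

/-- Abstract complex Clifford sum. -/
lemma clif_sum_cx {C : Type*} [AddCommGroup C] [Module ℂ C] (H : C → C → ℂ)
    (hsl : ∀ (s : Finset (Fin d)) (f : Fin d → C) (w : C), H (∑ i ∈ s, f i) w = ∑ i ∈ s, H (f i) w)
    (hsr : ∀ (s : Finset (Fin d)) (f : Fin d → C) (w : C), H w (∑ i ∈ s, f i) = ∑ i ∈ s, H w (f i))
    (hml : ∀ (c : ℝ) (z w : C), H ((c : ℂ) • z) w = c * H z w)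
    (hmr : ∀ (c : ℝ) (z w : C), H z ((c : ℂ) • w) = c * H z w)
    (Z : Fin d → ZMod 2 → C →ₗ[ℂ] C)
    (hZ : ∀ j a l b u, Z j a (Z l b u) = Z l b (Z j a u))
    (hH : ∀ j a u v, H (Z j a u) v = - H u (Z j (a + 1) v))
    (s : (Fin d → ZMod 2) → C) :
    ∑ x, H (∑ j, ((jw j x : ℝ) : ℂ) • Z j (x j) (s (x + ej j)))
        (∑ j, ((jw j x : ℝ) : ℂ) • Z j (x j) (s (x + ej j))) =
      ∑ x, ∑ j, H (Z j 0 (s x)) (Z j 0 (s x)) := by
  let F : Fin d → Fin d → ℂ := fun j l =>
    ∑ x, (((jw j x * jw l x : ℝ)) : ℂ) * H (Z j (x j) (s (x + ej j))) (Z l (x l) (s (x + ej l)))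
  have h1 : ∑ x, H (∑ j, ((jw j x : ℝ) : ℂ) • Z j (x j) (s (x + ej j)))
        (∑ j, ((jw j x : ℝ) : ℂ) • Z j (x j) (s (x + ej j))) = ∑ j, ∑ l, F j l := by
    have : ∀ x, H (∑ j, ((jw j x : ℝ) : ℂ) • Z j (x j) (s (x + ej j)))
        (∑ j, ((jw j x : ℝ) : ℂ) • Z j (x j) (s (x + ej j))) =
        ∑ j, ∑ l, (((jw j x * jw l x : ℝ)) : ℂ) *
          H (Z j (x j) (s (x + ej j))) (Z l (x l) (s (x + ej l))) := by
      intro x
      rw [hsl]
      apply Finset.sum_congr rfl
      intro j _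
      rw [hsr]
      apply Finset.sum_congr rfl
      intro l _
      rw [hml, hmr]
      push_cast
      ring
    simp_rw [this]
    rw [Finset.sum_comm]
    apply Finset.sum_congr rfl
    intro j _
    rw [Finset.sum_comm]
  have hHH : ∀ j a l b u v, H (Z j (a + 1) u) (Z l (b + 1) v) = H (Z l b u) (Z j a v) := by
    intro j a l b u v
    have e1 : a + 1 + 1 = a := by
      rw [add_assoc]
      have : (1 : ZMod 2) + 1 = 0 := by decide
      rw [this, add_zero]
    rw [hH, e1, hH l b, hZ]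
  have hlt : ∀ j l, j < l → F j l + F l j = 0 := by
    intro j l hjl
    have h2 : F j l = ∑ x, (((jw j (x + (ej j + ej l)) * jw l (x + (ej j + ej l)) : ℝ)) : ℂ) *
        H (Z j ((x + (ej j + ej l)) j) (s (x + (ej j + ej l) + ej j)))
          (Z l ((x + (ej j + ej l)) l) (s (x + (ej j + ej l) + ej l))) := by
      exact (Equiv.sum_comp (Equiv.addRight (ej j + ej l))
        (fun x => (((jw j x * jw l x : ℝ)) : ℂ) *
          H (Z j (x j) (s (x + ej j))) (Z l (x l) (s (x + ej l))))).symm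
    rw [h2, ← Finset.sum_add_distrib]
    apply Finset.sum_eq_zero
    intro x _
    have e1 : x + (ej j + ej l) + ej j = x + ej l := by
      rw [add_assoc, add_right_comm (ej j) (ej l) (ej j), ej_add_self, zero_add]
    have e2 : x + (ej j + ej l) + ej l = x + ej j := by
      rw [add_assoc, add_assoc, ej_add_self, add_zero]
    have e3 : jw j (x + (ej j + ej l)) = jw j x := by
      rw [← add_assoc, jw_add_le j l hjl.le, jw_add_le j j le_rfl]
    have e4 : jw l (x + (ej j + ej l)) = - jw l x := by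
      rw [← add_assoc, jw_add_le l l le_rfl, jw_add_lt j l hjl]
    have e5 : (x + (ej j + ej l)) j = x j + 1 := by
      simp only [Pi.add_apply, ej, Pi.single_eq_same, Pi.single_eq_of_ne (ne_of_lt hjl), add_zero]
    have e6 : (x + (ej j + ej l)) l = x l + 1 := by
      simp only [Pi.add_apply, ej, Pi.single_eq_same, Pi.single_eq_of_ne (ne_of_gt hjl), zero_add]
    rw [e1, e2, e3, e4, e5, e6, hHH]
    push_cast
    ring
  have hne : ∀ j l, j ≠ l → F j l + F l j = 0 := by
    intro j l hjl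
    rcases lt_or_gt_of_ne hjl with h | h
    · exact hlt j l h
    · rw [add_comm]; exact hlt l j h
  have hdiag : ∀ j, F j j = ∑ x, H (Z j 0 (s x)) (Z j 0 (s x)) := by
    intro j
    have h3 : ∀ a u, H (Z j a u) (Z j a u) = H (Z j 0 u) (Z j 0 u) := by
      intro a u
      have : ∀ a : ZMod 2, a = 0 ∨ a = 0 + 1 := by decide
      rcases this a with rfl | rfl
      · rfl
      · rw [hHH]
    have h2 : ∀ x, (((jw j x * jw j x : ℝ)) : ℂ) * H (Z j (x j) (s (x + ej j)))
        (Z j (x j) (s (x + ej j))) = H (Z j 0 (s (x + ej j))) (Z j 0 (s (x + ej j))) := by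
      intro x; rw [jw_sq, Complex.ofReal_one, one_mul, h3]
    show ∑ x, (((jw j x * jw j x : ℝ)) : ℂ) * H (Z j (x j) (s (x + ej j)))
        (Z j (x j) (s (x + ej j))) = _
    simp_rw [h2]
    exact Equiv.sum_comp (Equiv.addRight (ej j)) (fun x => H (Z j 0 (s x)) (Z j 0 (s x)))
  have hsum : ∑ j, ∑ l, F j l = ∑ j, F j j := by
    have h4 : ∑ j, ∑ l, F j l + ∑ j, ∑ l, F j l = ∑ j, F j j + ∑ j, F j j := by
      conv_lhs =>
        arg 2
        rw [Finset.sum_comm]
      rw [← Finset.sum_add_distrib, ← Finset.sum_add_distrib]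
      apply Finset.sum_congr rfl
      intro j _
      rw [← Finset.sum_add_distrib, Finset.sum_eq_single j (fun l _ hl => hne j l hl.symm)
        (fun h => absurd (Finset.mem_univ j) h)]
    have h5 : (2 : ℂ) * ∑ j, ∑ l, F j l = 2 * ∑ j, F j j := by
      rw [two_mul, two_mul]; exact h4
    exact mul_left_cancel₀ (by norm_num) h5
  rw [h1, hsum, Finset.sum_comm (γ := (Fin d → ZMod 2))]
  apply Finset.sum_congr rfl
  intro j _
  rw [hdiag]

end Pool.Agent.Helper78.PayneAlg
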