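import Mathlib

set_option autoImplicit false

/-!
Unitary eigenbases of linear isometries and traces of matrices of finite order.
-/

namespace Pool.Agent.Helper78.PayneEig

open Finset Module

section Unitary

variable {H : Type*} [NormedAddCommGroup H] [InnerProductSpace ℂ H] [FiniteDimensional ℂ H]

lemma exists_eig_aux (U : H →ₗ[ℂ] H) (hU : ∀ x y, inner ℂ (U x) (U y) = inner ℂ x y) (n : ℕ) :
    ∀ W : Submodule ℂ H, (∀ w ∈ W, U w ∈ W) → finrank ℂ W = n →
      ∃ (f : Fin n → H) (ν : Fin n → ℂ), Orthonormal ℂ f ∧ (∀ j, f j ∈ W) ∧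
        ∀ j, U (f j) = ν j • f j := by
  induction n with
  | zero =>
    intro W _ _
    exact ⟨Fin.elim0, Fin.elim0, by simp, fun j => j.elim0, fun j => j.elim0⟩
  | succ n ih =>
    intro W hW hWn
    have hnt : Nontrivial W := by
      apply Module.nontrivial_of_finrank_pos (R := ℂ)
      rw [hWn]; exact Nat.succ_pos n
    obtain ⟨ν, hν⟩ := Module.End.exists_eigenvalue (U.restrict hW)
    obtain ⟨v, hv⟩ := hν.exists_hasEigenvector
    have hv0 : (v : H) ≠ 0 := fun h => hv.2 (Subtype.ext h)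
    have hvU : U (v : H) = ν • (v : H) := by
      have h1 := hv.apply_eq_smul
      have h2 := congrArg (fun w : W => (w : H)) h1
      exact h2
    have hvn : ‖(v : H)‖ ≠ 0 := norm_ne_zero_iff.mpr hv0
    let u : H := ((‖(v : H)‖⁻¹ : ℝ) : ℂ) • (v : H)
    have hu1 : ‖u‖ = 1 := by
      show ‖((‖(v : H)‖⁻¹ : ℝ) : ℂ) • (v : H)‖ = 1
      rw [norm_smul, Complex.norm_real, norm_inv, norm_norm, inv_mul_cancel₀ hvn]
    have huW : u ∈ W := W.smul_mem _ v.2
    have huU : U u = ν • u := by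
      show U (((‖(v : H)‖⁻¹ : ℝ) : ℂ) • (v : H)) = ν • (((‖(v : H)‖⁻¹ : ℝ) : ℂ) • (v : H))
      rw [map_smul, hvU, smul_comm]
    have hν0 : ν ≠ 0 := by
      rintro rfl
      have h1 := hU u u
      rw [huU, zero_smul, inner_zero_left] at h1
      have h2 : u = 0 := inner_self_eq_zero.mp h1.symm
      rw [h2, norm_zero] at hu1
      exact absurd hu1 (by norm_num)
    let K : Submodule ℂ H := Submodule.span ℂ {u}
    have hKW : K ≤ W := by
      rw [Submodule.span_le]
      simpa using huW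
    have hu0 : u ≠ 0 := by
      intro h
      rw [h, norm_zero] at hu1
      exact absurd hu1 (by norm_num)
    have hdim : finrank ℂ (Kᗮ ⊓ W : Submodule ℂ H) = n := by
      apply Submodule.finrank_add_inf_finrank_orthogonal' hKW
      rw [finrank_span_singleton hu0, hWn, add_comm]
    obtain ⟨f, ν', hf1, hf2, hf3⟩ := ih (Kᗮ ⊓ W) (by
      rintro w ⟨hw1, hw2⟩
      refine ⟨?_, hW w hw2⟩
      have h1 : inner ℂ u w = 0 := by
        rw [SetLike.mem_coe, Submodule.mem_orthogonal] at hw1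
        exact hw1 u (Submodule.mem_span_singleton_self u)
      rw [SetLike.mem_coe, Submodule.mem_orthogonal]
      intro z hz
      obtain ⟨c, rfl⟩ := Submodule.mem_span_singleton.mp hz
      have h2 : U (ν⁻¹ • u) = u := by
        rw [map_smul, huU, smul_smul, inv_mul_cancel₀ hν0, one_smul]
      rw [inner_smul_left]
      conv_lhs => rw [← h2]
      rw [hU, inner_smul_left, h1, mul_zero, mul_zero]) hdim
    refine ⟨Matrix.vecCons u f, Matrix.vecCons ν ν', ?_, ?_, ?_⟩
    · rw [orthonormal_vecCons_iff]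
      refine ⟨hu1, ?_, hf1⟩
      intro i
      have h1 := (hf2 i).1
      rw [SetLike.mem_coe, Submodule.mem_orthogonal] at h1
      exact h1 u (Submodule.mem_span_singleton_self u)
    · intro j
      refine Fin.cases ?_ ?_ j
      · simpa using huW
      · intro i
        simpa using (hf2 i).2
    · intro j
      refine Fin.cases ?_ ?_ j
      · simpa using huU
      · intro i
        simpa using hf3 i

end Unitary

/-- A real orthogonal matrix has a unitary eigenbasis. -/
lemma exists_unitary_eig {d : ℕ} (G : Matrix (Fin d) (Fin d) ℝ) (hG : G * G.transpose = 1) :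
    ∃ (f : Fin d → Fin d → ℂ) (ν : Fin d → ℂ),
      (∀ j, ν j * (starRingEnd ℂ) (ν j) = 1) ∧
      (∀ j l, ∑ i, f j i * (G i l : ℂ) = ν j * f j l) ∧
      (∀ i l, ∑ j, f j i * (starRingEnd ℂ) (f j l) = if i = l then 1 else 0) ∧
      (∀ j, ∃ i, f j i ≠ 0) := by
  classical
  let Gc : Matrix (Fin d) (Fin d) ℂ := (G.map (algebraMap ℝ ℂ)).transpose
  let U : EuclideanSpace ℂ (Fin d) →ₗ[ℂ] EuclideanSpace ℂ (Fin d) := Matrix.toEuclideanLin Gc
  have hUapp : ∀ x l, (U x) l = ∑ i, x i * (G i l : ℂ) := by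
    intro x l
    show (Matrix.toEuclideanLin Gc x) l = _
    rw [Matrix.toLpLin_apply]
    show ∑ i, Gc l i * x i = _
    apply Finset.sum_congr rfl
    intro i _
    show (algebraMap ℝ ℂ (G i l)) * x i = _
    rw [mul_comm]; rfl
  have hGG : ∀ i i', ∑ l, G i l * G i' l = if i = i' then 1 else 0 := by
    intro i i'
    have h1 := congrFun (congrFun hG i) i'
    rw [Matrix.mul_apply, Matrix.one_apply] at h1
    simpa [Matrix.transpose_apply] using h1
  have hU : ∀ x y, inner ℂ (U x) (U y) = inner ℂ x y := by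
    intro x y
    rw [PiLp.inner_apply, PiLp.inner_apply]
    have h1 : ∀ l, inner ℂ ((U x) l) ((U y) l) =
        ∑ i, ∑ i', (starRingEnd ℂ) (x i) * y i' * ((G i l * G i' l : ℝ) : ℂ) := by
      intro l
      rw [hUapp, hUapp]
      show (∑ i, y i * (G i l : ℂ)) * (starRingEnd ℂ) (∑ i, x i * (G i l : ℂ)) = _
      rw [map_sum, mul_comm, Finset.sum_mul_sum]
      apply Finset.sum_congr rfl
      intro i _
      apply Finset.sum_congr rfl
      intro i' _
      rw [map_mul, Complex.conj_ofReal]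
      push_cast
      ring
    simp_rw [h1]
    rw [Finset.sum_comm]
    apply Finset.sum_congr rfl
    intro i _
    rw [Finset.sum_comm]
    simp_rw [← Finset.mul_sum, ← Complex.ofReal_sum, hGG]
    rw [Finset.sum_eq_single i]
    · simp
      show _ = y i * (starRingEnd ℂ) (x i)
      rw [mul_comm]
    · intro i' _ hi'
      rw [if_neg (fun h => hi' h.symm)]
      simp
    · intro h; exact absurd (Finset.mem_univ i) h
  obtain ⟨f, ν, hf1, -, hf3⟩ := exists_eig_aux U hU d ⊤ (fun _ _ => Submodule.mem_top) (by simp)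
  have hinner : ∀ j l, ∑ i, (starRingEnd ℂ) (f j i) * f l i = if j = l then 1 else 0 := by
    intro j l
    have h1 := orthonormal_iff_ite.mp hf1 j l
    rw [PiLp.inner_apply] at h1
    rw [← h1]
    apply Finset.sum_congr rfl
    intro i _
    show _ = f l i * (starRingEnd ℂ) (f j i)
    rw [mul_comm]
  refine ⟨fun j i => f j i, ν, ?_, ?_, ?_, ?_⟩
  · intro j
    have h1 := hU (f j) (f j)
    rw [hf3, inner_smul_left, inner_smul_right, orthonormal_iff_ite.mp hf1 j j, if_pos rfl,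
      mul_one] at h1
    rw [mul_comm]; exact h1
  · intro j l
    rw [← hUapp, hf3]
    rfl
  · let F : Matrix (Fin d) (Fin d) ℂ := fun i j => f j i
    have h1 : (F.conjTranspose) * F = 1 := by
      ext j l
      rw [Matrix.mul_apply, Matrix.one_apply]
      simp only [Matrix.conjTranspose_apply]
      exact hinner j l
    have h2 : F * F.conjTranspose = 1 := mul_eq_one_comm.mp h1
    intro i l
    have h3 := congrFun (congrFun h2 i) l
    rw [Matrix.mul_apply, Matrix.one_apply] at h3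
    exact h3
  · intro j
    by_contra hcon
    push Not at hcon
    have h1 := hinner j j
    simp [hcon] at h1

section Mult

variable {W : Type*} [AddCommGroup W] [Module ℂ W]

lemma idem (T : Module.End ℂ W) (N : ℕ) (hN : 0 < N) (hT : T ^ N = 1) :
    T * ((N : ℂ)⁻¹ • ∑ j ∈ Finset.range N, T ^ j) = (N : ℂ)⁻¹ • ∑ j ∈ Finset.range N, T ^ j ∧
    IsIdempotentElem ((N : ℂ)⁻¹ • ∑ j ∈ Finset.range N, T ^ j) := by
  have hN0 : (N : ℂ) ≠ 0 := by exact_mod_cast hN.ne'
  have h1 : T * (∑ j ∈ Finset.range N, T ^ j) = ∑ j ∈ Finset.range N, T ^ j := by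
    rw [Finset.mul_sum]
    have h2 := Finset.sum_range_succ (fun j => T ^ j) N
    have h3 := Finset.sum_range_succ' (fun j => T ^ j) N
    rw [h2, hT, pow_zero] at h3
    have h4 := add_right_cancel h3
    rw [h4]
    apply Finset.sum_congr rfl
    intro j _
    rw [pow_succ']
  have hTe : ∀ i, T ^ i * (∑ j ∈ Finset.range N, T ^ j) = ∑ j ∈ Finset.range N, T ^ j := by
    intro i
    induction i with
    | zero => rw [pow_zero, one_mul]
    | succ i ih => rw [pow_succ, mul_assoc, h1, ih]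
  refine ⟨?_, ?_⟩
  · rw [mul_smul_comm, h1]
  · show ((N : ℂ)⁻¹ • ∑ j ∈ Finset.range N, T ^ j) * ((N : ℂ)⁻¹ • ∑ j ∈ Finset.range N, T ^ j) =
      (N : ℂ)⁻¹ • ∑ j ∈ Finset.range N, T ^ j
    rw [smul_mul_smul_comm, Finset.sum_mul]
    simp_rw [hTe]
    rw [Finset.sum_const, Finset.card_range, ← Nat.cast_smul_eq_nsmul ℂ, smul_smul]
    congr 1
    field_simp

lemma exists_mult [FiniteDimensional ℂ W] (T : Module.End ℂ W) (N : ℕ) (hN : 0 < N)
    (hT : T ^ N = 1) (ζ : ℂ) (hζ : IsPrimitiveRoot ζ N) :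
    ∃ n : ℕ → ℕ, ∀ j : ℕ, LinearMap.trace ℂ W (T ^ j) =
      ∑ i ∈ Finset.range N, (n i : ℂ) * ζ ^ (i * j) := by
  have hN0 : (N : ℂ) ≠ 0 := by exact_mod_cast hN.ne'
  have hζ0 : ζ ≠ 0 := hζ.ne_zero hN.ne'
  let Ti : ℕ → Module.End ℂ W := fun i => (ζ ^ i)⁻¹ • T
  have hTi : ∀ i, (Ti i) ^ N = 1 := by
    intro i
    show ((ζ ^ i)⁻¹ • T) ^ N = 1
    rw [smul_pow, hT, inv_pow, ← pow_mul, mul_comm i N, pow_mul, hζ.pow_eq_one, one_pow, inv_one,
      one_smul]
  let e : ℕ → Module.End ℂ W := fun i => (N : ℂ)⁻¹ • ∑ j ∈ Finset.range N, (Ti i) ^ j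
  have he1 : ∀ i, Ti i * e i = e i := fun i => (idem (Ti i) N hN (hTi i)).1
  have he2 : ∀ i, IsIdempotentElem (e i) := fun i => (idem (Ti i) N hN (hTi i)).2
  have he3 : ∀ i, T * e i = ζ ^ i • e i := by
    intro i
    have h1 : T = ζ ^ i • Ti i := by
      show T = ζ ^ i • ((ζ ^ i)⁻¹ • T)
      rw [smul_smul, mul_inv_cancel₀ (pow_ne_zero _ hζ0), one_smul]
    conv_lhs => rw [h1]
    rw [smul_mul_assoc, he1]
  have he4 : ∀ i j, T ^ j * e i = ζ ^ (i * j) • e i := by
    intro i j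
    induction j with
    | zero => simp
    | succ j ih => rw [pow_succ, mul_assoc, he3, mul_smul_comm, ih, smul_smul, ← pow_add,
        mul_add, mul_one, add_comm]
  have hsum : ∑ i ∈ Finset.range N, e i = 1 := by
    show ∑ i ∈ Finset.range N, (N : ℂ)⁻¹ • ∑ j ∈ Finset.range N, ((ζ ^ i)⁻¹ • T) ^ j = 1
    rw [← Finset.smul_sum, Finset.sum_comm]
    have h1 : ∀ j ∈ Finset.range N, ∑ i ∈ Finset.range N, ((ζ ^ i)⁻¹ • T) ^ j =
        if j = 0 then (N : ℂ) • (1 : Module.End ℂ W) else 0 := by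
      intro j hj
      have h2 : ∀ i, ((ζ ^ i)⁻¹ • T) ^ j = ((ζ ^ j)⁻¹) ^ i • T ^ j := by
        intro i
        rw [smul_pow, inv_pow, inv_pow, ← pow_mul, ← pow_mul, mul_comm i j]
      simp_rw [h2, ← Finset.sum_smul]
      by_cases hj0 : j = 0
      · rw [if_pos hj0, hj0]
        simp
      · rw [if_neg hj0]
        have h3 : (ζ ^ j)⁻¹ ≠ 1 := by
          intro h
          rw [inv_eq_one] at h
          exact hζ.pow_ne_one_of_pos_of_lt hj0 (Finset.mem_range.mp hj) h
        have h4 : (∑ i ∈ Finset.range N, ((ζ ^ j)⁻¹) ^ i) * ((ζ ^ j)⁻¹ - 1) = 0 := by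
          rw [geom_sum_mul, inv_pow, ← pow_mul, mul_comm j N, pow_mul, hζ.pow_eq_one, one_pow]
          simp
        rw [(mul_eq_zero.mp h4).resolve_right (sub_ne_zero.mpr h3), zero_smul]
    rw [Finset.sum_congr rfl h1, Finset.sum_ite_eq' (Finset.range N) 0,
      if_pos (Finset.mem_range.mpr hN), smul_smul, inv_mul_cancel₀ hN0, one_smul]
  refine ⟨fun i => finrank ℂ (LinearMap.range (e i)), ?_⟩
  intro j
  have h1 : T ^ j = ∑ i ∈ Finset.range N, ζ ^ (i * j) • e i := by
    conv_lhs => rw [← mul_one (T ^ j), ← hsum, Finset.mul_sum]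
    exact Finset.sum_congr rfl (fun i _ => he4 i j)
  rw [h1, map_sum]
  apply Finset.sum_congr rfl
  intro i _
  rw [map_smul, smul_eq_mul, mul_comm]
  congr 1
  exact ((LinearMap.isProj_range_iff_isIdempotentElem (e i)).mpr (he2 i)).trace

end Mult

/-- Prime power order: vanishing traces force divisibility of the dimension. -/
lemma dvd_of_traces_pp {W : Type*} [AddCommGroup W] [Module ℝ W] [FiniteDimensional ℝ W]
    (T : Module.End ℝ W) (p n r : ℕ) (hp : p.Prime) (hrn : r < n) (hT : T ^ (p ^ n) = 1)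
    (htr : ∀ i ≤ r, LinearMap.trace ℝ W (T ^ (p ^ i)) = 0) : p ^ (r + 1) ∣ finrank ℝ W := by
  classical
  have hfact : Fact p.Prime := ⟨hp⟩
  have hN : 0 < p ^ n := pow_pos hp.pos _
  let b := finBasis ℝ W
  let A : Matrix (Fin (finrank ℝ W)) (Fin (finrank ℝ W)) ℝ := LinearMap.toMatrix b b T
  let Ac : Matrix (Fin (finrank ℝ W)) (Fin (finrank ℝ W)) ℂ := (algebraMap ℝ ℂ).mapMatrix A
  have hApow : ∀ j : ℕ, A ^ j = LinearMap.toMatrix b b (T ^ j) := by
    intro j
    rw [LinearMap.toMatrix_pow]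
  have hAcpow : ∀ j : ℕ, Ac ^ j = (algebraMap ℝ ℂ).mapMatrix (A ^ j) := by
    intro j
    rw [map_pow]
  have hAc : Ac ^ (p ^ n) = 1 := by
    rw [hAcpow, hApow, hT, LinearMap.toMatrix_one, map_one]
  have htrAc : ∀ j : ℕ, (Ac ^ j).trace = ((LinearMap.trace ℝ W (T ^ j) : ℝ) : ℂ) := by
    intro j
    rw [hAcpow, hApow, LinearMap.trace_eq_matrix_trace ℝ b]
    rw [Matrix.trace, Matrix.trace]
    push_cast
    rfl
  let Tc : Module.End ℂ (Fin (finrank ℝ W) → ℂ) := Matrix.toLin' Ac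
  have hTcpow : ∀ j : ℕ, Tc ^ j = Matrix.toLin' (Ac ^ j) := by
    intro j
    rw [Matrix.toLin'_pow]
  have hTc : Tc ^ (p ^ n) = 1 := by
    rw [hTcpow, hAc, Matrix.toLin'_one]; rfl
  have htrTc : ∀ j : ℕ, LinearMap.trace ℂ _ (Tc ^ j) = ((LinearMap.trace ℝ W (T ^ j) : ℝ) : ℂ) := by
    intro j
    rw [hTcpow, Matrix.trace_toLin'_eq, htrAc]
  let ζ : ℂ := Complex.exp (2 * Real.pi * Complex.I / (p ^ n : ℕ))
  have hζ : IsPrimitiveRoot ζ (p ^ n) := Complex.isPrimitiveRoot_exp (p ^ n) hN.ne'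
  obtain ⟨mu, hmu⟩ := exists_mult Tc (p ^ n) hN hTc ζ hζ
  let F : Polynomial ℤ := ∑ i ∈ Finset.range (p ^ n), (mu i : Polynomial ℤ) * Polynomial.X ^ i
  have hF : ∀ j : ℕ, Polynomial.aeval (ζ ^ j) F = ((LinearMap.trace ℝ W (T ^ j) : ℝ) : ℂ) := by
    intro j
    rw [← htrTc, hmu]
    show Polynomial.aeval (ζ ^ j) (∑ i ∈ Finset.range (p ^ n),
      (mu i : Polynomial ℤ) * Polynomial.X ^ i) = _
    rw [map_sum]
    apply Finset.sum_congr rfl
    intro i _
    rw [map_mul, map_natCast, map_pow, Polynomial.aeval_X, ← pow_mul, mul_comm j i]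
  have hF1 : Polynomial.eval 1 F = (finrank ℝ W : ℤ) := by
    have h1 := hF 0
    rw [pow_zero, pow_zero] at h1
    have h2 : LinearMap.trace ℝ W (1 : Module.End ℝ W) = (finrank ℝ W : ℝ) :=
      LinearMap.trace_one ℝ W
    rw [h2] at h1
    have h3 : Polynomial.aeval (1 : ℂ) F = ((Polynomial.eval 1 F : ℤ) : ℂ) := by
      have h4 := Polynomial.aeval_algebraMap_apply ℂ (1 : ℤ) F
      rw [map_one] at h4
      rw [h4, Polynomial.coe_aeval_eq_eval]
      rfl
    rw [h3] at h1
    exact_mod_cast h1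
  have hprim : ∀ i ≤ n, IsPrimitiveRoot (ζ ^ (p ^ i)) (p ^ (n - i)) := by
    intro i hi
    have h1 := hζ.pow hN (a := p ^ i) (b := p ^ (n - i)) (by
      rw [← pow_add, Nat.add_sub_cancel' hi])
    exact h1
  have hfac : ∀ m, m ≤ r + 1 → ∃ q : Polynomial ℤ,
      F = (∏ i ∈ Finset.range m, Polynomial.cyclotomic (p ^ (n - i)) ℤ) * q := by
    intro m
    induction m with
    | zero => intro _; exact ⟨F, by simp⟩
    | succ m ih =>
      intro hm
      obtain ⟨q, hq⟩ := ih (by omega)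
      have hmn : m ≤ n := by omega
      have h1 : Polynomial.aeval (ζ ^ (p ^ m)) F = 0 := by
        rw [hF, htr m (by omega)]; simp
      rw [hq, map_mul] at h1
      have h2 : Polynomial.aeval (ζ ^ (p ^ m))
          (∏ i ∈ Finset.range m, Polynomial.cyclotomic (p ^ (n - i)) ℤ) ≠ 0 := by
        rw [map_prod, Finset.prod_ne_zero_iff]
        intro i hi h0
        have him : i < m := Finset.mem_range.mp hi
        rw [Polynomial.aeval_def, Polynomial.eval₂_eq_eval_map, Polynomial.map_cyclotomic] at h0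
        have h3 : (Polynomial.cyclotomic (p ^ (n - i)) ℂ).IsRoot (ζ ^ (p ^ m)) := h0
        have hne : NeZero ((p ^ (n - i) : ℕ) : ℂ) :=
          ⟨by exact_mod_cast (pow_pos hp.pos (n - i)).ne'⟩
        rw [Polynomial.isRoot_cyclotomic_iff] at h3
        have h4 := h3.unique (hprim m hmn)
        have h5 := Nat.pow_right_injective hp.two_le h4
        omega
      have h3 := (mul_eq_zero.mp h1).resolve_left h2
      have h4 : Polynomial.cyclotomic (p ^ (n - m)) ℤ ∣ q := by
        rw [Polynomial.cyclotomic_eq_minpoly (hprim m hmn) (pow_pos hp.pos _)]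
        exact minpoly.isIntegrallyClosed_dvd ((hprim m hmn).isIntegral (pow_pos hp.pos _)) h3
      obtain ⟨q', hq'⟩ := h4
      refine ⟨q', ?_⟩
      rw [hq, hq', Finset.prod_range_succ, mul_assoc]
  obtain ⟨q, hq⟩ := hfac (r + 1) le_rfl
  have h1 := congrArg (Polynomial.eval 1) hq
  rw [Polynomial.eval_mul, Polynomial.eval_prod, hF1] at h1
  have h2 : ∏ i ∈ Finset.range (r + 1), Polynomial.eval 1 (Polynomial.cyclotomic (p ^ (n - i)) ℤ) =
      (p : ℤ) ^ (r + 1) := by
    rw [← Finset.card_range (r + 1)]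
    conv_rhs => rw [← Finset.prod_const]
    rw [Finset.card_range]
    apply Finset.prod_congr rfl
    intro i hi
    have hi' : i < r + 1 := Finset.mem_range.mp hi
    obtain ⟨c, hc⟩ : ∃ c, n - i = c + 1 := ⟨n - i - 1, by omega⟩
    rw [hc]
    exact Polynomial.eval_one_cyclotomic_prime_pow c
  rw [h2] at h1
  have h4 : ((p ^ (r + 1) : ℕ) : ℤ) ∣ (finrank ℝ W : ℤ) := ⟨_, by push_cast; exact h1⟩
  exact_mod_cast h4

end Pool.Agent.Helper78.PayneEig
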