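import Pool.Agent.Helper78.PayneAlg

set_option autoImplicit false

/-!
Invariant negative subspaces and the general extension step.
-/

namespace Pool.Agent.Helper78.PayneAlg

open Finset Module

variable {E : Type*} [AddCommGroup E] [Module ℝ E]

/-- General extension step: a new negative direction orthogonal to `V`. -/
lemma extend_one (M : E →ₗ[ℝ] E →ₗ[ℝ] ℝ) (hM : ∀ u v, M u v = M v u)
    (S V : Submodule ℝ E) (hV : V ≤ S) (hneg : ∀ v ∈ V, v ≠ 0 → M v v < 0)
    {k : ℕ} (hfd : FiniteDimensional ℝ V) (hfin : finrank ℝ V = k) (w : E) (hwS : w ∈ S)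
    (hw : M w w < 0) (hwV : ∀ v ∈ V, M w v = 0) :
    ∃ W : Submodule ℝ E, W ≤ S ∧ finrank ℝ W = k + 1 ∧ ∀ x ∈ W, x ≠ 0 → M x x < 0 := by
  have hwnot : w ∉ V := by
    intro h
    have := hwV w h
    linarith
  have hw0 : w ≠ 0 := by
    rintro rfl
    simp at hw
  refine ⟨V ⊔ Submodule.span ℝ {w}, ?_, ?_, ?_⟩
  · apply sup_le hV
    rw [Submodule.span_le]
    simpa using hwS
  · have hdisj : V ⊓ Submodule.span ℝ {w} = ⊥ := by
      rw [eq_bot_iff]
      rintro y ⟨hy1, hy2⟩
      obtain ⟨s, rfl⟩ := Submodule.mem_span_singleton.mp hy2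
      by_cases hs : s = 0
      · simp [hs]
      · exfalso
        apply hwnot
        have := V.smul_mem s⁻¹ hy1
        rwa [smul_smul, inv_mul_cancel₀ hs, one_smul] at this
    have h1 := Submodule.finrank_sup_add_finrank_inf_eq V (Submodule.span ℝ {w})
    rw [hdisj, finrank_bot, hfin, finrank_span_singleton hw0] at h1
    simpa using h1
  · intro y hy hy0
    obtain ⟨v, hv, z, hz, rfl⟩ := Submodule.mem_sup.mp hy
    obtain ⟨s, rfl⟩ := Submodule.mem_span_singleton.mp hz
    have h1 := hwV v hv
    have h2 : M (v + s • w) (v + s • w) = M v v + s ^ 2 * M w w := by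
      simp only [map_add, map_smul, LinearMap.add_apply, LinearMap.smul_apply, smul_eq_mul]
      rw [hM v w, h1]
      ring
    rw [h2]
    by_cases hv0 : v = 0
    · have hs : s ≠ 0 := by
        rintro rfl
        apply hy0
        rw [hv0]; simp
      rw [hv0]
      simp only [map_zero]
      have : 0 < s ^ 2 := by positivity
      nlinarith
    · have h3 := hneg v hv hv0
      have : 0 ≤ s ^ 2 := by positivity
      nlinarith

/-- From a subspace of dimension at least `k` to one of dimension exactly `k`. -/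
lemma exists_sub_finrank (V : Submodule ℝ E) (hfd : FiniteDimensional ℝ V) (k : ℕ)
    (hk : k ≤ finrank ℝ V) : ∃ W : Submodule ℝ E, W ≤ V ∧ finrank ℝ W = k := by
  obtain ⟨f, hf⟩ := exists_linearIndependent_of_le_finrank hk
  have hf' : LinearIndependent ℝ (fun i => (f i : E)) :=
    hf.map' V.subtype (Submodule.ker_subtype V)
  refine ⟨Submodule.span ℝ (Set.range (fun i => (f i : E))), ?_, ?_⟩
  · rw [Submodule.span_le]
    rintro _ ⟨i, rfl⟩
    exact (f i).2
  · rw [finrank_span_eq_card hf', Fintype.card_fin]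

section Inner

variable {W : Type*} [NormedAddCommGroup W] [InnerProductSpace ℝ W] [FiniteDimensional ℝ W]

/-- The invariant negative subspace of a symmetric operator. -/
lemma spectral_neg (A : W →ₗ[ℝ] W) (hA : A.IsSymmetric) (R : W →ₗ[ℝ] W)
    (hcomm : ∀ x, A (R x) = R (A x)) (V : Submodule ℝ W)
    (hV : ∀ v ∈ V, v ≠ 0 → inner ℝ (A v) v < 0) :
    ∃ V' : Submodule ℝ W, (∀ v ∈ V', R v ∈ V') ∧ (∀ v ∈ V', v ≠ 0 → inner ℝ (A v) v < 0) ∧
      finrank ℝ V ≤ finrank ℝ V' := by
  set n := finrank ℝ W with hn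
  let b : OrthonormalBasis (Fin n) ℝ W := hA.eigenvectorBasis hn.symm
  let l : Fin n → ℝ := hA.eigenvalues hn.symm
  have hb : ∀ i, A (b i) = l i • b i := fun i => hA.apply_eigenvectorBasis hn.symm i
  let V' : Submodule ℝ W := Submodule.span ℝ (b '' {i | l i < 0})
  let U : Submodule ℝ W := Submodule.span ℝ (b '' {i | 0 ≤ l i})
  have hexp : ∀ v : W, inner ℝ (A v) v = ∑ i, l i * (inner ℝ (b i) v) ^ 2 := by
    intro v
    rw [← b.sum_inner_mul_inner (A v) v]
    apply Finset.sum_congr rfl
    intro i _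
    have h1 : inner ℝ (A v) (b i) = l i * inner ℝ (b i) v := by
      rw [hA v (b i), hb, inner_smul_right, real_inner_comm]
    rw [h1]; ring
  have hmemV' : ∀ v ∈ V', ∀ i, 0 ≤ l i → inner ℝ (b i) v = 0 := by
    intro v hv i hi
    induction hv using Submodule.span_induction with
    | mem x hx =>
      obtain ⟨j, hj, rfl⟩ := hx
      apply b.orthonormal.2
      rintro rfl
      exact absurd hi (not_le.mpr hj)
    | zero => simp
    | add x y _ _ hx hy => rw [inner_add_right, hx, hy, add_zero]
    | smul a x _ hx => rw [inner_smul_right, hx, mul_zero]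
  have hmemU : ∀ v ∈ U, ∀ i, l i < 0 → inner ℝ (b i) v = 0 := by
    intro v hv i hi
    induction hv using Submodule.span_induction with
    | mem x hx =>
      obtain ⟨j, hj, rfl⟩ := hx
      apply b.orthonormal.2
      rintro rfl
      exact absurd hj (not_le.mpr hi)
    | zero => simp
    | add x y _ _ hx hy => rw [inner_add_right, hx, hy, add_zero]
    | smul a x _ hx => rw [inner_smul_right, hx, mul_zero]
  have hV'iff : ∀ v, (∀ i, 0 ≤ l i → inner ℝ (b i) v = 0) → v ∈ V' := by
    intro v hv
    rw [← b.sum_repr' v]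
    apply Submodule.sum_mem
    intro i _
    by_cases hi : l i < 0
    · exact Submodule.smul_mem _ _ (Submodule.subset_span ⟨i, hi, rfl⟩)
    · rw [hv i (not_lt.mp hi), zero_smul]
      exact Submodule.zero_mem _
  refine ⟨V', ?_, ?_, ?_⟩
  · intro v hv
    induction hv using Submodule.span_induction with
    | mem x hx =>
      obtain ⟨j, hj, rfl⟩ := hx
      apply hV'iff
      intro i hi
      have h1 : A (R (b j)) = l j • R (b j) := by rw [hcomm, hb, map_smul]
      have h2 : inner ℝ (A (b i)) (R (b j)) = inner ℝ (b i) (A (R (b j))) := hA _ _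
      rw [h1, hb, inner_smul_left, inner_smul_right] at h2
      have h3 : (l i - l j) * inner ℝ (b i) (R (b j)) = 0 := by
        have : (starRingEnd ℝ) (l i) = l i := rfl
        rw [this] at h2
        linarith
      have hj' : l j < 0 := hj
      have h4 : l i - l j ≠ 0 := by linarith
      exact (mul_eq_zero.mp h3).resolve_left h4
    | zero => rw [map_zero]; exact Submodule.zero_mem _
    | add x y _ _ hx hy => rw [map_add]; exact Submodule.add_mem _ hx hy
    | smul a x _ hx => rw [map_smul]; exact Submodule.smul_mem _ _ hx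
  · intro v hv hv0
    rw [hexp]
    have h1 : ∃ i, l i < 0 ∧ inner ℝ (b i) v ≠ 0 := by
      by_contra hcon
      push Not at hcon
      apply hv0
      rw [← b.sum_repr' v]
      apply Finset.sum_eq_zero
      intro i _
      by_cases hi : l i < 0
      · rw [hcon i hi, zero_smul]
      · rw [hmemV' v hv i (not_lt.mp hi), zero_smul]
    obtain ⟨i, hi, hi2⟩ := h1
    have h2 : ∑ j, l j * (inner ℝ (b j) v) ^ 2 ≤ l i * (inner ℝ (b i) v) ^ 2 := by
      rw [← Finset.sum_erase_add _ _ (Finset.mem_univ i)]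
      have : ∑ j ∈ Finset.univ.erase i, l j * (inner ℝ (b j) v) ^ 2 ≤ 0 := by
        apply Finset.sum_nonpos
        intro j _
        by_cases hj : l j < 0
        · exact mul_nonpos_of_nonpos_of_nonneg hj.le (by positivity)
        · rw [hmemV' v hv j (not_lt.mp hj)]; simp
      linarith
    have h3 : l i * (inner ℝ (b i) v) ^ 2 < 0 := mul_neg_of_neg_of_pos hi (by positivity)
    linarith
  · have hdisj : V ⊓ U = ⊥ := by
      rw [eq_bot_iff]
      rintro y ⟨hy1, hy2⟩
      by_contra hy0
      have hy0' : y ≠ 0 := hy0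
      have h1 := hV y hy1 hy0'
      rw [hexp] at h1
      have h2 : 0 ≤ ∑ j, l j * (inner ℝ (b j) y) ^ 2 := by
        apply Finset.sum_nonneg
        intro j _
        by_cases hj : l j < 0
        · rw [hmemU y hy2 j hj]; simp
        · exact mul_nonneg (not_lt.mp hj) (by positivity)
      linarith
    have hsup : V' ⊔ U = ⊤ := by
      rw [eq_top_iff]
      intro v _
      rw [← b.sum_repr' v]
      apply Submodule.sum_mem
      intro i _
      by_cases hi : l i < 0
      · exact Submodule.mem_sup_left (Submodule.smul_mem _ _ (Submodule.subset_span ⟨i, hi, rfl⟩))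
      · exact Submodule.mem_sup_right
          (Submodule.smul_mem _ _ (Submodule.subset_span ⟨i, not_lt.mp hi, rfl⟩))
    have h1 := Submodule.finrank_sup_add_finrank_inf_eq V U
    have h2 := Submodule.finrank_sup_add_finrank_inf_eq V' U
    rw [hdisj, finrank_bot] at h1
    rw [hsup, finrank_top] at h2
    have h3 : finrank ℝ ↥(V ⊔ U) ≤ finrank ℝ W := Submodule.finrank_le _
    omega

end Inner


/-- An `R`-invariant negative subspace of at least the same dimension. -/
lemma exists_invariant (B0 M' : E →ₗ[ℝ] E →ₗ[ℝ] ℝ)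
    (hsymm : ∀ u v, B0 u v = B0 v u) (hpos : ∀ u, 0 ≤ B0 u u)
    (hdef : ∀ u, B0 u u = 0 → u = 0) (hM' : ∀ u v, M' u v = M' v u)
    (R : E →ₗ[ℝ] E) (N : ℕ) (hN : 0 < N) (hRN : R ^ N = 1)
    (hRM : ∀ u v, M' (R u) (R v) = M' u v) (hRB : ∀ u v, B0 (R u) (R v) = B0 u v)
    (S V : Submodule ℝ E) (hVS : V ≤ S) (hRS : ∀ u ∈ S, R u ∈ S)
    (hfd : FiniteDimensional ℝ V) (hneg : ∀ v ∈ V, v ≠ 0 → M' v v < 0) :
    ∃ V' : Submodule ℝ E, V' ≤ S ∧ FiniteDimensional ℝ V' ∧ (∀ v ∈ V', R v ∈ V') ∧
      (∀ v ∈ V', v ≠ 0 → M' v v < 0) ∧ finrank ℝ V ≤ finrank ℝ V' := by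
  classical
  -- the invariant finite dimensional space generated by `V`
  let Wb : Submodule ℝ E := ⨆ j : Fin N, V.map (R ^ (j : ℕ))
  have hWfd : FiniteDimensional ℝ Wb := by
    have : ∀ j : Fin N, FiniteDimensional ℝ (V.map (R ^ (j : ℕ))) := fun j => inferInstance
    exact Submodule.finite_iSup _
  have hpowS : ∀ j : ℕ, ∀ u ∈ S, (R ^ j) u ∈ S := by
    intro j
    induction j with
    | zero => intro u hu; simpa using hu
    | succ j ih =>
      intro u hu
      rw [pow_succ']
      exact hRS _ (ih u hu)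
  have hWS : Wb ≤ S := by
    apply iSup_le
    rintro j _ ⟨v, hv, rfl⟩
    exact hpowS j v (hVS hv)
  have hmem : ∀ (j : ℕ) (v : E), v ∈ V → (R ^ j) v ∈ Wb := by
    intro j v hv
    have h1 : (R ^ j) = R ^ (j % N) := by
      conv_lhs => rw [← Nat.div_add_mod j N, pow_add, pow_mul, hRN, one_pow, one_mul]
    rw [h1]
    exact (le_iSup (fun j : Fin N => V.map (R ^ (j : ℕ))) ⟨j % N, Nat.mod_lt _ hN⟩)
      (Submodule.mem_map_of_mem hv)
  have hVW : V ≤ Wb := fun v hv => by simpa using hmem 0 v hv
  have hRW : ∀ w ∈ Wb, R w ∈ Wb := by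
    intro w hw
    have h1 : Wb ≤ Wb.comap R := by
      apply iSup_le
      rintro j _ ⟨v, hv, rfl⟩
      show R ((R ^ (j : ℕ)) v) ∈ Wb
      have := hmem ((j : ℕ) + 1) v hv
      rwa [pow_succ'] at this
    exact h1 hw
  -- the inner product
  let core : InnerProductSpace.Core ℝ Wb :=
    { inner := fun u v => B0 (u : E) (v : E)
      conj_inner_symm := fun u v => by
        show (starRingEnd ℝ) (B0 (v : E) (u : E)) = B0 (u : E) (v : E)
        rw [conj_trivial, hsymm]
      re_inner_nonneg := fun u => hpos _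
      add_left := fun u v w => by
        show B0 ((u + v : Wb) : E) (w : E) = _
        rw [Submodule.coe_add, map_add, LinearMap.add_apply]
      smul_left := fun u v r => by
        show B0 ((r • u : Wb) : E) (v : E) = _
        rw [Submodule.coe_smul, map_smul, LinearMap.smul_apply, conj_trivial, smul_eq_mul]
      definite := fun u hu => Subtype.ext (hdef _ hu) }
  letI : NormedAddCommGroup Wb := core.toNormedAddCommGroup
  letI : InnerProductSpace ℝ Wb := InnerProductSpace.ofCore core.toCore
  have hin : ∀ u v : Wb, inner ℝ u v = B0 (u : E) (v : E) := fun u v => rfl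
  -- the operator representing `M'`
  let φ : Wb → (Wb →L[ℝ] ℝ) := fun u =>
    LinearMap.toContinuousLinearMap ((M' (u : E)).comp Wb.subtype)
  let A : Wb →ₗ[ℝ] Wb :=
    { toFun := fun u => (InnerProductSpace.toDual ℝ Wb).symm (φ u)
      map_add' := fun u v => by
        have : φ (u + v) = φ u + φ v := by
          ext x
          show M' ((u + v : Wb) : E) (x : E) = M' (u : E) (x : E) + M' (v : E) (x : E)
          rw [Submodule.coe_add, map_add, LinearMap.add_apply]
        rw [this, map_add]
      map_smul' := fun c u => by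
        have : φ (c • u) = c • φ u := by
          ext x
          show M' ((c • u : Wb) : E) (x : E) = c • M' (u : E) (x : E)
          rw [Submodule.coe_smul, map_smul, LinearMap.smul_apply]
        rw [this, map_smulₛₗ]
        rfl }
  have hA : ∀ u v : Wb, inner ℝ (A u) v = M' (u : E) (v : E) := by
    intro u v
    show inner ℝ ((InnerProductSpace.toDual ℝ Wb).symm (φ u)) v = _
    rw [InnerProductSpace.toDual_symm_apply]
    rfl
  have hAsymm : A.IsSymmetric := by
    intro u v
    rw [hA, real_inner_comm, hA, hM']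
  let Rw : Wb →ₗ[ℝ] Wb := R.restrict hRW
  have hRw : ∀ u : Wb, ((Rw u : Wb) : E) = R (u : E) := fun u => rfl
  have hRwN : ∀ u : Wb, ∃ v : Wb, Rw v = u := by
    intro u
    have h1 : ∀ j : ℕ, ∀ u : Wb, (((Rw ^ j) u : Wb) : E) = (R ^ j) (u : E) := by
      intro j
      induction j with
      | zero => intro u; simp
      | succ j ih =>
        intro u
        rw [pow_succ', pow_succ']
        show R (((Rw ^ j) u : Wb) : E) = R ((R ^ j) (u : E))
        rw [ih]
    refine ⟨(Rw ^ (N - 1)) u, ?_⟩
    apply Subtype.ext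
    rw [hRw, h1]
    have h2 : R ((R ^ (N - 1)) (u : E)) = (R ^ N) (u : E) := by
      conv_rhs => rw [← Nat.sub_add_cancel hN, pow_succ']
      rfl
    rw [h2, hRN]; rfl
  have hcomm : ∀ x, A (Rw x) = Rw (A x) := by
    intro x
    apply ext_inner_right ℝ
    intro y
    obtain ⟨z, rfl⟩ := hRwN y
    rw [hA, hRw, hRw, hRM, hin, hRw, hRw, hRB, ← hin, hA]
  obtain ⟨V', hV'1, hV'2, hV'3⟩ := spectral_neg A hAsymm Rw hcomm (V.comap Wb.subtype) (by
    intro v hv hv0
    rw [hA]
    exact hneg _ hv (fun h => hv0 (Subtype.ext h)))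
  refine ⟨V'.map Wb.subtype, ?_, inferInstance, ?_, ?_, ?_⟩
  · rintro _ ⟨x, _, rfl⟩
    exact hWS x.2
  · rintro _ ⟨x, hx, rfl⟩
    exact ⟨Rw x, hV'1 x hx, rfl⟩
  · rintro _ ⟨x, hx, rfl⟩ hx0
    have := hV'2 x hx (fun h => hx0 (by rw [h]; rfl))
    rwa [hA] at this
  · have h1 : finrank ℝ (V'.map Wb.subtype) = finrank ℝ V' :=
      (Submodule.equivMapOfInjective Wb.subtype Wb.injective_subtype V').finrank_eq.symm
    have h2 : finrank ℝ (V.comap Wb.subtype) = finrank ℝ V :=
      (Submodule.comapSubtypeEquivOfLe hVW).finrank_eq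
    rw [h1, ← h2]
    exact hV'3

end Pool.Agent.Helper78.PayneAlg
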