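import Pool.Agent.Helper78.PayneTrace
import Pool.Agent.Helper78.PayneEig
import Pool.Agent.Helper78.PayneTest

set_option autoImplicit false

/-!
Linear isometries acting on test functions and the extension lemma for symmetric domains.
-/

namespace Pool.Agent.Helper78.PayneAlg

open Finset Module

variable {d : ℕ} {E : Type*} [AddCommGroup E] [Module ℝ E]
  {D : Fin d → E →ₗ[ℝ] E} {B0 : E →ₗ[ℝ] E →ₗ[ℝ] ℝ}

lemma Bf_iso (P : E →ₗ[ℝ] E) (hPB : ∀ u v, B0 (P u) (P v) = B0 u v) (G : Fin d → Fin d → ℝ)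
    (hG : ∀ l l', ∑ i, G i l * G i l' = if l = l' then 1 else 0)
    (hPD : ∀ i u, D i (P u) = ∑ l, G i l • P (D l u)) (j : ℕ) (u v : E) :
    Bf D B0 j (P u) (P v) = Bf D B0 j u v := by
  induction j generalizing u v with
  | zero => exact hPB u v
  | succ j ih =>
    rw [Bf_succ, Bf_succ]
    have h1 : ∀ i, Bf D B0 j (D i (P u)) (D i (P v)) =
        ∑ l, ∑ l', (G i l * G i l') * Bf D B0 j (D l u) (D l' v) := by
      intro i
      rw [hPD, hPD]
      simp only [map_sum, map_smul, LinearMap.sum_apply, LinearMap.smul_apply, smul_eq_mul]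
      rw [Finset.sum_comm]
      apply Finset.sum_congr rfl
      intro l _
      rw [Finset.mul_sum]
      apply Finset.sum_congr rfl
      intro l' _
      rw [ih]
      ring
    simp_rw [h1]
    rw [Finset.sum_comm]
    apply Finset.sum_congr rfl
    intro l _
    rw [Finset.sum_comm]
    simp_rw [← Finset.sum_mul, hG]
    simp

end Pool.Agent.Helper78.PayneAlg

namespace Pool.Agent.Helper78.PayneTest

open Finset MeasureTheory Module
open scoped ContDiff

variable {d : ℕ}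

/-- The action of a linear isometry on test functions. -/
noncomputable def Rg (g : Ed d ≃ₗᵢ[ℝ] Ed d) : Test d →ₗ[ℝ] Test d where
  toFun u := ⟨fun x => (u : Ed d → ℝ) (g x), (sm u).comp g.contDiff,
    (sp u).comp_homeomorph g.toHomeomorph⟩
  map_add' _ _ := rfl
  map_smul' _ _ := rfl

lemma Rg_apply (g : Ed d ≃ₗᵢ[ℝ] Ed d) (u : Test d) (x : Ed d) :
    (Rg g u : Ed d → ℝ) x = (u : Ed d → ℝ) (g x) := rfl

lemma Rg_one : Rg (1 : Ed d ≃ₗᵢ[ℝ] Ed d) = LinearMap.id := rfl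

lemma Rg_mul (g h : Ed d ≃ₗᵢ[ℝ] Ed d) (u : Test d) : Rg g (Rg h u) = Rg (h * g) u := rfl

lemma Rg_pow (g : Ed d ≃ₗᵢ[ℝ] Ed d) (j : ℕ) : (Rg g : Module.End ℝ (Test d)) ^ j = Rg (g ^ j) := by
  induction j with
  | zero => rfl
  | succ j ih =>
    rw [pow_succ', ih, pow_succ]
    rfl

lemma Rg_B0 (g : Ed d ≃ₗᵢ[ℝ] Ed d) (u v : Test d) : B0 (Rg g u) (Rg g v) = B0 u v := by
  rw [B0_apply, B0_apply]
  have h := g.measurePreserving.integral_comp g.toHomeomorph.measurableEmbedding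
    (fun x => (u : Ed d → ℝ) x * (v : Ed d → ℝ) x)
  exact h

lemma vec_expand (y : Ed d) : y = ∑ i, y i • (e i : Ed d) := by
  have := (EuclideanSpace.basisFun (Fin d) ℝ).sum_repr y
  simpa [EuclideanSpace.basisFun_repr] using this.symm

lemma Rg_D (g : Ed d ≃ₗᵢ[ℝ] Ed d) (i : Fin d) (u : Test d) :
    D i (Rg g u) = ∑ l, (g (e i)) l • Rg g (D l u) := by
  apply Subtype.ext
  funext x
  rw [D_apply]
  have h1 : ((Rg g u : Test d) : Ed d → ℝ) = (u : Ed d → ℝ) ∘ g := rfl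
  have h2 : HasFDerivAt (g : Ed d → Ed d) (g.toContinuousLinearEquiv : Ed d →L[ℝ] Ed d) x :=
    g.toContinuousLinearEquiv.hasFDerivAt
  rw [h1, ((((df u) (g x)).hasFDerivAt).comp x h2).fderiv]
  show fderiv ℝ (u : Ed d → ℝ) (g x) (g (e i)) = _
  rw [vec_expand (g (e i)), map_sum]
  have h3 : ((∑ l, (∑ i', (g (e i)) i' • (e i' : Ed d)) l • Rg g (D l u) : Test d) : Ed d → ℝ) x =
      ∑ l, (g (e i)) l * (Rg g (D l u) : Ed d → ℝ) x := by
    rw [← vec_expand (g (e i)), Submodule.coe_sum, Finset.sum_apply]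
    rfl
  rw [h3]
  apply Finset.sum_congr rfl
  intro l _
  rw [map_smul]
  rfl

lemma orth1 (g : Ed d ≃ₗᵢ[ℝ] Ed d) :
    (Matrix.of (fun i l => (g (e i)) l)) * (Matrix.of (fun i l => (g (e i)) l)).transpose =
      (1 : Matrix (Fin d) (Fin d) ℝ) := by
  ext i i'
  rw [Matrix.mul_apply, Matrix.one_apply]
  have h1 : inner ℝ (g (e i')) (g (e i)) = inner ℝ (e i' : Ed d) (e i) := g.inner_map_map _ _
  rw [PiLp.inner_apply] at h1
  have h2 : inner ℝ (e i' : Ed d) (e i) = if i = i' then 1 else 0 := by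
    rw [EuclideanSpace.inner_single_left]
    simp only [map_one, one_mul, PiLp.single_apply]
    by_cases h : i = i'
    · rw [if_pos h, if_pos h.symm]
    · rw [if_neg h, if_neg (fun h' => h h'.symm)]
  rw [h2] at h1
  rw [← h1]
  rfl

lemma orth2 (g : Ed d ≃ₗᵢ[ℝ] Ed d) (l l' : Fin d) :
    ∑ i, (g (e i)) l * (g (e i)) l' = if l = l' then 1 else 0 := by
  have h1 := mul_eq_one_comm.mp (orth1 g)
  have h2 := congrFun (congrFun h1 l) l'
  rw [Matrix.mul_apply, Matrix.one_apply] at h2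
  exact h2

lemma Rg_mem (Ω : Set (Ed d)) (g h : Ed d ≃ₗᵢ[ℝ] Ed d) (hgh : h * g = 1)
    (hΩ : ∀ x ∈ Ω, h x ∈ Ω) (u : Test d) (hu : u ∈ SΩ Ω) : Rg g u ∈ SΩ Ω := by
  rw [mem_SΩ] at hu ⊢
  have h1 : tsupport ((Rg g u : Test d) : Ed d → ℝ) = g ⁻¹' tsupport (u : Ed d → ℝ) := by
    have : ((Rg g u : Test d) : Ed d → ℝ) = (u : Ed d → ℝ) ∘ g.toHomeomorph := rfl
    rw [this, tsupport_comp_eq_preimage]
    rfl
  rw [h1]
  intro x hx
  have h2 := hΩ _ (hu hx)
  have h3 : h (g x) = (h * g) x := rfl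
  rw [h3, hgh] at h2
  exact h2

lemma pow_maps (Ω : Set (Ed d)) (g : Ed d ≃ₗᵢ[ℝ] Ed d) (hΩ : ∀ x ∈ Ω, g x ∈ Ω) (j : ℕ) :
    ∀ x ∈ Ω, (g ^ j) x ∈ Ω := by
  induction j with
  | zero => intro x hx; exact hx
  | succ j ih =>
    intro x hx
    rw [pow_succ']
    exact hΩ _ (ih x hx)

lemma restrict_pow {E : Type*} [AddCommGroup E] [Module ℝ E] (V : Submodule ℝ E)
    (P : Module.End ℝ E) (h : ∀ v ∈ V, P v ∈ V) (j : ℕ) (h' : ∀ v ∈ V, (P ^ j) v ∈ V) :
    ((P.restrict h : Module.End ℝ V)) ^ j = (P ^ j).restrict h' := by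
  have : ∀ j : ℕ, ∀ v : V, ((((P.restrict h : Module.End ℝ V) ^ j) v : V) : E) = (P ^ j) (v : E) := by
    intro j
    induction j with
    | zero => intro v; rfl
    | succ j ih =>
      intro v
      rw [pow_succ', pow_succ']
      show P ((((P.restrict h : Module.End ℝ V) ^ j) v : V) : E) = P ((P ^ j) (v : E))
      rw [ih]
  apply LinearMap.ext
  intro v
  apply Subtype.ext
  rw [this]
  rfl

/-- Vanishing traces for invariant negative spaces. -/
theorem trace_iso (Ω : Set (Ed d)) (M : Test d →ₗ[ℝ] Test d →ₗ[ℝ] ℝ)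
    (hanti : ∀ i u v, M (D i u) v = - M u (D i v))
    (g : Ed d ≃ₗᵢ[ℝ] Ed d) (hfix : ∀ x, g x = x → x = 0)
    (hgM : ∀ u v, M (Rg g u) (Rg g v) = M u v)
    (V : Submodule ℝ (Test d)) (hVS : V ≤ SΩ Ω) (hVfd : FiniteDimensional ℝ V)
    (hPV : ∀ v ∈ V, Rg g v ∈ V)
    (hneg : ∀ v ∈ V, v ≠ 0 → M v v < 0)
    (hneg' : ∀ v ∈ V, v ≠ 0 → ∑ j, M (D j v) (D j v) < 0) :
    (∃ w ∈ SΩ Ω, M w w < 0 ∧ ∀ v ∈ V, M w v = 0) ∨
      LinearMap.trace ℝ V ((Rg g).restrict hPV) = 0 := by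
  obtain ⟨f, ν, hν, hf, hunit, hne⟩ := Pool.Agent.Helper78.PayneEig.exists_unitary_eig _ (orth1 g⁻¹)
  have hQV : ∀ v ∈ V, Rg g⁻¹ v ∈ V := by
    have h1 : Function.Injective ((Rg g).restrict hPV) := by
      intro u v huv
      have h2 : Rg g (u : Test d) = Rg g (v : Test d) := congrArg (fun w : V => (w : Test d)) huv
      have h3 := congrArg (Rg g⁻¹) h2
      rw [Rg_mul, Rg_mul, mul_inv_cancel, Rg_one] at h3
      exact Subtype.ext h3
    have h2 : Function.Surjective ((Rg g).restrict hPV : V →ₗ[ℝ] V) :=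
      (LinearMap.injective_iff_surjective (K := ℝ) (V := V)).mp h1
    intro v hv
    obtain ⟨w, hw⟩ := h2 ⟨v, hv⟩
    have h3 : Rg g (w : Test d) = v := congrArg (fun w : V => (w : Test d)) hw
    rw [← h3, Rg_mul, mul_inv_cancel, Rg_one]
    exact w.2
  apply PayneAlg.trace_or_extend D M hcomm hanti (SΩ Ω) (hDS Ω) (Rg g) (Rg g⁻¹)
    (by intro u; rw [Rg_mul, inv_mul_cancel]; rfl) hgM
    (fun i l => (g⁻¹ (e i)) l) (Rg_D g⁻¹) f (fun j => (starRingEnd ℂ) (ν j))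
    (by intro j; rw [Complex.conj_conj, mul_comm]; exact hν j)
    (by intro j l; rw [Complex.conj_conj]; exact hf j l)
    hunit _ V hVS hVfd hPV hQV hneg hneg'
  rw [Finset.prod_ne_zero_iff]
  intro j _ h0
  have h1 : ν j = 1 := by
    have h2 : (starRingEnd ℂ) (ν j) = 1 := (sub_eq_zero.mp h0).symm
    have h3 := congrArg (starRingEnd ℂ) h2
    simpa using h3
  have h2 : ∀ l, ∑ i, f j i * (((g⁻¹ (e i)) l : ℝ) : ℂ) = f j l := by
    intro l
    have := hf j l
    rw [h1, one_mul] at this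
    exact this
  have h3 : ∀ y : Ed d, (∀ l, ∑ i, y i * (g⁻¹ (e i)) l = y l) → y = 0 := by
    intro y hy
    apply hfix
    have h4 : g⁻¹ y = y := by
      ext l
      conv_lhs => rw [vec_expand y, map_sum]
      rw [WithLp.ofLp_sum, Finset.sum_apply, ← hy l]
      apply Finset.sum_congr rfl
      intro i _
      rw [map_smul]
      rfl
    calc g y = g (g⁻¹ y) := by rw [h4]
      _ = y := g.apply_symm_apply y
  have h5 : (WithLp.toLp 2 (fun i => (f j i).re) : Ed d) = 0 := by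
    apply h3
    intro l
    have := congrArg Complex.re (h2 l)
    rw [Complex.re_sum] at this
    simpa using this
  have h6 : (WithLp.toLp 2 (fun i => (f j i).im) : Ed d) = 0 := by
    apply h3
    intro l
    have := congrArg Complex.im (h2 l)
    rw [Complex.im_sum] at this
    simpa using this
  obtain ⟨i, hi⟩ := hne j
  apply hi
  apply Complex.ext
  · exact congrArg (fun y : Ed d => y i) h5
  · exact congrArg (fun y : Ed d => y i) h6

/-- The extension lemma for domains with a cyclic symmetry. -/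
theorem core_iso (hd : 2 ≤ d) (Ω : Set (Ed d)) (g : Ed d ≃ₗᵢ[ℝ] Ed d) (p n r : ℕ)
    (hp : p.Prime) (hgN : g ^ (p ^ n) = 1) (hfix : ∀ x, (g ^ (p ^ r)) x = x → x = 0)
    (hΩ : ∀ x ∈ Ω, g x ∈ Ω) (s t k : ℕ) (hk : ¬ p ^ (r + 1) ∣ k)
    (L : ℝ) (V : Submodule ℝ (Test d)) (hVS : V ≤ SΩ Ω) (hV : finrank ℝ V = k)
    (hneg : ∀ v ∈ V, v ≠ 0 → PayneAlg.Bf D B0 (s + t + 1) v v < L * PayneAlg.Bf D B0 (s + 1) v v) :
    ∃ W : Submodule ℝ (Test d), W ≤ SΩ Ω ∧ finrank ℝ W = k + 1 ∧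
      ∀ w ∈ W, w ≠ 0 → PayneAlg.Bf D B0 (s + t) w w < L * PayneAlg.Bf D B0 s w w := by
  let M : Test d →ₗ[ℝ] Test d →ₗ[ℝ] ℝ := PayneAlg.Bf D B0 (s + t) - L • PayneAlg.Bf D B0 s
  let M' : Test d →ₗ[ℝ] Test d →ₗ[ℝ] ℝ :=
    PayneAlg.Bf D B0 (s + t + 1) - L • PayneAlg.Bf D B0 (s + 1)
  have hMapp : ∀ u v, M u v = PayneAlg.Bf D B0 (s + t) u v - L * PayneAlg.Bf D B0 s u v :=
    fun u v => rfl
  have hM'app : ∀ u v, M' u v =
      PayneAlg.Bf D B0 (s + t + 1) u v - L * PayneAlg.Bf D B0 (s + 1) u v := fun u v => rfl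
  have hMsymm : ∀ u v, M u v = M v u := by
    intro u v
    rw [hMapp, hMapp, PayneAlg.Bf_symm hsymm, PayneAlg.Bf_symm hsymm s]
  have hM'symm : ∀ u v, M' u v = M' v u := by
    intro u v
    rw [hM'app, hM'app, PayneAlg.Bf_symm hsymm, PayneAlg.Bf_symm hsymm (s + 1)]
  have hManti : ∀ i u v, M (D i u) v = - M u (D i v) := by
    intro i u v
    rw [hMapp, hMapp, PayneAlg.Bf_anti hcomm hanti, PayneAlg.Bf_anti hcomm hanti s]
    ring
  have hM'D : ∀ u, M' u u = ∑ j, M (D j u) (D j u) := by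
    intro u
    rw [hM'app, PayneAlg.Bf_succ, PayneAlg.Bf_succ, Finset.mul_sum, ← Finset.sum_sub_distrib]
    rfl
  have hMg : ∀ (h : Ed d ≃ₗᵢ[ℝ] Ed d) u v, M (Rg h u) (Rg h v) = M u v := by
    intro h u v
    rw [hMapp, hMapp, PayneAlg.Bf_iso (Rg h) (Rg_B0 h) _ (orth2 h) (Rg_D h),
      PayneAlg.Bf_iso (Rg h) (Rg_B0 h) _ (orth2 h) (Rg_D h)]
  have hM'g : ∀ (h : Ed d ≃ₗᵢ[ℝ] Ed d) u v, M' (Rg h u) (Rg h v) = M' u v := by
    intro h u v
    rw [hM'app, hM'app, PayneAlg.Bf_iso (Rg h) (Rg_B0 h) _ (orth2 h) (Rg_D h),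
      PayneAlg.Bf_iso (Rg h) (Rg_B0 h) _ (orth2 h) (Rg_D h)]
  have hk0 : 0 < k := by
    rcases Nat.eq_zero_or_pos k with h | h
    · exact absurd (h ▸ dvd_zero (p ^ (r + 1))) hk
    · exact h
  have hN : 0 < p ^ n := pow_pos hp.pos n
  have hrn : r < n := by
    by_contra hcon
    have h1 : g ^ (p ^ r) = 1 := by
      have h2 : p ^ r = p ^ n * p ^ (r - n) := by
        rw [← pow_add, Nat.add_sub_cancel' (not_lt.mp hcon)]
      rw [h2, pow_mul, hgN, one_pow]
    have h2 := hfix (e ⟨0, by omega⟩) (by rw [h1]; rfl)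
    have h3 := congrArg (fun y : Ed d => y ⟨0, by omega⟩) h2
    simp at h3
  have hVfd : FiniteDimensional ℝ V := FiniteDimensional.of_finrank_pos (by rw [hV]; exact hk0)
  have hSg : ∀ u ∈ SΩ Ω, Rg g u ∈ SΩ Ω := by
    intro u hu
    apply Rg_mem Ω g (g ^ (p ^ n - 1)) _ (pow_maps Ω g hΩ (p ^ n - 1)) u hu
    rw [← pow_succ, Nat.sub_add_cancel hN, hgN]
  obtain ⟨V', hV'S, hV'fd, hV'P, hV'neg, hV'k⟩ := PayneAlg.exists_invariant B0 M' hsymm hpos hdef
    hM'symm (Rg g) (p ^ n) hN (by rw [Rg_pow, hgN]; rfl) (hM'g g) (Rg_B0 g) (SΩ Ω) V hVS hSg hVfd (by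
      intro v hv hv0
      rw [hM'app]
      have := hneg v hv hv0
      linarith)
  have hMneg : ∀ v ∈ V', v ≠ 0 → M v v < 0 := by
    intro v hv hv0
    rw [hMapp]
    have h1 := hV'neg v hv hv0
    rw [hM'app] at h1
    have := PayneAlg.Bf_ratio hsymm hpos hdef (hker (by omega)) hcomm hanti s t v hv0 L
      (by linarith)
    linarith
  have hfinal : ∀ W : Submodule ℝ (Test d), (∀ w ∈ W, w ≠ 0 → M w w < 0) →
      ∀ w ∈ W, w ≠ 0 → PayneAlg.Bf D B0 (s + t) w w < L * PayneAlg.Bf D B0 s w w := by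
    intro W hW w hw hw0
    have := hW w hw hw0
    rw [hMapp] at this
    linarith
  rw [hV] at hV'k
  rcases Nat.lt_or_ge k (finrank ℝ V') with hlt | hge
  · obtain ⟨W, hW1, hW2⟩ := PayneAlg.exists_sub_finrank V' hV'fd (k + 1) hlt
    exact ⟨W, hW1.trans hV'S, hW2, hfinal W (fun w hw => hMneg w (hW1 hw))⟩
  · have hV'eq : finrank ℝ V' = k := le_antisymm hge hV'k
    by_cases hw : ∃ w ∈ SΩ Ω, M w w < 0 ∧ ∀ v ∈ V', M w v = 0
    · obtain ⟨w, hwS, hw1, hw2⟩ := hw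
      obtain ⟨W, hW1, hW2, hW3⟩ := PayneAlg.extend_one M hMsymm (SΩ Ω) V' hV'S hMneg hV'fd hV'eq w
        hwS hw1 hw2
      exact ⟨W, hW1, hW2, hfinal W hW3⟩
    · exfalso
      have hpowV : ∀ j : ℕ, ∀ v ∈ V', ((Rg g : Module.End ℝ (Test d)) ^ j) v ∈ V' := by
        intro j
        induction j with
        | zero => intro v hv; exact hv
        | succ j ih =>
          intro v hv
          rw [pow_succ']
          exact hV'P _ (ih v hv)
      let T : Module.End ℝ V' := (Rg g).restrict hV'P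
      have hTN : T ^ (p ^ n) = 1 := by
        show ((Rg g).restrict hV'P : Module.End ℝ V') ^ (p ^ n) = 1
        rw [restrict_pow V' (Rg g) hV'P (p ^ n) (hpowV (p ^ n))]
        apply LinearMap.ext
        intro v
        apply Subtype.ext
        show ((Rg g : Module.End ℝ (Test d)) ^ (p ^ n)) (v : Test d) = (v : Test d)
        rw [Rg_pow, hgN]; rfl
      have htr : ∀ j : ℕ, (∀ x, (g ^ j) x = x → x = 0) → LinearMap.trace ℝ V' (T ^ j) = 0 := by
        intro j hj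
        have h1 : ∀ v ∈ V', Rg (g ^ j) v ∈ V' := by
          intro v hv
          rw [← Rg_pow]
          exact hpowV j v hv
        have h2 : T ^ j = (Rg (g ^ j)).restrict h1 := by
          show ((Rg g).restrict hV'P : Module.End ℝ V') ^ j = _
          rw [restrict_pow V' (Rg g) hV'P j (hpowV j)]
          apply LinearMap.ext
          intro v
          apply Subtype.ext
          show ((Rg g : Module.End ℝ (Test d)) ^ j) (v : Test d) = Rg (g ^ j) (v : Test d)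
          rw [Rg_pow]
        rw [h2]
        refine (trace_iso Ω M hManti (g ^ j) hj (hMg (g ^ j)) V' hV'S hV'fd h1 hMneg ?_).resolve_left
          hw
        intro v hv hv0
        rw [← hM'D]
        exact hV'neg v hv hv0
      apply hk
      rw [← hV'eq]
      apply Pool.Agent.Helper78.PayneEig.dvd_of_traces_pp (W := V') T p n r hp hrn hTN
      intro i hi
      apply htr
      intro x hx
      apply hfix
      have h1 : p ^ r = p ^ i * p ^ (r - i) := by rw [← pow_add, Nat.add_sub_cancel' hi]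
      rw [h1, pow_mul]
      generalize p ^ (r - i) = c
      induction c with
      | zero => rfl
      | succ c ih =>
        rw [pow_succ]
        show ((g ^ p ^ i) ^ c) ((g ^ p ^ i) x) = x
        rw [hx, ih]

end Pool.Agent.Helper78.PayneTest
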