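import Pool.Agent.Helper78.PayneCx

set_option autoImplicit false

/-!
The trace alternative: either there is a new negative direction, or the trace of the symmetry on
the negative space vanishes.
-/

namespace Pool.Agent.Helper78.PayneAlg

open Finset Module

variable {d : ℕ} {E : Type*} [AddCommGroup E] [Module ℝ E]

/-- Complex directional derivative. -/
noncomputable def DF (D : Fin d → E →ₗ[ℝ] E) (f : Fin d → ℂ) : Cx E →ₗ[ℂ] Cx E :=
  ∑ i, f i • up (D i)

lemma DF_apply (D : Fin d → E →ₗ[ℝ] E) (f : Fin d → ℂ) (z : Cx E) :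
    DF D f z = ∑ i, f i • up (D i) z := by
  simp only [DF, LinearMap.sum_apply, LinearMap.smul_apply]

/-- The complexified subspace. -/
def SC (S : Submodule ℝ E) : Submodule ℂ (Cx E) where
  carrier := {z | z.1 ∈ S ∧ z.2 ∈ S}
  add_mem' := fun ha hb => ⟨S.add_mem ha.1 hb.1, S.add_mem ha.2 hb.2⟩
  zero_mem' := ⟨S.zero_mem, S.zero_mem⟩
  smul_mem' := fun _ _ ha => ⟨S.sub_mem (S.smul_mem _ ha.1) (S.smul_mem _ ha.2),
    S.add_mem (S.smul_mem _ ha.2) (S.smul_mem _ ha.1)⟩

section Ops

variable (D : Fin d → E →ₗ[ℝ] E)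

lemma DF_comm (hcomm : ∀ i l u, D i (D l u) = D l (D i u)) (f f' : Fin d → ℂ) (z : Cx E) :
    DF D f (DF D f' z) = DF D f' (DF D f z) := by
  rw [DF_apply, DF_apply D f' z, DF_apply D f' (DF D f z), DF_apply D f z]
  simp only [map_sum, map_smul, Finset.smul_sum]
  rw [Finset.sum_comm]
  apply Finset.sum_congr rfl
  intro i _
  apply Finset.sum_congr rfl
  intro l _
  rw [smul_comm]
  congr 2
  exact Cx.ext' (hcomm _ _ _) (hcomm _ _ _)

lemma DF_anti (M : E →ₗ[ℝ] E →ₗ[ℝ] ℝ) (hanti : ∀ i u v, M (D i u) v = - M u (D i v))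
    (f : Fin d → ℂ) (z w : Cx E) :
    Mh M (DF D f z) w = - Mh M z (DF D (fun i => (starRingEnd ℂ) (f i)) w) := by
  rw [DF_apply, DF_apply, Mh_sum_left, Mh_sum_right, ← Finset.sum_neg_distrib]
  apply Finset.sum_congr rfl
  intro i _
  rw [Mh_smul_left, Mh_smul_right, Complex.conj_conj]
  have : Mh M (up (D i) z) w = - Mh M z (up (D i) w) := by
    apply Complex.ext
    · show M (D i z.1) w.1 + M (D i z.2) w.2 = -(M z.1 (D i w.1) + M z.2 (D i w.2))
      rw [hanti, hanti]; ring
    · show M (D i z.2) w.1 - M (D i z.1) w.2 = -(M z.2 (D i w.1) - M z.1 (D i w.2))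
      rw [hanti, hanti]; ring
  rw [this]
  ring

lemma DF_mem (S : Submodule ℝ E) (hDS : ∀ i, ∀ u ∈ S, D i u ∈ S) (f : Fin d → ℂ) (z : Cx E)
    (hz : z ∈ SC S) : DF D f z ∈ SC S := by
  rw [DF_apply]
  exact Submodule.sum_mem _ (fun i _ => (SC S).smul_mem _ ⟨hDS i _ hz.1, hDS i _ hz.2⟩)

/-- The operators `Z j 0 = D_{f_j}` and `Z j 1 = D_{conj f_j}`. -/
noncomputable def ZZ (f : Fin d → Fin d → ℂ) (j : Fin d) (a : ZMod 2) : Cx E →ₗ[ℂ] Cx E :=
  if a = 0 then DF D (f j) else DF D (fun i => (starRingEnd ℂ) (f j i))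

lemma ZZ_comm (hcomm : ∀ i l u, D i (D l u) = D l (D i u)) (f : Fin d → Fin d → ℂ)
    (j : Fin d) (a : ZMod 2) (l : Fin d) (b : ZMod 2) (z : Cx E) :
    ZZ D f j a (ZZ D f l b z) = ZZ D f l b (ZZ D f j a z) := by
  unfold ZZ
  split_ifs <;> exact DF_comm D hcomm _ _ _

lemma ZZ_anti (M : E →ₗ[ℝ] E →ₗ[ℝ] ℝ) (hanti : ∀ i u v, M (D i u) v = - M u (D i v))
    (f : Fin d → Fin d → ℂ) (j : Fin d) (a : ZMod 2) (z w : Cx E) :
    Mh M (ZZ D f j a z) w = - Mh M z (ZZ D f j (a + 1) w) := by
  unfold ZZ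
  have h : ∀ a : ZMod 2, (a + 1 = 0 ↔ a ≠ 0) := by decide
  by_cases ha : a = 0
  · rw [if_pos ha, if_neg (by rw [h]; simpa using ha), DF_anti D M hanti]
  · rw [if_neg ha, if_pos ((h a).mpr ha), DF_anti D M hanti]
    simp only [Complex.conj_conj]

lemma ZZ_mem (S : Submodule ℝ E) (hDS : ∀ i, ∀ u ∈ S, D i u ∈ S) (f : Fin d → Fin d → ℂ)
    (j : Fin d) (a : ZMod 2) (z : Cx E) (hz : z ∈ SC S) : ZZ D f j a z ∈ SC S := by
  unfold ZZ
  split_ifs <;> exact DF_mem D S hDS _ z hz

/-- Equivariance. -/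
lemma DF_equiv (Q : E →ₗ[ℝ] E) (G : Fin d → Fin d → ℝ)
    (hQ : ∀ i u, D i (Q u) = ∑ l, G i l • Q (D l u)) (f : Fin d → ℂ) (c : ℂ)
    (hf : ∀ l, ∑ i, f i * (G i l : ℂ) = c * f l) (z : Cx E) :
    DF D f (up Q z) = c • up Q (DF D f z) := by
  have h1 : ∀ i, up (D i) (up Q z) = ∑ l, ((G i l : ℝ) : ℂ) • up Q (up (D l) z) := by
    intro i
    have h2 : ∀ (s : Finset (Fin d)) (F : Fin d → Cx E), (∑ l ∈ s, F l).1 = ∑ l ∈ s, (F l).1 :=
      fun s F => Prod.fst_sum
    have h3 : ∀ (s : Finset (Fin d)) (F : Fin d → Cx E), (∑ l ∈ s, F l).2 = ∑ l ∈ s, (F l).2 :=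
      fun s F => Prod.snd_sum
    apply Cx.ext'
    · rw [h2]
      show D i (Q z.1) = _
      rw [hQ]
      apply Finset.sum_congr rfl
      intro l _
      rw [Cx.smul_fst]
      simp [up_fst]
    · rw [h3]
      show D i (Q z.2) = _
      rw [hQ]
      apply Finset.sum_congr rfl
      intro l _
      rw [Cx.smul_snd]
      simp [up_snd]
  rw [DF_apply, DF_apply]
  simp only [h1, Finset.smul_sum, map_sum, map_smul]
  rw [Finset.sum_comm]
  apply Finset.sum_congr rfl
  intro l _
  rw [smul_smul, ← hf, Finset.sum_smul]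
  apply Finset.sum_congr rfl
  intro i _
  rw [smul_smul]

end Ops

/-- The weight with grading sign. -/
noncomputable def wt (μ : Fin d → ℂ) (x : Fin d → ZMod 2) : ℂ :=
  ∏ j, (if x j = 0 then 1 else - μ j)

lemma sum_wt (μ : Fin d → ℂ) : ∑ x, wt μ x = ∏ j, (1 - μ j) := by
  unfold wt
  have h := Finset.prod_univ_sum (fun _ : Fin d => (Finset.univ : Finset (ZMod 2)))
    (fun j a => if a = 0 then (1 : ℂ) else - μ j)
  rw [Fintype.piFinset_univ] at h
  rw [← h]
  apply Finset.prod_congr rfl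
  intro j _
  have : (Finset.univ : Finset (ZMod 2)) = {0, 1} := by decide
  rw [this, Finset.sum_pair (by decide)]
  simp
  ring

/-- The eigenvalue factor. -/
noncomputable def lm (μ : Fin d → ℂ) (j : Fin d) (a : ZMod 2) : ℂ :=
  if a = 0 then (starRingEnd ℂ) (μ j) else μ j

lemma wt_step (μ : Fin d → ℂ) (hμ : ∀ j, μ j * (starRingEnd ℂ) (μ j) = 1) (j : Fin d)
    (x : Fin d → ZMod 2) : wt μ (x + ej j) * lm μ j (x j) = - wt μ x := by
  unfold wt
  rw [← Finset.mul_prod_erase _ _ (Finset.mem_univ j), ← Finset.mul_prod_erase _ _ (Finset.mem_univ j)]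
  have h1 : ∏ i ∈ Finset.univ.erase j, (if (x + ej j) i = 0 then (1 : ℂ) else - μ i) =
      ∏ i ∈ Finset.univ.erase j, (if x i = 0 then (1 : ℂ) else - μ i) := by
    apply Finset.prod_congr rfl
    intro i hi
    have h2 : i ≠ j := (Finset.mem_erase.mp hi).1
    rw [Pi.add_apply, ej, Pi.single_eq_of_ne h2, add_zero]
  rw [h1]
  have h3 : (if (x + ej j) j = 0 then (1 : ℂ) else - μ j) * lm μ j (x j) =
      - (if x j = 0 then (1 : ℂ) else - μ j) := by
    rw [Pi.add_apply, ej, Pi.single_eq_same]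
    generalize x j = y
    have : ∀ y : ZMod 2, (y + 1 = 0 ↔ y ≠ 0) := by decide
    unfold lm
    by_cases hy : y = 0
    · rw [if_neg (by rw [this]; simpa using hy), if_pos hy, if_pos hy, neg_mul, hμ]
    · rw [if_pos ((this y).mpr hy), if_neg hy, if_neg hy]; ring
  rw [mul_right_comm, h3]
  ring

lemma coords (V : Submodule ℝ E) {k : ℕ} (b : Basis (Fin k) ℝ V) (T : V →ₗ[ℝ] V) (p : Fin k) :
    ((T (b p) : V) : E) = ∑ q, b.repr (T (b p)) q • (b q : E) := by
  have h3 := congrArg V.subtype (b.sum_repr (T (b p)))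
  rw [map_sum] at h3
  simp only [map_smul] at h3
  exact h3.symm

lemma tr_coords (V : Submodule ℝ E) {k : ℕ} (b : Basis (Fin k) ℝ V) (T : V →ₗ[ℝ] V) :
    LinearMap.trace ℝ V T = ∑ p, b.repr (T (b p)) p := by
  rw [LinearMap.trace_eq_matrix_trace ℝ b, Matrix.trace]
  apply Finset.sum_congr rfl
  intro p _
  rw [Matrix.diag_apply, LinearMap.toMatrix_apply]

/-- The trace alternative. -/
theorem trace_or_extend (D : Fin d → E →ₗ[ℝ] E) (M : E →ₗ[ℝ] E →ₗ[ℝ] ℝ)
    (hcomm : ∀ i l u, D i (D l u) = D l (D i u))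
    (hanti : ∀ i u v, M (D i u) v = - M u (D i v))
    (S : Submodule ℝ E) (hDS : ∀ i, ∀ u ∈ S, D i u ∈ S)
    (P Q : E →ₗ[ℝ] E) (hPQ : ∀ u, P (Q u) = u)
    (hPM : ∀ u v, M (P u) (P v) = M u v)
    (G : Fin d → Fin d → ℝ) (hQD : ∀ i u, D i (Q u) = ∑ l, G i l • Q (D l u))
    (f : Fin d → Fin d → ℂ) (μ : Fin d → ℂ)
    (hμ : ∀ j, μ j * (starRingEnd ℂ) (μ j) = 1)
    (hf : ∀ j l, ∑ i, f j i * (G i l : ℂ) = (starRingEnd ℂ) (μ j) * f j l)
    (hunit : ∀ i l, ∑ j, f j i * (starRingEnd ℂ) (f j l) = if i = l then 1 else 0)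
    (hprod : ∏ j, (1 - μ j) ≠ 0)
    (V : Submodule ℝ E) (hVS : V ≤ S) (hVfd : FiniteDimensional ℝ V)
    (hPV : ∀ v ∈ V, P v ∈ V) (hQV : ∀ v ∈ V, Q v ∈ V)
    (hneg : ∀ v ∈ V, v ≠ 0 → M v v < 0)
    (hneg' : ∀ v ∈ V, v ≠ 0 → ∑ j, M (D j v) (D j v) < 0) :
    (∃ w ∈ S, M w w < 0 ∧ ∀ v ∈ V, M w v = 0) ∨
      LinearMap.trace ℝ V (P.restrict hPV) = 0 := by
  classical
  set k := finrank ℝ V with hk
  let b : Basis (Fin k) ℝ V := finBasis ℝ V
  let PV : V →ₗ[ℝ] V := P.restrict hPV
  let QV : V →ₗ[ℝ] V := Q.restrict hQV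
  let ρ : Fin k → Fin k → ℝ := fun q p => b.repr (PV (b p)) q
  let ρ' : Fin k → Fin k → ℝ := fun q p => b.repr (QV (b p)) q
  have hρ : ∀ p, P (b p : E) = ∑ q, ρ q p • (b q : E) := fun p => coords V b PV p
  have hρ' : ∀ p, Q (b p : E) = ∑ q, ρ' q p • (b q : E) := fun p => coords V b QV p
  -- traces
  have htr : LinearMap.trace ℝ V QV = LinearMap.trace ℝ V PV := by
    let φ : V →ₗ[ℝ] Module.Dual ℝ V :=
      { toFun := fun v => (M (v : E)).comp V.subtype
        map_add' := fun u v => by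
          ext x
          show M ((u + v : V) : E) (x : E) = M (u : E) (x : E) + M (v : E) (x : E)
          rw [Submodule.coe_add, map_add, LinearMap.add_apply]
        map_smul' := fun c u => by
          ext x
          show M ((c • u : V) : E) (x : E) = c • M (u : E) (x : E)
          rw [Submodule.coe_smul, map_smul, LinearMap.smul_apply] }
    have hφinj : Function.Injective φ := by
      rw [injective_iff_map_eq_zero]
      intro v hv
      by_contra hv0
      have h1 := hneg (v : E) v.2 (fun h => hv0 (Subtype.ext h))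
      have h2 : M (v : E) (v : E) = 0 := LinearMap.congr_fun hv v
      linarith
    let e : V ≃ₗ[ℝ] Module.Dual ℝ V := LinearEquiv.ofInjectiveOfFinrankEq φ hφinj
      (Subspace.dual_finrank_eq).symm
    have he : ∀ v, e v = φ v := fun v => rfl
    have h1 : e.conj QV = PV.dualMap := by
      apply LinearMap.ext
      intro ψ
      obtain ⟨v, rfl⟩ := e.surjective ψ
      rw [LinearEquiv.conj_apply_apply, LinearEquiv.symm_apply_apply]
      ext x
      show M (Q (v : E)) (x : E) = M (v : E) (P (x : E))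
      rw [← hPM, hPQ]
    have h2 : LinearMap.trace ℝ V QV = LinearMap.trace ℝ (Module.Dual ℝ V) (e.conj QV) :=
      (LinearMap.trace_conj' QV e).symm
    rw [h2, h1]
    exact LinearMap.trace_transpose' PV
  have htrP : LinearMap.trace ℝ V PV = ∑ p, ρ p p := tr_coords V b PV
  have htrQ : LinearMap.trace ℝ V QV = ∑ p, ρ' p p := tr_coords V b QV
  -- the synthesis map
  let X := (Fin d → ZMod 2) × Fin k → ℂ
  let σ : X →ₗ[ℂ] ((Fin d → ZMod 2) → Cx E) :=
    { toFun := fun c x => ∑ p, c (x, p) • cj (b p : E)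
      map_add' := fun c c' => by
        funext x
        show ∑ p, (c (x, p) + c' (x, p)) • cj (b p : E) = _
        simp only [add_smul, Finset.sum_add_distrib]
        rfl
      map_smul' := fun a c => by
        funext x
        show ∑ p, (a * c (x, p)) • cj (b p : E) = a • ∑ p, c (x, p) • cj (b p : E)
        simp only [mul_smul, Finset.smul_sum] }
  let Dc : ((Fin d → ZMod 2) → Cx E) →ₗ[ℂ] ((Fin d → ZMod 2) → Cx E) :=
    { toFun := fun s x => ∑ j, ((jw j x : ℝ) : ℂ) • ZZ D f j (x j) (s (x + ej j))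
      map_add' := fun s s' => by
        funext x
        show ∑ j, ((jw j x : ℝ) : ℂ) • ZZ D f j (x j) (s (x + ej j) + s' (x + ej j)) = _
        simp only [map_add, smul_add, Finset.sum_add_distrib]
        rfl
      map_smul' := fun a s => by
        funext x
        show ∑ j, ((jw j x : ℝ) : ℂ) • ZZ D f j (x j) (a • s (x + ej j)) =
          a • ∑ j, ((jw j x : ℝ) : ℂ) • ZZ D f j (x j) (s (x + ej j))
        simp only [map_smul, Finset.smul_sum]
        apply Finset.sum_congr rfl
        intro j _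
        rw [smul_comm] }
  let A : X →ₗ[ℂ] X :=
    { toFun := fun c i => Mh M (Dc (σ c) i.1) (cj (b i.2 : E))
      map_add' := fun c c' => by
        funext i
        show Mh M (Dc (σ (c + c')) i.1) (cj (b i.2 : E)) = _
        rw [map_add, map_add]
        show Mh M (Dc (σ c) i.1 + Dc (σ c') i.1) _ = _
        rw [Mh_add_left]
        rfl
      map_smul' := fun a c => by
        funext i
        show Mh M (Dc (σ (a • c)) i.1) (cj (b i.2 : E)) = _
        rw [map_smul, map_smul]
        show Mh M (a • Dc (σ c) i.1) _ = _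
        rw [Mh_smul_left]
        rfl }
  have hA : ∀ c x q, A c (x, q) = Mh M (Dc (σ c) x) (cj (b q : E)) := fun c x q => rfl
  by_cases hinj : Function.Injective A
  · right
    let K1 : Matrix ((Fin d → ZMod 2) × Fin k) ((Fin d → ZMod 2) × Fin k) ℂ :=
      fun i j => if i.1 = j.1 then wt μ i.1 * (ρ' i.2 j.2 : ℂ) else 0
    let K2 : Matrix ((Fin d → ZMod 2) × Fin k) ((Fin d → ZMod 2) × Fin k) ℂ :=
      fun i j => if i.1 = j.1 then wt μ i.1 * (ρ j.2 i.2 : ℂ) else 0
    have hK1 : ∀ (c : X) (x : Fin d → ZMod 2) (p : Fin k), (Matrix.toLin' K1 c) (x, p) =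
        wt μ x * ∑ p', (ρ' p p' : ℂ) * c (x, p') := by
      intro c x p
      rw [Matrix.toLin'_apply]
      show ∑ j, K1 (x, p) j * c j = _
      rw [Fintype.sum_prod_type, Finset.sum_eq_single x]
      · rw [Finset.mul_sum]
        apply Finset.sum_congr rfl
        intro p' _
        show (if x = x then wt μ x * (ρ' p p' : ℂ) else 0) * c (x, p') = _
        rw [if_pos rfl]; ring
      · intro y _ hy
        apply Finset.sum_eq_zero
        intro p' _
        show (if x = y then wt μ x * (ρ' p p' : ℂ) else 0) * c (y, p') = 0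
        rw [if_neg (fun h => hy h.symm), zero_mul]
      · intro h; exact absurd (Finset.mem_univ x) h
    have hK2 : ∀ (c : X) (x : Fin d → ZMod 2) (p : Fin k), (Matrix.toLin' K2 c) (x, p) =
        wt μ x * ∑ p', (ρ p' p : ℂ) * c (x, p') := by
      intro c x p
      rw [Matrix.toLin'_apply]
      show ∑ j, K2 (x, p) j * c j = _
      rw [Fintype.sum_prod_type, Finset.sum_eq_single x]
      · rw [Finset.mul_sum]
        apply Finset.sum_congr rfl
        intro p' _
        show (if x = x then wt μ x * (ρ p' p : ℂ) else 0) * c (x, p') = _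
        rw [if_pos rfl]; ring
      · intro y _ hy
        apply Finset.sum_eq_zero
        intro p' _
        show (if x = y then wt μ x * (ρ p' p : ℂ) else 0) * c (y, p') = 0
        rw [if_neg (fun h => hy h.symm), zero_mul]
      · intro h; exact absurd (Finset.mem_univ x) h
    have hσ : ∀ c x, σ (Matrix.toLin' K1 c) x = wt μ x • up Q (σ c x) := by
      intro c x
      show ∑ p, (Matrix.toLin' K1 c) (x, p) • cj (b p : E) =
        wt μ x • up Q (∑ p, c (x, p) • cj (b p : E))
      have h1 : ∀ p, up Q (cj (b p : E)) = ∑ q, ((ρ' q p : ℝ) : ℂ) • cj (b q : E) := by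
        intro p
        apply Cx.ext'
        · have : (∑ q, ((ρ' q p : ℝ) : ℂ) • cj (b q : E)).1 =
              ∑ q, (((ρ' q p : ℝ) : ℂ) • cj (b q : E)).1 := Prod.fst_sum
          rw [this]
          show Q (b p : E) = _
          rw [hρ']
          apply Finset.sum_congr rfl
          intro q _
          rw [Cx.smul_fst]
          simp [cj]
        · have : (∑ q, ((ρ' q p : ℝ) : ℂ) • cj (b q : E)).2 =
              ∑ q, (((ρ' q p : ℝ) : ℂ) • cj (b q : E)).2 := Prod.snd_sum
          rw [this]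
          show Q (0 : E) = _
          rw [map_zero]
          symm
          apply Finset.sum_eq_zero
          intro q _
          rw [Cx.smul_snd]
          simp [cj]
      simp only [hK1, map_sum, map_smul, h1, Finset.smul_sum, Finset.mul_sum, Finset.sum_smul,
        smul_smul]
      rw [Finset.sum_comm]
      apply Finset.sum_congr rfl
      intro p _
      apply Finset.sum_congr rfl
      intro q _
      congr 1
      ring
    have hZQ : ∀ j a z, ZZ D f j a (up Q z) = lm μ j a • up Q (ZZ D f j a z) := by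
      intro j a z
      unfold ZZ lm
      split_ifs
      · exact DF_equiv D Q G hQD (f j) _ (hf j) z
      · apply DF_equiv D Q G hQD
        intro l
        have := congrArg (starRingEnd ℂ) (hf j l)
        simpa [map_sum, map_mul] using this
    have hDc : ∀ c x, Dc (σ (Matrix.toLin' K1 c)) x = (- wt μ x) • up Q (Dc (σ c) x) := by
      intro c x
      show ∑ j, ((jw j x : ℝ) : ℂ) • ZZ D f j (x j) (σ (Matrix.toLin' K1 c) (x + ej j)) =
        (- wt μ x) • up Q (∑ j, ((jw j x : ℝ) : ℂ) • ZZ D f j (x j) (σ c (x + ej j)))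
      rw [map_sum, Finset.smul_sum]
      apply Finset.sum_congr rfl
      intro j _
      rw [hσ, map_smul, hZQ, map_smul, smul_smul (wt μ (x + ej j)), wt_step μ hμ, smul_comm]
    have hMQ : ∀ z q, Mh M (up Q z) (cj (b q : E)) =
        ∑ q', ((ρ q' q : ℝ) : ℂ) * Mh M z (cj (b q' : E)) := by
      intro z q
      have h1 : Mh M (up Q z) (cj (b q : E)) = Mh M z (cj (P (b q : E))) := by
        apply Complex.ext
        · rw [Mh_cj_re, Mh_cj_re, up_fst, ← hPM, hPQ]
        · rw [Mh_cj_im, Mh_cj_im, up_snd, ← hPM, hPQ]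
      have h2 : cj (P (b q : E)) = ∑ q', ((ρ q' q : ℝ) : ℂ) • cj (b q' : E) := by
        apply Cx.ext'
        · have : (∑ q', ((ρ q' q : ℝ) : ℂ) • cj (b q' : E)).1 =
              ∑ q', (((ρ q' q : ℝ) : ℂ) • cj (b q' : E)).1 := Prod.fst_sum
          rw [this]
          show P (b q : E) = _
          rw [hρ]
          apply Finset.sum_congr rfl
          intro q _
          rw [Cx.smul_fst]
          simp [cj]
        · have : (∑ q', ((ρ q' q : ℝ) : ℂ) • cj (b q' : E)).2 =
              ∑ q', (((ρ q' q : ℝ) : ℂ) • cj (b q' : E)).2 := Prod.snd_sum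
          rw [this]
          show (0 : E) = _
          symm
          apply Finset.sum_eq_zero
          intro q _
          rw [Cx.smul_snd]
          simp [cj]
      rw [h1, h2, Mh_sum_right]
      apply Finset.sum_congr rfl
      intro q' _
      rw [Mh_smul_right, Complex.conj_ofReal]
    have hkey : ∀ c, A (Matrix.toLin' K1 c) = - (Matrix.toLin' K2 (A c)) := by
      intro c
      funext ⟨x, q⟩
      rw [hA, hDc, Mh_smul_left, hMQ, Pi.neg_apply, hK2]
      simp only [hA]
      ring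
    let e : X ≃ₗ[ℂ] X := LinearEquiv.ofInjectiveEndo A hinj
    have he : ∀ c, e c = A c := fun c => rfl
    have hconj : e.conj (Matrix.toLin' K1) = - Matrix.toLin' K2 := by
      apply LinearMap.ext
      intro c
      obtain ⟨c', rfl⟩ := e.surjective c
      rw [LinearEquiv.conj_apply_apply, LinearEquiv.symm_apply_apply, he, hkey]
      rfl
    have h1 : LinearMap.trace ℂ X (Matrix.toLin' K1) = - LinearMap.trace ℂ X (Matrix.toLin' K2) := by
      rw [← map_neg, ← hconj, LinearMap.trace_conj']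
    rw [Matrix.trace_toLin'_eq, Matrix.trace_toLin'_eq] at h1
    have h2 : K1.trace = (∏ j, (1 - μ j)) * ((LinearMap.trace ℝ V PV : ℝ) : ℂ) := by
      rw [← htr, htrQ, ← sum_wt, Matrix.trace, Fintype.sum_prod_type]
      push_cast
      rw [Finset.sum_mul_sum]
      apply Finset.sum_congr rfl
      intro x _
      apply Finset.sum_congr rfl
      intro p _
      show (if x = x then wt μ x * (ρ' p p : ℂ) else 0) = _
      rw [if_pos rfl]
    have h3 : K2.trace = (∏ j, (1 - μ j)) * ((LinearMap.trace ℝ V PV : ℝ) : ℂ) := by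
      rw [htrP, ← sum_wt, Matrix.trace, Fintype.sum_prod_type]
      push_cast
      rw [Finset.sum_mul_sum]
      apply Finset.sum_congr rfl
      intro x _
      apply Finset.sum_congr rfl
      intro p _
      show (if x = x then wt μ x * (ρ p p : ℂ) else 0) = _
      rw [if_pos rfl]
    rw [h2, h3] at h1
    have h4 : (∏ j, (1 - μ j)) * ((LinearMap.trace ℝ V PV : ℝ) : ℂ) = 0 := by
      have : (2 : ℂ) * ((∏ j, (1 - μ j)) * ((LinearMap.trace ℝ V PV : ℝ) : ℂ)) = 0 := by
        rw [two_mul]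
        nth_rewrite 1 [h1]
        ring
      exact (mul_eq_zero.mp this).resolve_left (by norm_num)
    have h5 := (mul_eq_zero.mp h4).resolve_left hprod
    exact_mod_cast h5
  · left
    rw [injective_iff_map_eq_zero] at hinj
    push Not at hinj
    obtain ⟨c, hc, hc0⟩ := hinj
    have hsV : ∀ x, (σ c x).1 ∈ V ∧ (σ c x).2 ∈ V := by
      intro x
      have : σ c x ∈ SC V := by
        show ∑ p, c (x, p) • cj (b p : E) ∈ SC V
        exact Submodule.sum_mem _ (fun p _ => (SC V).smul_mem _ ⟨(b p).2, V.zero_mem⟩)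
      exact this
    have hs0 : ∃ x, σ c x ≠ 0 := by
      by_contra hcon
      push Not at hcon
      apply hc0
      funext ⟨x, p⟩
      have h1 : ∑ p, c (x, p) • cj (b p : E) = 0 := hcon x
      have h2 : ∑ p, (c (x, p)).re • (b p : E) = 0 := by
        have h3 : (∑ p, c (x, p) • cj (b p : E)).1 = ∑ p, (c (x, p) • cj (b p : E)).1 :=
          Prod.fst_sum
        rw [h1] at h3
        have h4 : (0 : E) = ∑ p, (c (x, p) • cj (b p : E)).1 := h3
        rw [h4]
        apply Finset.sum_congr rfl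
        intro p _
        rw [Cx.smul_fst]
        simp [cj]
      have h2' : ∑ p, (c (x, p)).im • (b p : E) = 0 := by
        have h3 : (∑ p, c (x, p) • cj (b p : E)).2 = ∑ p, (c (x, p) • cj (b p : E)).2 :=
          Prod.snd_sum
        rw [h1] at h3
        have h4 : (0 : E) = ∑ p, (c (x, p) • cj (b p : E)).2 := h3
        rw [h4]
        apply Finset.sum_congr rfl
        intro p _
        rw [Cx.smul_snd]
        simp [cj]
      have hli := b.linearIndependent
      rw [Fintype.linearIndependent_iff] at hli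
      have h5 := hli (fun p => (c (x, p)).re) (by
        apply Subtype.ext
        rw [AddSubmonoidClass.coe_finsetSum]
        exact h2) p
      have h6 := hli (fun p => (c (x, p)).im) (by
        apply Subtype.ext
        rw [AddSubmonoidClass.coe_finsetSum]
        exact h2') p
      exact Complex.ext h5 h6
    have hsum := clif_sum_cx (Mh M) (fun s f w => Mh_sum_left M s f w)
      (fun s f w => Mh_sum_right M s f w) (fun c z w => Mh_smul_left M c z w)
      (fun c z w => by rw [Mh_smul_right, Complex.conj_ofReal]) (ZZ D f)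
      (fun j a l b u => ZZ_comm D hcomm f j a l b u)
      (fun j a u v => ZZ_anti D M hanti f j a u v) (σ c)
    have hquad : ∀ z : Cx E, ∑ j, Mh M (ZZ D f j 0 z) (ZZ D f j 0 z) =
        ∑ i, Mh M (up (D i) z) (up (D i) z) := by
      intro z
      have h1 : ∀ j, Mh M (ZZ D f j 0 z) (ZZ D f j 0 z) = ∑ i, ∑ l,
          (f j i * (starRingEnd ℂ) (f j l)) * Mh M (up (D i) z) (up (D l) z) := by
        intro j
        show Mh M (DF D (f j) z) (DF D (f j) z) = _
        rw [DF_apply, Mh_sum_left]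
        apply Finset.sum_congr rfl
        intro i _
        rw [Mh_sum_right]
        apply Finset.sum_congr rfl
        intro l _
        rw [Mh_smul_left, Mh_smul_right]
        ring
      simp_rw [h1]
      rw [Finset.sum_comm]
      apply Finset.sum_congr rfl
      intro i _
      rw [Finset.sum_comm]
      simp_rw [← Finset.sum_mul, hunit]
      simp
    have hre : ∀ z : Cx E, (∑ j, Mh M (ZZ D f j 0 z) (ZZ D f j 0 z)).re =
        ∑ j, M (D j z.1) (D j z.1) + ∑ j, M (D j z.2) (D j z.2) := by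
      intro z
      rw [hquad, Complex.re_sum, ← Finset.sum_add_distrib]
      rfl
    have hle : ∀ v ∈ V, ∑ j, M (D j v) (D j v) ≤ 0 := by
      intro v hv
      by_cases hv0 : v = 0
      · rw [hv0]; simp
      · exact (hneg' v hv hv0).le
    have hnegsum : (∑ x, ∑ j, Mh M (ZZ D f j 0 (σ c x)) (ZZ D f j 0 (σ c x))).re < 0 := by
      rw [Complex.re_sum]
      obtain ⟨x0, hx0⟩ := hs0
      have h0 : ∀ x, (∑ j, Mh M (ZZ D f j 0 (σ c x)) (ZZ D f j 0 (σ c x))).re ≤ 0 := by
        intro x
        rw [hre]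
        have h1 := hle _ (hsV x).1
        have h2 := hle _ (hsV x).2
        linarith
      have h1 : (∑ j, Mh M (ZZ D f j 0 (σ c x0)) (ZZ D f j 0 (σ c x0))).re < 0 := by
        rw [hre]
        by_cases h2 : (σ c x0).1 = 0
        · have h3 : (σ c x0).2 ≠ 0 := fun h => hx0 (Cx.ext' h2 h)
          have h4 := hneg' _ (hsV x0).2 h3
          have h5 := hle _ (hsV x0).1
          linarith
        · have h4 := hneg' _ (hsV x0).1 h2
          have h5 := hle _ (hsV x0).2
          linarith
      rw [← Finset.sum_erase_add _ _ (Finset.mem_univ x0)]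
      have h2 : ∑ x ∈ Finset.univ.erase x0,
          (∑ j, Mh M (ZZ D f j 0 (σ c x)) (ZZ D f j 0 (σ c x))).re ≤ 0 :=
        Finset.sum_nonpos (fun x _ => h0 x)
      linarith
    rw [← hsum, Complex.re_sum] at hnegsum
    obtain ⟨x, hx⟩ : ∃ x, (Mh M (Dc (σ c) x) (Dc (σ c) x)).re < 0 := by
      by_contra hcon
      push Not at hcon
      exact absurd hnegsum (not_lt.mpr (Finset.sum_nonneg (fun x _ => hcon x)))
    rw [Mh_re] at hx
    have hwS : Dc (σ c) x ∈ SC S := by
      show ∑ j, ((jw j x : ℝ) : ℂ) • ZZ D f j (x j) (σ c (x + ej j)) ∈ SC S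
      exact Submodule.sum_mem _ (fun j _ => (SC S).smul_mem _
        (ZZ_mem D S hDS f j _ _ ⟨hVS (hsV _).1, hVS (hsV _).2⟩))
    have horth : ∀ v ∈ V, M (Dc (σ c) x).1 v = 0 ∧ M (Dc (σ c) x).2 v = 0 := by
      intro v hv
      have h1 : ∀ q, M (Dc (σ c) x).1 (b q : E) = 0 ∧ M (Dc (σ c) x).2 (b q : E) = 0 := by
        intro q
        have h2 : A c (x, q) = 0 := by rw [hc]; rfl
        rw [hA] at h2
        exact ⟨by rw [← Mh_cj_re, h2]; rfl, by rw [← Mh_cj_im, h2]; rfl⟩
      have h3 : v = ∑ q, (b.repr ⟨v, hv⟩ q) • (b q : E) := by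
        have h4 := congrArg V.subtype (b.sum_repr ⟨v, hv⟩)
        rw [map_sum] at h4
        simp only [map_smul] at h4
        exact h4.symm
      rw [h3]
      simp only [map_sum, map_smul, h1, smul_zero, Finset.sum_const_zero, and_self]
    by_cases h1 : M (Dc (σ c) x).1 (Dc (σ c) x).1 < 0
    · exact ⟨_, hwS.1, h1, fun v hv => (horth v hv).1⟩
    · refine ⟨_, hwS.2, ?_, fun v hv => (horth v hv).2⟩
      push Not at h1
      linarith

end Pool.Agent.Helper78.PayneAlg
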