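import Pool.Agent.Helper78.PolyharmonicDefs

set_option autoImplicit false

/-!
Linear isometries as maps.
-/

namespace Pool.Agent.Helper78.Polyharmonic

/-- `g` is a linear isometry of `ℝ^d`. -/
def LinIsom {d : ℕ} (g : Euc d → Euc d) : Prop :=
  IsLinearMap ℝ g ∧ ∀ x, ‖g x‖ = ‖x‖

end Pool.Agent.Helper78.Polyharmonic
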