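import Pool.Agent.Helper79.SqFinal

set_option autoImplicit false

/-!
An own statement for the disproof by helper79 of the weak type (1,1) of the square function of
convolution powers: the exceptional functions are finitely supported, the square function is
truncated, and the super-level sets are a fixed fraction of the norm for every level.
-/

namespace Pool.Agent.Helper78.SqOwn

open scoped ENNReal
open Filter Topology Pool.Agent.Helper79.SqFn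

theorem fourier_hasSum {μ : ℤ → ℝ} (hnn : ∀ k, 0 ≤ μ k) (hsum : HasSum μ 1)
    (hsym : ∀ k, μ (-k) = μ k) (h0 : 3 / 4 ≤ μ 0) (h1 : 0 < μ 1) (t : ℝ) (ht : 0 < |t|)
    (ht' : |t| ≤ Real.pi) : ∃ c : ℝ, 1 / 2 ≤ c ∧ c < 1 ∧
      HasSum (fun k : ℤ => (μ k : ℂ) * Complex.exp (t * k * Complex.I)) (c : ℂ) := by
  obtain ⟨c, hc1, hc2, hc⟩ := fourier_real hnn hsum hsym h0 h1 t ht ht'
  refine ⟨c, hc1, hc2, ?_⟩
  have e : (fun k : ℤ => (μ k : ℂ) * Complex.exp (t * k * Complex.I)) =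
      fun k : ℤ => (μ k : ℂ) * Complex.exp (((t * (k : ℝ) : ℝ) : ℂ) * Complex.I) := by
    funext k
    push_cast
    rfl
  rw [e, ← hc]
  apply Summable.hasSum
  apply Summable.of_norm_bounded hsum.summable
  intro k
  rw [norm_mul, Complex.norm_exp_ofReal_mul_I, mul_one, Complex.norm_real, Real.norm_eq_abs,
    abs_of_nonneg (hnn k)]

theorem main : ∃ (μ : ℤ → ℝ) (P : ℕ → ℤ → ℝ),
    (∀ k, 0 ≤ μ k) ∧ HasSum μ 1 ∧ (∀ k, μ (-k) = μ k) ∧ 3 / 4 ≤ μ 0 ∧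
    (∀ t : ℝ, 0 < |t| → |t| ≤ Real.pi → ∃ c : ℝ, 1 / 2 ≤ c ∧ c < 1 ∧
      HasSum (fun k : ℤ => (μ k : ℂ) * Complex.exp (t * k * Complex.I)) (c : ℂ)) ∧
    P 0 = Pi.single 0 1 ∧ (∀ n m, HasSum (fun i => μ i * P n (m - i)) (P (n + 1) m)) ∧
    ∀ lam : ℝ, 0 < lam → ∃ (f : ℤ → ℝ) (S G : Finset ℤ) (N : ℕ),
      (∀ k, k ∉ S → f k = 0) ∧ 0 < ∑ k ∈ S, |f k| ∧ ∑ k ∈ S, |f k| ≤ 4 * (G.card : ℝ) ∧
      ∀ k ∈ G, lam ^ 2 < ∑ n ∈ Finset.Icc 1 N,
        (n : ℝ) * (∑ j ∈ S, (P n (k - j) - P (n + 1) (k - j)) * f j) ^ 2 := by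
  obtain ⟨μ, s, hs, hnn, hsum, hsym, hμ0, hμ1, hμn, hdist⟩ := exists_measure
  have hμt : n1 μ ≠ ⊤ := ne_top_of_le_ne_top ENNReal.one_ne_top hμn
  have hdl : n1 dl ≠ ⊤ := by rw [n1_dl]; exact ENNReal.one_ne_top
  refine ⟨μ, fun n => (cv μ)^[n] dl, hnn, hsum, hsym, hμ0,
    fun t ht ht' => fourier_hasSum hnn hsum hsym hμ0 hμ1 t ht ht', ?_, ?_, ?_⟩
  · funext m
    simp only [Function.iterate_zero, id_eq, dl, Pi.single_apply]
  · intro n m
    have h1 : n1 ((cv μ)^[n] dl) ≠ ⊤ := ne_top_of_le_ne_top hdl (n1_iter_le hμn n)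
    have h2 : (cv μ)^[n + 1] dl m = ∑' i : ℤ, μ i * (cv μ)^[n] dl (m - i) := by
      rw [Function.iterate_succ_apply']
      rfl
    show HasSum (fun i => μ i * (cv μ)^[n] dl (m - i)) ((cv μ)^[n + 1] dl m)
    rw [h2]
    exact (summable_cv hμt h1 m).hasSum
  intro lam hlam0
  obtain ⟨J, hJ⟩ := exists_nat_gt (4 * lam ^ 2)
  obtain ⟨-, -, t₁, t₂, f, S, G, h1, h12, hr, hS, hpos, hG, hd, hGood⟩ := hs J
  set ν : ℤ → ℝ := fun i => (s (J + 1)).p.coeff i with hν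
  have hνn : n1 ν ≤ 1 := (s (J + 1)).hp.n1_eq.le
  have hdist' : n1 (fun k => μ k - ν k) ≤ ENNReal.ofReal (2 * (s (J + 1)).d) := hdist (J + 1)
  have hd0 := (s (J + 1)).hd
  have ht1 : (t₁ : ℝ) * (s (J + 1)).d ≤ 1 / 128 := by
    refine le_trans ?_ hd
    gcongr
  classical
  set B1 : Finset ℤ := G.filter (fun k => 1 / 8 < |(cv μ)^[t₁] f k - (cv ν)^[t₁] f k|) with hB1
  set B2 : Finset ℤ := G.filter (fun k => 1 / 8 < |(cv μ)^[t₂] f k - (cv ν)^[t₂] f k|) with hB2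
  have c1 := card_bad hS hμn hνn hd0.le hdist' t₁ ht1 B1 fun k hk => (Finset.mem_filter.1 hk).2
  have c2 := card_bad hS hμn hνn hd0.le hdist' t₂ hd B2 fun k hk => (Finset.mem_filter.1 hk).2
  set T : ℝ := ∑ k ∈ S, |f k| with hT
  have hcard : T / 4 ≤ ((G \ (B1 ∪ B2)).card : ℝ) := by
    have h3 : G.card ≤ (G \ (B1 ∪ B2)).card + (B1 ∪ B2).card := by
      have := Finset.card_le_card_sdiff_add_card (s := G) (t := B1 ∪ B2)
      exact this
    have h4 := Finset.card_union_le B1 B2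
    have h5 : (G.card : ℝ) ≤ (G \ (B1 ∪ B2)).card + (B1.card + B2.card) := by
      exact_mod_cast h3.trans (Nat.add_le_add_left h4 _)
    linarith
  refine ⟨f, S, G \ (B1 ∪ B2), t₂, hS, hpos, by linarith, ?_⟩
  intro k hk
  rw [Finset.mem_sdiff, Finset.mem_union, not_or] at hk
  obtain ⟨hkG, hk1, hk2⟩ := hk
  have g1 : |(cv μ)^[t₁] f k - (cv ν)^[t₁] f k| ≤ 1 / 8 := by
    by_contra hcon
    push Not at hcon
    exact hk1 (Finset.mem_filter.2 ⟨hkG, hcon⟩)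
  have g2 : |(cv μ)^[t₂] f k - (cv ν)^[t₂] f k| ≤ 1 / 8 := by
    by_contra hcon
    push Not at hcon
    exact hk2 (Finset.mem_filter.2 ⟨hkG, hcon⟩)
  obtain ⟨g3, g4⟩ := hGood k hkG
  rw [abs_le] at g1 g2
  have hx : 1 / 2 ≤ (cv μ)^[t₂] f k - (cv μ)^[t₁] f k := by
    have := g1.2
    have := g2.1
    linarith
  have hη : (0 : ℝ) < 1 / ((J : ℝ) + 1) := by positivity
  have key := sq_lower (fun n => (cv μ)^[n] f k) t₁ t₂ h1 h12 _ hη hr hx
  have e : 1 / (4 * (1 / ((J : ℝ) + 1))) = ((J : ℝ) + 1) / 4 := by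
    field_simp
  rw [e] at key
  have e2 : ∀ n : ℕ, ∑ j ∈ S, ((cv μ)^[n] dl (k - j) - (cv μ)^[n + 1] dl (k - j)) * f j =
      (cv μ)^[n] f k - (cv μ)^[n + 1] f k := by
    intro n
    rw [iter_eq_sum hμn f S hS n k, iter_eq_sum hμn f S hS (n + 1) k, ← Finset.sum_sub_distrib]
    exact Finset.sum_congr rfl fun i _ => by ring
  calc lam ^ 2 < ((J : ℝ) + 1) / 4 := by linarith
    _ ≤ ∑ n ∈ Finset.Ico t₁ t₂, (n : ℝ) * ((cv μ)^[n] f k - (cv μ)^[n + 1] f k) ^ 2 := key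
    _ ≤ ∑ n ∈ Finset.Icc 1 t₂, (n : ℝ) * ((cv μ)^[n] f k - (cv μ)^[n + 1] f k) ^ 2 := by
        apply Finset.sum_le_sum_of_subset_of_nonneg
        · intro n hn
          rw [Finset.mem_Ico] at hn
          rw [Finset.mem_Icc]
          omega
        · intro n _ _
          positivity
    _ = _ := by
        refine Finset.sum_congr rfl fun n _ => ?_
        rw [e2]

end Pool.Agent.Helper78.SqOwn
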