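import Pool.Agent.Helper23.UBic
import Pool.Agent.Helper23.Rk
import Pool.Agent.Helper68.G2b2

/-!
# Slices of the relative commutant (module U14), auxiliary part
-/

open scoped InnerProductSpace Topology BoundedContinuousFunction
open ContinuousLinearMap Filter MeasureTheory

namespace Pool.Agent.Helper23

variable {H : Type*} [NormedAddCommGroup H] [InnerProductSpace ℂ H] [CompleteSpace H]
variable {M N : VonNeumannAlgebra H} {ξ : H} {E : (H →L[ℂ] H) → (H →L[ℂ] H)}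

namespace U14

/-- the field `t ↦ U_{2πt} a U_{-2πt}` -/
noncomputable def fld (Ψ : (ℝ →ᵇ ℂ) →⋆ₐ[ℂ] (H →L[ℂ] H)) (a : H →L[ℂ] H) (t : ℝ) : H →L[ℂ] H :=
  Ψ (expB (2 * Real.pi * t)) * a * Ψ (expB (-(2 * Real.pi * t)))

lemma fld_norm (Ψ : (ℝ →ᵇ ℂ) →⋆ₐ[ℂ] (H →L[ℂ] H)) (a : H →L[ℂ] H) (t : ℝ) :
    ‖fld Ψ a t‖ ≤ ‖a‖ := by
  have h1 : ‖Ψ (expB (2 * Real.pi * t))‖ ≤ 1 := (psi_norm_le Ψ _).trans (expB_norm _)
  have h2 : ‖Ψ (expB (-(2 * Real.pi * t)))‖ ≤ 1 := (psi_norm_le Ψ _).trans (expB_norm _)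
  calc ‖fld Ψ a t‖ ≤ ‖Ψ (expB (2 * Real.pi * t)) * a‖ * ‖Ψ (expB (-(2 * Real.pi * t)))‖ :=
        norm_mul_le _ _
    _ ≤ (‖Ψ (expB (2 * Real.pi * t))‖ * ‖a‖) * ‖Ψ (expB (-(2 * Real.pi * t)))‖ := by
        gcongr; exact norm_mul_le _ _
    _ ≤ (1 * ‖a‖) * 1 := by gcongr
    _ = ‖a‖ := by ring

lemma fld_dec {A : VonNeumannAlgebra H} {R : H →L[ℂ] H} {D : H →L[ℝ] H}
    {Ψ : (ℝ →ᵇ ℂ) →⋆ₐ[ℂ] (H →L[ℂ] H)} (hΨ : Modular A ξ R D Ψ) (a : H →L[ℂ] H) :
    Dec (fld Ψ a) :=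
  (hΨ.U_dec.comp (Dec.const a)).comp hΨ.U_dec'

lemma fco_add {T T' : ℝ → H →L[ℂ] H} (h : Dec T) (h' : Dec T') :
    fco (fun s => T s + T' s) = fco T + fco T' := by
  ext F : 1
  rw [fco_apply, dec_add h h']
  change (Fo H).symm (dec T (Fo H F) + dec T' (Fo H F)) = _
  rw [map_add]
  rfl

lemma fco_smul {T : ℝ → H →L[ℂ] H} (c : ℂ) (h : Dec T) :
    fco (fun s => c • T s) = c • fco T := by
  ext F : 1
  rw [fco_apply, dec_smul c h]
  change (Fo H).symm (c • dec T (Fo H F)) = _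
  rw [map_smul]
  rfl

lemma fco_norm {T : ℝ → H →L[ℂ] H} {C : ℝ} (hC0 : 0 ≤ C) (hC : ∀ s, ‖T s‖ ≤ C) :
    ‖fco T‖ ≤ C := by
  refine ContinuousLinearMap.opNorm_le_bound _ hC0 fun F => ?_
  rw [fco_apply, LinearIsometryEquiv.norm_map]
  have h1 := (dec T).le_of_opNorm_le (dec_norm hC0 hC) (Fo H F)
  rwa [LinearIsometryEquiv.norm_map] at h1

lemma fld_add (Ψ : (ℝ →ᵇ ℂ) →⋆ₐ[ℂ] (H →L[ℂ] H)) (a b : H →L[ℂ] H) :
    fld Ψ (a + b) = fun t => fld Ψ a t + fld Ψ b t := by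
  funext t
  simp only [fld, mul_add, add_mul]

lemma fld_smul (Ψ : (ℝ →ᵇ ℂ) →⋆ₐ[ℂ] (H →L[ℂ] H)) (c : ℂ) (a : H →L[ℂ] H) :
    fld Ψ (c • a) = fun t => c • fld Ψ a t := by
  funext t
  simp only [fld, mul_smul_comm, smul_mul_assoc]

/-- commutation with the fields of all elements of `N` -/
lemma comm_fld {R : H →L[ℂ] H} {D : H →L[ℝ] H} {Ψ : (ℝ →ᵇ ℂ) →⋆ₐ[ℂ] (H →L[ℂ] H)}
    (hΨ : Modular M ξ R D Ψ)
    (hGK : ∀ u ∈ N, star u * u = 1 → u * star u = 1 → fco (fld Ψ u) ∈ GK N ξ)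
    {X : L2R H →L[ℂ] L2R H} (hX : X ∈ Rk M N ξ) {a : H →L[ℂ] H} (ha : a ∈ N) :
    fco (fld Ψ a) * X = X * fco (fld Ψ a) := by
  have hadd : ∀ b c : H →L[ℂ] H, fco (fld Ψ (b + c)) = fco (fld Ψ b) + fco (fld Ψ c) := by
    intro b c
    rw [fld_add, fco_add (fld_dec hΨ b) (fld_dec hΨ c)]
  have hsmul : ∀ (c : ℂ) (b : H →L[ℂ] H), fco (fld Ψ (c • b)) = c • fco (fld Ψ b) := by
    intro c b
    rw [fld_smul, fco_smul c (fld_dec hΨ b)]
  obtain ⟨u, k, hk, -⟩ := CStarAlgebra.exists_sum_four_unitary (⟨a, ha⟩ : N.toStarSubalgebra)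
  have ha' : a = ∑ i, k i • ((u i : N.toStarSubalgebra) : H →L[ℂ] H) := by
    have := congrArg (fun z : N.toStarSubalgebra => (z : H →L[ℂ] H)) hk
    simpa using this
  have hl : fco (fld Ψ a) = ∑ i, k i • fco (fld Ψ ((u i : N.toStarSubalgebra) : H →L[ℂ] H)) := by
    rw [ha', Fin.sum_univ_four, Fin.sum_univ_four, hadd, hadd, hadd, hsmul, hsmul, hsmul, hsmul]
  rw [hl, Finset.sum_mul, Finset.mul_sum]
  refine Finset.sum_congr rfl fun i _ => ?_
  rw [smul_mul_assoc, mul_smul_comm, hX.2]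
  refine hGK _ (u i : N.toStarSubalgebra).2 ?_ ?_
  · have := Unitary.star_mul_self_of_mem (u i).2
    exact congrArg (fun z : N.toStarSubalgebra => (z : H →L[ℂ] H)) this
  · have := Unitary.mul_star_self_of_mem (u i).2
    exact congrArg (fun z : N.toStarSubalgebra => (z : H →L[ℂ] H)) this

/-- strong convergence to zero of bounded sequences can be tested on elementary tensors -/
lemma tendsto_of_ten {D : ℕ → (L2R H →L[ℂ] L2R H)} {C : ℝ} (hC : ∀ n, ‖D n‖ ≤ C)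
    (h : ∀ (f : L2R ℂ) (η : H), Tendsto (fun n => D n (ten f η)) atTop (𝓝 0)) (G : L2R H) :
    Tendsto (fun n => D n G) atTop (𝓝 0) := by
  have hC0 : 0 ≤ C := (norm_nonneg _).trans (hC 0)
  set T : Submodule ℂ (L2R H) :=
    { carrier := {G | Tendsto (fun n => D n G) atTop (𝓝 0)}
      add_mem' := fun {a b} ha hb => by
        change Tendsto _ _ (𝓝 0)
        have := Tendsto.add ha hb
        rw [add_zero] at this
        refine this.congr fun i => ?_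
        rw [map_add]
      zero_mem' := by
        change Tendsto _ _ (𝓝 0)
        simp only [map_zero]
        exact tendsto_const_nhds
      smul_mem' := fun c a ha => by
        change Tendsto _ _ (𝓝 0)
        have := Tendsto.const_smul ha c
        rw [smul_zero] at this
        refine this.congr fun i => ?_
        rw [map_smul] } with hT
  have hcl : IsClosed (T : Set (L2R H)) := by
    rw [← closure_subset_iff_isClosed]
    intro G hG
    change Tendsto _ _ (𝓝 0)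
    rw [Metric.tendsto_nhds]
    intro ε hε
    obtain ⟨G', hG', hGG⟩ := Metric.mem_closure_iff.1 hG (ε / (2 * (C + 1))) (by positivity)
    have h3 := (Metric.tendsto_nhds.1 (show Tendsto (fun n => D n G') atTop (𝓝 0) from hG'))
      (ε / 2) (by positivity)
    filter_upwards [h3] with i hi
    rw [dist_zero_right] at hi ⊢
    have e1 : D i G = D i (G - G') + D i G' := by rw [map_sub, sub_add_cancel]
    rw [e1]
    rw [dist_eq_norm] at hGG
    calc _ ≤ ‖D i (G - G')‖ + ‖D i G'‖ := norm_add_le _ _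
      _ ≤ (C + 1) * ‖G - G'‖ + ‖D i G'‖ := by
          gcongr
          exact ContinuousLinearMap.le_of_opNorm_le _ ((hC i).trans (by linarith)) _
      _ < (C + 1) * (ε / (2 * (C + 1))) + ε / 2 := by gcongr
      _ = ε := by field_simp; ring
  have h5 : T.topologicalClosure = ⊤ := by
    rw [Submodule.topologicalClosure_eq_top_iff, Submodule.eq_bot_iff]
    intro F hF
    exact eq_zero_of_ten fun f η => (Submodule.mem_orthogonal _ _).1 hF _ (h f η)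
  have h6 : G ∈ T.topologicalClosure := by rw [h5]; trivial
  have h7 : G ∈ closure (T : Set (L2R H)) := h6
  exact hcl.closure_subset h7

/-- convergence on all vectors -/
lemma conv_all (S : Setting M N E ξ) {R : H →L[ℂ] H} {D : H →L[ℝ] H}
    {Ψ : (ℝ →ᵇ ℂ) →⋆ₐ[ℂ] (H →L[ℂ] H)} (hΨ : Modular M ξ R D Ψ)
    (hN : ∀ (t : ℝ), ∀ a ∈ N, Ψ (expB t) * a * Ψ (expB (-t)) ∈ N)
    {l : ℝ} {a : ℕ → H →L[ℂ] H} (ha : LamSeq N ξ l a)
    (hconj : ∀ f : L2R ℂ, Tendsto (fun n => ‖fco (fld Ψ (a n)) (ten f ξ) -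
      ten (tr ℂ (Real.log l) f) (a n ξ)‖) atTop (𝓝 0)) (G : L2R H) :
    Tendsto (fun n => (fco (fld Ψ (a n)) - tr H (Real.log l) * lift (a n)) G) atTop (𝓝 0) := by
  obtain ⟨haN, ⟨C, hC⟩, -⟩ := ha
  have hC0 : 0 ≤ C := (norm_nonneg _).trans (hC 0)
  have htr : ‖tr H (Real.log l)‖ ≤ 1 :=
    ContinuousLinearMap.opNorm_le_bound _ zero_le_one fun F => by rw [tr_norm, one_mul]
  have hbd : ∀ n, ‖fco (fld Ψ (a n)) - tr H (Real.log l) * lift (a n)‖ ≤ C + 1 * C := by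
    intro n
    refine (norm_sub_le _ _).trans (add_le_add ?_ ?_)
    · exact fco_norm hC0 fun s => (fld_norm Ψ _ _).trans (hC n)
    · refine (norm_mul_le _ _).trans ?_
      exact mul_le_mul htr ((lift_norm _).trans (hC n)) (norm_nonneg _) zero_le_one
  refine tendsto_of_ten hbd (fun f η => ?_) G
  -- the set of good vectors
  have hamp : ∀ n, fco (fld Ψ (a n)) - tr H (Real.log l) * lift (a n) ∈ amp N := fun n =>
    sub_mem (fco_mem_amp (fld_dec hΨ _) fun s => hN _ _ (haN n))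
      (mul_mem (tr_mem_amp _) (lift_mem_amp (haN n)))
  have h0 : Tendsto (fun n => (fco (fld Ψ (a n)) - tr H (Real.log l) * lift (a n)) (ten f ξ))
      atTop (𝓝 0) := by
    rw [tendsto_zero_iff_norm_tendsto_zero]
    refine (hconj f).congr fun n => ?_
    congr 1
    change _ = fco (fld Ψ (a n)) (ten f ξ) - tr H (Real.log l) (lift (a n) (ten f ξ))
    rw [lift_ten, tr_ten]
  rw [Metric.tendsto_nhds]
  intro ε hε
  have hd := S.dense_comm η
  obtain ⟨_, ⟨r, hr, rfl⟩, hrη⟩ := Metric.mem_closure_iff.1 hd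
    (ε / (2 * ((C + 1 * C + 1) * (‖f‖ + 1)))) (by positivity)
  have h1 : Tendsto (fun n => ‖lift r‖ * ‖(fco (fld Ψ (a n)) -
      tr H (Real.log l) * lift (a n)) (ten f ξ)‖) atTop (𝓝 0) := by
    have := (tendsto_zero_iff_norm_tendsto_zero.1 h0).const_mul ‖lift r‖
    rwa [mul_zero] at this
  have h2 := (Metric.tendsto_nhds.1 h1) (ε / 2) (by positivity)
  filter_upwards [h2] with n hn
  rw [Real.dist_eq, sub_zero, abs_of_nonneg (by positivity)] at hn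
  rw [dist_zero_right]
  set Dn := fco (fld Ψ (a n)) - tr H (Real.log l) * lift (a n) with hDn
  have e1 : Dn (ten f η) = Dn (ten f (η - r ξ)) + lift r (Dn (ten f ξ)) := by
    rw [← amp_ten (hamp n) (S.comm_le hr), ← map_add]
    congr 1
    have h3 : η - r ξ + r ξ = η := sub_add_cancel _ _
    rw [← ten_add_right, h3]
  rw [e1]
  have e2 : ‖Dn (ten f (η - r ξ))‖ ≤ (C + 1 * C + 1) * ((‖f‖ + 1) * ‖η - r ξ‖) := by
    refine (Dn.le_of_opNorm_le ((hbd n).trans (by linarith : C + 1 * C ≤ C + 1 * C + 1)) _).trans ?_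
    rw [norm_ten]
    gcongr
    linarith
  rw [dist_eq_norm] at hrη
  calc _ ≤ ‖Dn (ten f (η - r ξ))‖ + ‖lift r (Dn (ten f ξ))‖ := norm_add_le _ _
    _ ≤ (C + 1 * C + 1) * ((‖f‖ + 1) * ‖η - r ξ‖) + ‖lift r‖ * ‖Dn (ten f ξ)‖ :=
        add_le_add e2 ((lift r).le_opNorm _)
    _ < (C + 1 * C + 1) * ((‖f‖ + 1) * (ε / (2 * ((C + 1 * C + 1) * (‖f‖ + 1))))) + ε / 2 := by
        gcongr
    _ = ε := by field_simp; ring

/-- the slices are shifted by asymptotic eigenoperators -/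
theorem shift_all (S : Setting M N E ξ) {R : H →L[ℂ] H} {D : H →L[ℝ] H}
    {Ψ : (ℝ →ᵇ ℂ) →⋆ₐ[ℂ] (H →L[ℂ] H)} (hΨ : Modular M ξ R D Ψ)
    (hN : ∀ (t : ℝ), ∀ a ∈ N, Ψ (expB t) * a * Ψ (expB (-t)) ∈ N)
    (hGK : ∀ u ∈ N, star u * u = 1 → u * star u = 1 → fco (fld Ψ u) ∈ GK N ξ)
    {X : L2R H →L[ℂ] L2R H} (hX : X ∈ Rk M N ξ) (f g : L2R ℂ)
    {l : ℝ} {a : ℕ → H →L[ℂ] H} (ha : LamSeq N ξ l a)
    (hconj : ∀ f : L2R ℂ, Tendsto (fun n => ‖fco (fld Ψ (a n)) (ten f ξ) -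
      ten (tr ℂ (Real.log l) f) (a n ξ)‖) atTop (𝓝 0)) (η : H) :
    Tendsto (fun n => (a n * slX X f g -
      slX X (tr ℂ (Real.log l) f) (tr ℂ (Real.log l) g) * a n) η) atTop (𝓝 0) := by
  set t := Real.log l with ht
  set D : ℕ → (L2R H →L[ℂ] L2R H) := fun n => fco (fld Ψ (a n)) - tr H t * lift (a n) with hD
  have h1 := conv_all S hΨ hN ha hconj (X (ten g η))
  have h2 := conv_all S hΨ hN ha hconj (ten g η)
  have h3 : Tendsto (fun n => sl (tr ℂ t f) (X (D n (ten g η)) - D n (X (ten g η)))) atTop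
      (𝓝 0) := by
    have h4 := ((X.continuous.tendsto 0).comp h2).sub h1
    rw [map_zero, sub_zero] at h4
    have h5 := ((sl (tr ℂ t f) : L2R H →L[ℂ] H).continuous.tendsto 0).comp h4
    rwa [map_zero] at h5
  refine h3.congr fun n => ?_
  have hc : fco (fld Ψ (a n)) (X (ten g η)) = X (fco (fld Ψ (a n)) (ten g η)) :=
    congrArg (fun T : L2R H →L[ℂ] L2R H => T (ten g η)) (comm_fld hΨ hGK hX (ha.1 n))
  have e1 : X (D n (ten g η)) - D n (X (ten g η)) =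
      tr H t (lift (a n) (X (ten g η))) - X (ten (tr ℂ t g) (a n η)) := by
    have e2 : D n (ten g η) = fco (fld Ψ (a n)) (ten g η) - ten (tr ℂ t g) (a n η) := by
      change fco (fld Ψ (a n)) (ten g η) - tr H t (lift (a n) (ten g η)) = _
      rw [lift_ten, tr_ten]
    have e3 : D n (X (ten g η)) = fco (fld Ψ (a n)) (X (ten g η)) -
      tr H t (lift (a n) (X (ten g η))) := rfl
    rw [e2, e3, map_sub, hc]
    abel
  rw [e1, map_sub, sl_tr, tr_neg_tr, sl_lift]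
  rfl

end U14

end Pool.Agent.Helper23
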